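import Pool.Agent.Y305.MR.Implicit

/-! The multivalued first integral of the vector field, in quasi-polar coordinates
`x = exp (3 s) cos θ`, `y = exp (2 s) sin θ`. -/

set_option autoImplicit false

open Set Filter Topology Asymptotics

noncomputable section

namespace Pool.Agent.Y305.MR

def hh (θ : ℝ) : ℝ := Real.cos θ ^ 2 - Real.sin θ ^ 3
def kk (θ : ℝ) : ℝ := Real.cos θ ^ 3
def dh (θ : ℝ) : ℝ := -2 * Real.cos θ * Real.sin θ - 3 * Real.sin θ ^ 2 * Real.cos θ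
def dk (θ : ℝ) : ℝ := -3 * Real.cos θ ^ 2 * Real.sin θ

theorem hasDerivAt_hh (θ : ℝ) : HasDerivAt hh (dh θ) θ := by
  have h1 := ((Real.hasDerivAt_cos θ).pow 2).sub ((Real.hasDerivAt_sin θ).pow 3)
  refine h1.congr_deriv ?_
  simp [dh]

theorem hasDerivAt_kk (θ : ℝ) : HasDerivAt kk (dk θ) θ := by
  have h1 := (Real.hasDerivAt_cos θ).pow 3
  refine h1.congr_deriv ?_
  simp [dk]

/-- `f + i κ` divided by `exp (6 s)`. -/
def zt (s θ : ℝ) : ℂ := ⟨hh θ, Real.exp (3 * s) * kk θ⟩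

theorem zt_re (s θ : ℝ) : (zt s θ).re = hh θ := rfl
theorem zt_im (s θ : ℝ) : (zt s θ).im = Real.exp (3 * s) * kk θ := rfl

theorem zt_im_pos {s θ : ℝ} (h : 0 < Real.cos θ) : 0 < (zt s θ).im := by
  rw [zt_im, kk]; positivity

theorem zt_im_neg {s θ : ℝ} (h : Real.cos θ < 0) : (zt s θ).im < 0 := by
  rw [zt_im, kk]
  have h1 : Real.cos θ ^ 3 < 0 := Odd.pow_neg (by decide) h
  exact mul_neg_of_pos_of_neg (Real.exp_pos _) h1

theorem zt_ne (s θ : ℝ) : zt s θ ≠ 0 := by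
  intro h
  have h1 : (zt s θ).im = 0 := by rw [h]; rfl
  have h2 : (zt s θ).re = 0 := by rw [h]; rfl
  rw [zt_im, kk] at h1
  rw [zt_re, hh] at h2
  have h3 : Real.cos θ = 0 := by
    rcases mul_eq_zero.1 h1 with h | h
    · exact absurd h (Real.exp_ne_zero _)
    · exact pow_eq_zero_iff (by norm_num) |>.1 h
  have h4 := Real.sin_sq_add_cos_sq θ
  rw [h3] at h2 h4
  have h5 : Real.sin θ ^ 3 = 0 := by linarith
  have h6 : Real.sin θ = 0 := pow_eq_zero_iff (by norm_num) |>.1 h5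
  rw [h6] at h4
  norm_num at h4

/-- The continuous argument of `f + i κ`. -/
def al (s θ : ℝ) : ℝ := 2 * Real.pi * ⌈(θ - Real.pi / 2) / (2 * Real.pi)⌉ + (zt s θ).arg

theorem ceil_eq {θ : ℝ} {n : ℤ} (h1 : 2 * Real.pi * n - 3 * Real.pi / 2 < θ)
    (h2 : θ ≤ 2 * Real.pi * n + Real.pi / 2) : ⌈(θ - Real.pi / 2) / (2 * Real.pi)⌉ = n := by
  have hp := Real.pi_pos
  rw [Int.ceil_eq_iff]
  constructor
  · rw [lt_div_iff₀ (by positivity)]
    linarith
  · rw [div_le_iff₀ (by positivity)]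
    linarith

theorem exists_int (θ : ℝ) : ∃ n : ℤ, 2 * Real.pi * n - 3 * Real.pi / 2 < θ ∧
    θ ≤ 2 * Real.pi * n + Real.pi / 2 := by
  have hp := Real.pi_pos
  refine ⟨⌈(θ - Real.pi / 2) / (2 * Real.pi)⌉, ?_, ?_⟩
  · have h1 := Int.ceil_lt_add_one ((θ - Real.pi / 2) / (2 * Real.pi))
    rw [← sub_lt_iff_lt_add, lt_div_iff₀ (by positivity)] at h1
    linarith
  · have h1 := Int.le_ceil ((θ - Real.pi / 2) / (2 * Real.pi))
    rw [div_le_iff₀ (by positivity)] at h1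
    linarith

theorem al_eq₁ {s θ : ℝ} {n : ℤ} (h1 : 2 * Real.pi * n - 3 * Real.pi / 2 < θ)
    (h2 : θ ≤ 2 * Real.pi * n + Real.pi / 2) : al s θ = 2 * Real.pi * n + (zt s θ).arg := by
  rw [al, ceil_eq h1 h2]

theorem cos_shift (θ : ℝ) (n : ℤ) : Real.cos (θ - 2 * Real.pi * n) = Real.cos θ := by
  rw [mul_comm (2 * Real.pi) (n : ℝ), Real.cos_sub_int_mul_two_pi]

theorem sin_shift (θ : ℝ) (n : ℤ) : Real.sin (θ - 2 * Real.pi * n) = Real.sin θ := by
  rw [mul_comm (2 * Real.pi) (n : ℝ), Real.sin_sub_int_mul_two_pi]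

theorem cos_pos' {θ : ℝ} {n : ℤ} (h1 : 2 * Real.pi * n - Real.pi / 2 < θ)
    (h2 : θ < 2 * Real.pi * n + Real.pi / 2) : 0 < Real.cos θ := by
  rw [← cos_shift θ n]
  apply Real.cos_pos_of_mem_Ioo
  constructor <;> linarith

theorem cos_neg' {θ : ℝ} {n : ℤ} (h1 : 2 * Real.pi * n + Real.pi / 2 < θ)
    (h2 : θ < 2 * Real.pi * n + 3 * Real.pi / 2) : Real.cos θ < 0 := by
  rw [← cos_shift θ n]
  apply Real.cos_neg_of_pi_div_two_lt_of_lt <;> linarith

theorem zt_at {θ : ℝ} {n : ℤ} (s : ℝ) (h : θ = 2 * Real.pi * n + Real.pi / 2) :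
    zt s θ = -1 := by
  have h1 : Real.cos θ = 0 := by
    rw [← cos_shift θ n, h, show 2 * Real.pi * n + Real.pi / 2 - 2 * Real.pi * n = Real.pi / 2 by
      ring, Real.cos_pi_div_two]
  have h2 : Real.sin θ = 1 := by
    rw [← sin_shift θ n, h, show 2 * Real.pi * n + Real.pi / 2 - 2 * Real.pi * n = Real.pi / 2 by
      ring, Real.sin_pi_div_two]
  apply Complex.ext
  · rw [zt_re, hh, h1, h2]; norm_num
  · rw [zt_im, kk, h1]; norm_num

theorem zt_at' {θ : ℝ} {n : ℤ} (s : ℝ) (h : θ = 2 * Real.pi * n - Real.pi / 2) :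
    zt s θ = 1 := by
  have h1 : Real.cos θ = 0 := by
    rw [← cos_shift θ n, h, show 2 * Real.pi * n - Real.pi / 2 - 2 * Real.pi * n = -(Real.pi / 2) by
      ring, Real.cos_neg, Real.cos_pi_div_two]
  have h2 : Real.sin θ = -1 := by
    rw [← sin_shift θ n, h, show 2 * Real.pi * n - Real.pi / 2 - 2 * Real.pi * n = -(Real.pi / 2) by
      ring, Real.sin_neg, Real.sin_pi_div_two]
  apply Complex.ext
  · rw [zt_re, hh, h1, h2]; norm_num
  · rw [zt_im, kk, h1]; norm_num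

theorem zt_slit {s θ : ℝ} {n : ℤ} (h1 : 2 * Real.pi * n - 3 * Real.pi / 2 < θ)
    (h2 : θ < 2 * Real.pi * n + Real.pi / 2) : zt s θ ∈ Complex.slitPlane := by
  rcases lt_trichotomy θ (2 * Real.pi * n - Real.pi / 2) with h | h | h
  · right
    have h3 : Real.cos θ < 0 := by
      apply cos_neg' (n := n - 1) <;> push_cast <;> linarith
    exact (zt_im_neg h3).ne
  · rw [zt_at' s h]
    exact Complex.one_mem_slitPlane
  · right
    exact (zt_im_pos (cos_pos' h h2)).ne'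

theorem zt_slit' {s θ : ℝ} {n : ℤ} (h1 : 2 * Real.pi * n - Real.pi / 2 < θ)
    (h2 : θ < 2 * Real.pi * n + 3 * Real.pi / 2) : -zt s θ ∈ Complex.slitPlane := by
  rcases lt_trichotomy θ (2 * Real.pi * n + Real.pi / 2) with h | h | h
  · right
    have := zt_im_pos (s := s) (cos_pos' h1 h)
    rw [Complex.neg_im]
    intro h'
    linarith
  · rw [zt_at s h, neg_neg]
    exact Complex.one_mem_slitPlane
  · right
    have := zt_im_neg (s := s) (cos_neg' h h2)
    rw [Complex.neg_im]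
    intro h'
    linarith

theorem al_eq₂ {s θ : ℝ} {n : ℤ} (h1 : 2 * Real.pi * n - Real.pi / 2 < θ)
    (h2 : θ < 2 * Real.pi * n + 3 * Real.pi / 2) :
    al s θ = 2 * Real.pi * n + Real.pi + (-zt s θ).arg := by
  have hp := Real.pi_pos
  rcases lt_trichotomy θ (2 * Real.pi * n + Real.pi / 2) with h | h | h
  · rw [al_eq₁ (n := n) (by linarith) h.le,
      Complex.arg_neg_eq_arg_sub_pi_of_im_pos (zt_im_pos (cos_pos' h1 h))]
    ring
  · rw [al_eq₁ (n := n) (by linarith) h.le, zt_at s h]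
    simp
  · rw [al_eq₁ (n := n + 1) (by push_cast; linarith) (by push_cast; linarith),
      Complex.arg_neg_eq_arg_add_pi_of_im_neg (zt_im_neg (cos_neg' h h2))]
    push_cast
    ring

/-- The first integral. -/
def MM (p : ℝ × ℝ) : ℝ := 6 * p.1 + Real.log ‖zt p.1 p.2‖ - al p.1 p.2

theorem zt_per (s θ : ℝ) (n : ℤ) : zt s (θ + 2 * Real.pi * n) = zt s θ := by
  have h1 : Real.cos (θ + 2 * Real.pi * n) = Real.cos θ := by
    rw [mul_comm (2 * Real.pi) (n : ℝ), Real.cos_add_int_mul_two_pi]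
  have h2 : Real.sin (θ + 2 * Real.pi * n) = Real.sin θ := by
    rw [mul_comm (2 * Real.pi) (n : ℝ), Real.sin_add_int_mul_two_pi]
  simp only [zt, hh, kk, h1, h2]

theorem al_per (s θ : ℝ) : al s (θ + 2 * Real.pi) = al s θ + 2 * Real.pi := by
  have hp := Real.pi_pos
  have h1 : (θ + 2 * Real.pi - Real.pi / 2) / (2 * Real.pi) =
      (θ - Real.pi / 2) / (2 * Real.pi) + 1 := by
    field_simp
    ring
  have h2 := zt_per s θ 1
  rw [Int.cast_one, mul_one] at h2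
  rw [al, al, h1, Int.ceil_add_one, h2]
  push_cast
  ring

theorem MM_per (s θ : ℝ) : MM (s, θ + 2 * Real.pi) = MM (s, θ) - 2 * Real.pi := by
  have h2 := zt_per s θ 1
  rw [Int.cast_one, mul_one] at h2
  simp only [MM, al_per, h2]
  ring

end Pool.Agent.Y305.MR
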