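import Mathlib

/-!
# Monodromic singular points, Newton diagrams and the leading coefficient of the return map

Definitions for MP_296844_an.
-/

set_option autoImplicit false

open Set Filter Topology MeasureTheory

noncomputable section

namespace Pool.Agent.Y305.MR

/-- Near the origin `g (x, y) = ∑ c i j x ^ i y ^ j`. -/
def IsSeries (g : ℝ × ℝ → ℝ) (c : ℕ → ℕ → ℝ) : Prop :=
  ∃ r : ℝ, 0 < r ∧ ∀ x y : ℝ, |x| < r → |y| < r →
    HasSum (fun n : ℕ × ℕ => c n.1 n.2 * x ^ n.1 * y ^ n.2) (g (x, y))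

/-- The vector field `Z` is real analytic at the origin with the expansion
`Z = ∑ a i j x ^ i y ^ (j - 1) ∂x + ∑ b i j x ^ (i - 1) y ^ j ∂y`. -/
structure IsExpansion (Z : ℝ × ℝ → ℝ × ℝ) (a b : ℕ → ℕ → ℝ) : Prop where
  a_zero : ∀ i, a i 0 = 0
  b_zero : ∀ j, b 0 j = 0
  fst : IsSeries (fun z => (Z z).1) fun i j => a i (j + 1)
  snd : IsSeries (fun z => (Z z).2) fun i j => b (i + 1) j

/-- The support of the vector field. -/
def supp (a b : ℕ → ℕ → ℝ) : Set (ℕ × ℕ) := {n | a n.1 n.2 ≠ 0 ∨ b n.1 n.2 ≠ 0}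

/-- The convex hull of the union of the quadrants `n + [0, ∞)²`, `n` in the support. -/
def newtonPolygon (a b : ℕ → ℕ → ℝ) : Set (ℝ × ℝ) :=
  convexHull ℝ {w | ∃ n ∈ supp a b, (n.1 : ℝ) ≤ w.1 ∧ (n.2 : ℝ) ≤ w.2}

/-- The points of the polygon at which `p x + q y` is minimal. -/
def face (a b : ℕ → ℕ → ℝ) (p q : ℕ) : Set (ℝ × ℝ) :=
  {w | w ∈ newtonPolygon a b ∧
    ∀ w' ∈ newtonPolygon a b, (p : ℝ) * w.1 + q * w.2 ≤ p * w'.1 + q * w'.2}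

/-- `(p, q)` are the weights of an edge of the Newton diagram. -/
def IsEdge (a b : ℕ → ℕ → ℝ) (p q : ℕ) : Prop :=
  0 < p ∧ 0 < q ∧ p.Coprime q ∧ (face a b p q).Nontrivial

/-- The minimum of `p i + q j` over the support. -/
def level (a b : ℕ → ℕ → ℝ) (p q : ℕ) : ℕ :=
  sInf {m | ∃ n ∈ supp a b, p * n.1 + q * n.2 = m}

/-- The exponents `(i, j)` with `p i + q j` equal to `m` (for `p, q ≥ 1`). -/
def line (p q m : ℕ) : Finset (ℕ × ℕ) :=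
  (Finset.range (m + 1) ×ˢ Finset.range (m + 1)).filter fun n => p * n.1 + q * n.2 = m

/-- First component of the term of lowest degree of the `(p, q)`-quasihomogeneous expansion. -/
def leadP (a b : ℕ → ℕ → ℝ) (p q : ℕ) (x y : ℝ) : ℝ :=
  ∑ n ∈ line p q (level a b p q), a n.1 n.2 * x ^ n.1 * y ^ (n.2 - 1)

/-- Second component of the term of lowest degree of the `(p, q)`-quasihomogeneous expansion. -/
def leadQ (a b : ℕ → ℕ → ℝ) (p q : ℕ) (x y : ℝ) : ℝ :=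
  ∑ n ∈ line p q (level a b p q), b n.1 n.2 * x ^ (n.1 - 1) * y ^ n.2

/-- The function `F` of an edge. -/
def radial (a b : ℕ → ℕ → ℝ) (p q : ℕ) (φ : ℝ) : ℝ :=
  leadP a b p q (Real.cos φ) (Real.sin φ) * Real.cos φ +
    leadQ a b p q (Real.cos φ) (Real.sin φ) * Real.sin φ

/-- The function `G` of an edge. -/
def angular (a b : ℕ → ℕ → ℝ) (p q : ℕ) (φ : ℝ) : ℝ :=
  p * leadQ a b p q (Real.cos φ) (Real.sin φ) * Real.cos φ -
    q * leadP a b p q (Real.cos φ) (Real.sin φ) * Real.sin φ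

/-- The interval `[0, 2π]` without the `ε`-neighbourhoods of the zeros of `G`. -/
def cut (G : ℝ → ℝ) (ε : ℝ) : Set ℝ :=
  {φ | φ ∈ Icc 0 (2 * Real.pi) ∧ ∀ z, G z = 0 → ε ≤ |φ - z|}

/-- `ξ` is the Cauchy principal value of the integral of `F / G` over `[0, 2π]`. -/
def HasPV (F G : ℝ → ℝ) (ξ : ℝ) : Prop :=
  (∀ ε, 0 < ε → IntegrableOn (fun φ => F φ / G φ) (cut G ε)) ∧
    Tendsto (fun ε => ∫ φ in cut G ε, F φ / G φ) (𝓝[>] 0) (𝓝 ξ)

/-- `(p 1, q 1), …, (p l, q l)` are the weights of all edges of the Newton diagram, ordered by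
`q / p`, `v i` is the vertex shared by the edges `i - 1` and `i`, all these inner vertices are
nondegenerate, and the principal values `ξ 1, …, ξ l` exist. -/
structure Conditions (a b : ℕ → ℕ → ℝ) (l : ℕ) (p q : ℕ → ℕ) (v : ℕ → ℕ × ℕ) (ξ : ℕ → ℝ) :
    Prop where
  edge : ∀ i ∈ Icc 1 l, IsEdge a b (p i) (q i)
  all : ∀ p' q', IsEdge a b p' q' → ∃ i ∈ Icc 1 l, p i = p' ∧ q i = q'
  order : ∀ i ∈ Icc 1 l, ∀ j ∈ Icc 1 l, i < j → q i * p j < q j * p i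
  vertex : ∀ i ∈ Icc 2 l, v i ∈ supp a b ∧
    (((v i).1 : ℝ), ((v i).2 : ℝ)) ∈ face a b (p (i - 1)) (q (i - 1)) ∩ face a b (p i) (q i)
  nondegenerate : ∀ i ∈ Icc 2 l,
    (p i : ℝ) * b (v i).1 (v i).2 - q i * a (v i).1 (v i).2 ≠ 0 ∧
    (p (i - 1) : ℝ) * b (v i).1 (v i).2 - q (i - 1) * a (v i).1 (v i).2 ≠ 0
  pv : ∀ i ∈ Icc 1 l, HasPV (radial a b (p i) (q i)) (angular a b (p i) (q i)) (ξ i)

/-- The factors `λ_i`. -/
def lam (a b : ℕ → ℕ → ℝ) (p q : ℕ → ℕ) (v : ℕ → ℕ × ℕ) (i : ℕ) : ℝ :=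
  if i = 1 then 1 else
    ((p i : ℝ) * b (v i).1 (v i).2 - q i * a (v i).1 (v i).2) /
      ((p (i - 1) : ℝ) * b (v i).1 (v i).2 - q (i - 1) * a (v i).1 (v i).2)

/-- The exponent `∑ λ_i ξ_i` of the formula. -/
def exponent (a b : ℕ → ℕ → ℝ) (l : ℕ) (p q : ℕ → ℕ) (v : ℕ → ℕ × ℕ) (ξ : ℕ → ℝ) : ℝ :=
  ∑ i ∈ Finset.Icc 1 l, lam a b p q v i * ξ i

/-- The trajectory of `W` starting at `(x, 0)` stays in `U`, runs through one of the two open half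
planes to the negative half-axis, and then through the other one back to the positive half-axis,
which it reaches at `(x', 0)`. -/
def MakesTurn (W : ℝ × ℝ → ℝ × ℝ) (U : Set (ℝ × ℝ)) (x x' : ℝ) : Prop :=
  ∃ (γ : ℝ → ℝ × ℝ) (t₁ t₂ σ : ℝ), 0 < t₁ ∧ t₁ < t₂ ∧ (σ = 1 ∨ σ = -1) ∧
    (∀ t ∈ Icc 0 t₂, γ t ∈ U ∧ HasDerivAt γ (W (γ t)) t) ∧
    γ 0 = (x, 0) ∧ 0 < x ∧ (∀ t ∈ Ioo 0 t₁, 0 < σ * (γ t).2) ∧
    (γ t₁).1 < 0 ∧ (γ t₁).2 = 0 ∧ (∀ t ∈ Ioo t₁ t₂, σ * (γ t).2 < 0) ∧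
    γ t₂ = (x', 0) ∧ 0 < x'

/-- The origin is a monodromic singular point of `W` and `R` is the return map on the half-axis
`{y = 0, x > 0}`: all trajectories that start on this half-axis near the origin turn around the
origin, staying as close to it as prescribed. -/
def IsReturnMap (W : ℝ × ℝ → ℝ × ℝ) (R : ℝ → ℝ) : Prop :=
  ∀ U ∈ 𝓝 (0 : ℝ × ℝ), ∀ᶠ x in 𝓝[>] (0 : ℝ), MakesTurn W U x (R x)

/-- `R x = η x + o(x)` as `x → 0+`. -/
def HasLeadingCoeff (R : ℝ → ℝ) (η : ℝ) : Prop :=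
  Tendsto (fun x => R x / x) (𝓝[>] (0 : ℝ)) (𝓝 η)

/-- `Φ` is a local analytic coordinate system at the origin. -/
def IsChart (Φ : ℝ × ℝ → ℝ × ℝ) : Prop :=
  AnalyticAt ℝ Φ 0 ∧ Φ 0 = 0 ∧ Function.Bijective (fderiv ℝ Φ 0)

/-- `W` is the expression of the vector field `Z` in the coordinates `Φ`. -/
def IsExpression (Z Φ W : ℝ × ℝ → ℝ × ℝ) : Prop :=
  ∀ᶠ z in 𝓝 (0 : ℝ × ℝ), W (Φ z) = fderiv ℝ Φ z (Z z)

end Pool.Agent.Y305.MR
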