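import Mathlib

/-! Reparametrisation of a curve and a crossing lemma. -/

set_option autoImplicit false

open Set Filter Topology MeasureTheory intervalIntegral

noncomputable section

namespace Pool.Agent.Y305.MR

/-- A curve whose velocity is a positive multiple of a vector field can be reparametrised as a
trajectory on a compact interval. -/
theorem exists_reparam {E : Type*} [NormedAddCommGroup E] [NormedSpace ℝ E] {c V : ℝ → E}
    {m : ℝ → ℝ} {a b : ℝ} (hab : a ≤ b) (hm : Continuous m) (hpos : ∀ θ, 0 < m θ)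
    (hc : ∀ θ ∈ Icc a b, HasDerivAt c (m θ • V θ) θ) :
    ∃ T : ℝ ≃o ℝ, T a = 0 ∧ ∀ θ ∈ Icc a b, HasDerivAt (fun t => c (T.symm t)) (V θ) (T θ) := by
  set n : ℝ → ℝ := fun θ => m (max a (min θ b)) with hn
  have hnc : Continuous n := hm.comp (by fun_prop)
  have hnm : ∀ θ ∈ Icc a b, n θ = m θ := by
    intro θ hθ
    simp only [hn]
    rw [min_eq_left hθ.2, max_eq_right hθ.1]
  have hnpos : ∀ θ, 0 < n θ := fun θ => hpos _
  obtain ⟨θm, hθm, hmin⟩ := (isCompact_Icc (a := a) (b := b)).exists_isMinOn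
    (nonempty_Icc.2 hab) hm.continuousOn
  have hlow : ∀ θ, m θm ≤ n θ := by
    intro θ
    exact hmin (⟨le_max_left _ _, max_le hab (min_le_right _ _)⟩ : max a (min θ b) ∈ Icc a b)
  set T₀ : ℝ → ℝ := fun θ => ∫ u in a..θ, n u with hT₀
  have hT' : ∀ θ, HasDerivAt T₀ (n θ) θ := fun θ =>
    integral_hasDerivAt_right (hnc.intervalIntegrable _ _)
      hnc.stronglyMeasurable.stronglyMeasurableAtFilter hnc.continuousAt
  have hmono : StrictMono T₀ := by
    apply strictMono_of_deriv_pos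
    intro θ
    rw [(hT' θ).deriv]
    exact hnpos θ
  have hgrow : ∀ x y, x ≤ y → m θm * (y - x) ≤ T₀ y - T₀ x := by
    intro x y hxy
    refine mul_sub_le_image_sub_of_le_deriv (fun θ => (hT' θ).differentiableAt) (fun θ => ?_) hxy
    rw [(hT' θ).deriv]
    exact hlow θ
  have hTc : Continuous T₀ := by
    rw [continuous_iff_continuousAt]
    exact fun θ => (hT' θ).continuousAt
  have hm0 : 0 < m θm := hpos _
  have hsurj : Function.Surjective T₀ := by
    refine hTc.surjective ?_ ?_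
    · refine tendsto_atTop_mono' atTop (f₁ := fun s => m θm * s + T₀ 0) ?_ ?_
      · filter_upwards [eventually_ge_atTop 0] with s hs
        have := hgrow 0 s hs
        linarith
      · exact tendsto_atTop_add_const_right _ _ (tendsto_id.const_mul_atTop hm0)
    · refine tendsto_atBot_mono' atBot (f₁ := fun s => m θm * s + T₀ 0) ?_ ?_
      · filter_upwards [eventually_le_atBot 0] with s hs
        have := hgrow s 0 hs
        linarith
      · exact tendsto_atBot_add_const_right _ _ (tendsto_id.const_mul_atBot hm0)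
  refine ⟨hmono.orderIsoOfSurjective T₀ hsurj, ?_, ?_⟩
  · simp [hT₀]
  · intro θ hθ
    set T := hmono.orderIsoOfSurjective T₀ hsurj with hT
    have hTT : ∀ u, T u = T₀ u := fun u => rfl
    have h1 : HasDerivAt (fun t => T.symm t) (n θ)⁻¹ (T θ) := by
      refine HasDerivAt.of_local_left_inverse (f := T₀) T.symm.continuous.continuousAt ?_
        (hnpos θ).ne' (Eventually.of_forall fun y => ?_)
      · rw [T.symm_apply_apply]
        exact hT' θ
      · rw [← hTT, T.apply_symm_apply]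
    have h2 : HasDerivAt c (m θ • V θ) (T.symm (T θ)) := by
      rw [T.symm_apply_apply]
      exact hc θ hθ
    have h3 := h2.scomp (T θ) h1
    refine h3.congr_deriv ?_
    rw [smul_smul, hnm θ hθ, inv_mul_cancel₀ (hpos θ).ne', one_smul]

theorem abs_sin_le_half {φ : ℝ} (h1 : -(Real.pi / 6) ≤ φ) (h2 : φ ≤ Real.pi / 6) :
    |Real.sin φ| ≤ 1 / 2 := by
  have hp := Real.pi_pos
  rw [abs_le, ← Real.sin_pi_div_six, ← Real.sin_neg]
  constructor
  · exact Real.sin_le_sin_of_le_of_le_pi_div_two (by linarith) (by linarith) h1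
  · exact Real.sin_le_sin_of_le_of_le_pi_div_two (by linarith) (by linarith) h2

theorem half_le_sin {φ : ℝ} (h1 : Real.pi / 6 ≤ φ) (h2 : φ ≤ Real.pi - Real.pi / 6) :
    1 / 2 ≤ Real.sin φ := by
  have hp := Real.pi_pos
  rw [← Real.sin_pi_div_six]
  rcases le_total φ (Real.pi / 2) with h | h
  · exact Real.sin_le_sin_of_le_of_le_pi_div_two (by linarith) h h1
  · rw [← Real.sin_pi_sub φ]
    exact Real.sin_le_sin_of_le_of_le_pi_div_two (by linarith) (by linarith) (by linarith)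

theorem cross {q q' : ℝ → ℝ} {φ₀ : ℝ}
    (hq : ∀ φ ∈ Icc (-(Real.pi / 6)) (2 * Real.pi + Real.pi / 6), HasDerivAt q (q' φ) φ)
    (h1 : ∀ φ ∈ Icc (-(Real.pi / 6)) (2 * Real.pi + Real.pi / 6),
      1 / 2 ≤ |Real.sin φ| → 0 < q φ * Real.sin φ)
    (h2 : ∀ φ ∈ Icc (-(Real.pi / 6)) (2 * Real.pi + Real.pi / 6),
      |Real.sin φ| ≤ 1 / 2 → 0 < q' φ * Real.cos φ)
    (h0 : q φ₀ = 0) (hφ₀ : φ₀ ∈ Ioo (-(Real.pi / 6)) (Real.pi / 6)) :
    ∃ φ₁ ∈ Ioo (Real.pi - Real.pi / 6) (Real.pi + Real.pi / 6),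
    ∃ φ₂ ∈ Ioo (2 * Real.pi - Real.pi / 6) (2 * Real.pi + Real.pi / 6),
      q φ₁ = 0 ∧ q φ₂ = 0 ∧ (∀ φ ∈ Ioo φ₀ φ₁, 0 < q φ) ∧ ∀ φ ∈ Ioo φ₁ φ₂, q φ < 0 := by
  have hp := Real.pi_pos
  have hcont : ∀ a b, -(Real.pi / 6) ≤ a → b ≤ 2 * Real.pi + Real.pi / 6 →
      ContinuousOn q (Icc a b) := by
    intro a b ha hb φ hφ
    exact (hq φ ⟨ha.trans hφ.1, hφ.2.trans hb⟩).continuousAt.continuousWithinAt
  have m0 : StrictMonoOn q (Icc (-(Real.pi / 6)) (Real.pi / 6)) := by
    refine strictMonoOn_of_deriv_pos (convex_Icc _ _) (hcont _ _ le_rfl (by linarith)) ?_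
    intro φ hφ
    rw [interior_Icc] at hφ
    have hm : φ ∈ Icc (-(Real.pi / 6)) (2 * Real.pi + Real.pi / 6) :=
      ⟨hφ.1.le, by linarith [hφ.2]⟩
    rw [(hq φ hm).deriv]
    have h3 := h2 φ hm (abs_sin_le_half hφ.1.le hφ.2.le)
    have h4 : 0 < Real.cos φ := Real.cos_pos_of_mem_Ioo ⟨by linarith [hφ.1], by linarith [hφ.2]⟩
    exact (pos_iff_pos_of_mul_pos h3).2 h4
  have m1 : StrictAntiOn q (Icc (Real.pi - Real.pi / 6) (Real.pi + Real.pi / 6)) := by
    refine strictAntiOn_of_deriv_neg (convex_Icc _ _) (hcont _ _ (by linarith) (by linarith)) ?_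
    intro φ hφ
    rw [interior_Icc] at hφ
    have hm : φ ∈ Icc (-(Real.pi / 6)) (2 * Real.pi + Real.pi / 6) :=
      ⟨by linarith [hφ.1], by linarith [hφ.2]⟩
    rw [(hq φ hm).deriv]
    have h5 : |Real.sin φ| ≤ 1 / 2 := by
      rw [← Real.sin_pi_sub φ]
      exact abs_sin_le_half (by linarith [hφ.2]) (by linarith [hφ.1])
    have h3 := h2 φ hm h5
    have h4 : Real.cos φ < 0 := Real.cos_neg_of_pi_div_two_lt_of_lt
      (by linarith [hφ.1]) (by linarith [hφ.2])
    exact (neg_iff_neg_of_mul_pos h3).2 h4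
  have m2 : StrictMonoOn q (Icc (2 * Real.pi - Real.pi / 6) (2 * Real.pi + Real.pi / 6)) := by
    refine strictMonoOn_of_deriv_pos (convex_Icc _ _) (hcont _ _ (by linarith) le_rfl) ?_
    intro φ hφ
    rw [interior_Icc] at hφ
    have hm : φ ∈ Icc (-(Real.pi / 6)) (2 * Real.pi + Real.pi / 6) :=
      ⟨by linarith [hφ.1], by linarith [hφ.2]⟩
    rw [(hq φ hm).deriv]
    have h5 : |Real.sin φ| ≤ 1 / 2 := by
      rw [← Real.sin_sub_two_pi φ]
      exact abs_sin_le_half (by linarith [hφ.1]) (by linarith [hφ.2])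
    have h3 := h2 φ hm h5
    have h4 : 0 < Real.cos φ := by
      rw [← Real.cos_sub_two_pi φ]
      exact Real.cos_pos_of_mem_Ioo ⟨by linarith [hφ.1], by linarith [hφ.2]⟩
    exact (pos_iff_pos_of_mul_pos h3).2 h4
  -- signs away from the zeros
  have p1 : ∀ φ, Real.pi / 6 ≤ φ → φ ≤ Real.pi - Real.pi / 6 → 0 < q φ := by
    intro φ ha hb
    have h3 := half_le_sin ha hb
    have h4 := h1 φ ⟨by linarith, by linarith⟩ (h3.trans (le_abs_self _))
    exact (pos_iff_pos_of_mul_pos h4).2 (by linarith)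
  have p2 : ∀ φ, Real.pi + Real.pi / 6 ≤ φ → φ ≤ 2 * Real.pi - Real.pi / 6 → q φ < 0 := by
    intro φ ha hb
    have h3 := half_le_sin (φ := φ - Real.pi) (by linarith) (by linarith)
    rw [Real.sin_sub_pi] at h3
    have h4 := h1 φ ⟨by linarith, by linarith⟩ (h3.trans (neg_le_abs _))
    exact (neg_iff_neg_of_mul_pos h4).2 (by linarith)
  have p3 : 0 < q (2 * Real.pi + Real.pi / 6) := by
    have h3 : Real.sin (2 * Real.pi + Real.pi / 6) = 1 / 2 := by
      rw [add_comm, Real.sin_add_two_pi, Real.sin_pi_div_six]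
    have h4 := h1 (2 * Real.pi + Real.pi / 6) ⟨by linarith, le_rfl⟩
      (by rw [h3]; exact le_abs_self _)
    exact (pos_iff_pos_of_mul_pos h4).2 (by rw [h3]; norm_num)
  obtain ⟨φ₁, hφ₁, hz₁⟩ := intermediate_value_Icc' (f := q) (a := Real.pi - Real.pi / 6)
    (b := Real.pi + Real.pi / 6) (by linarith) (hcont _ _ (by linarith) (by linarith))
    ⟨(p2 _ le_rfl (by linarith)).le, (p1 _ (by linarith) le_rfl).le⟩
  obtain ⟨φ₂, hφ₂, hz₂⟩ := intermediate_value_Icc (f := q) (a := 2 * Real.pi - Real.pi / 6)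
    (b := 2 * Real.pi + Real.pi / 6) (by linarith) (hcont _ _ (by linarith) (by linarith))
    ⟨(p2 _ (by linarith) le_rfl).le, p3.le⟩
  have hφ₁' : φ₁ ∈ Ioo (Real.pi - Real.pi / 6) (Real.pi + Real.pi / 6) := by
    refine ⟨lt_of_le_of_ne hφ₁.1 ?_, lt_of_le_of_ne hφ₁.2 ?_⟩
    · intro h
      have := p1 φ₁ (by linarith) (by linarith)
      linarith
    · intro h
      have := p2 φ₁ (by linarith) (by linarith)
      linarith
  have hφ₂' : φ₂ ∈ Ioo (2 * Real.pi - Real.pi / 6) (2 * Real.pi + Real.pi / 6) := by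
    refine ⟨lt_of_le_of_ne hφ₂.1 ?_, lt_of_le_of_ne hφ₂.2 ?_⟩
    · intro h
      have := p2 φ₂ (by linarith) (by linarith)
      linarith
    · intro h
      rw [h] at hz₂
      linarith
  refine ⟨φ₁, hφ₁', φ₂, hφ₂', hz₁, hz₂, ?_, ?_⟩
  · intro φ hφ
    rcases le_total φ (Real.pi / 6) with h | h
    · have := m0 (a := φ₀) (b := φ) ⟨hφ₀.1.le, hφ₀.2.le⟩ ⟨by linarith [hφ₀.1, hφ.1], h⟩ hφ.1
      linarith
    · rcases le_total φ (Real.pi - Real.pi / 6) with h' | h'
      · exact p1 φ h h'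
      · have := m1 (a := φ) (b := φ₁) ⟨h', by linarith [hφ.2, hφ₁.2]⟩ hφ₁ hφ.2
        linarith
  · intro φ hφ
    rcases le_total φ (Real.pi + Real.pi / 6) with h | h
    · have := m1 (a := φ₁) (b := φ) hφ₁ ⟨by linarith [hφ₁.1, hφ.1], h⟩ hφ.1
      linarith
    · rcases le_total φ (2 * Real.pi - Real.pi / 6) with h' | h'
      · exact p2 φ h h'
      · have := m2 (a := φ) (b := φ₂) ⟨h', by linarith [hφ.2, hφ₂.2]⟩ hφ₂ hφ.2
        linarith

end Pool.Agent.Y305.MR
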