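import Pool.Agent.Y305.MR.Polar
import Pool.Agent.Y305.MR.Time
import Pool.Agent.Y305.MR.Defs

/-! Existence and asymptotics of the turns in a coordinate system. -/

set_option autoImplicit false

open Set Filter Topology

noncomputable section

namespace Pool.Agent.Y305.MR

/-- Asymptotics near the origin of the coordinates `P`, `Q` and of the derivative `R` of `Q` along
the vector field. -/
structure Asym (P Q R : ℝ × ℝ → ℝ) (θs μ : ℝ) : Prop where
  ex : ∃ (σ B n₁ n₂ A c : ℝ) (w : ℝ → ℝ), (σ = 1 ∨ σ = -1) ∧ 0 < B ∧ 0 < A ∧ 0 < c ∧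
    Tendsto (fun p => Real.exp (-(n₁ * p.1)) * Q p - σ * A * Real.sin (p.2 - θs)) lbot (𝓝 0) ∧
    Tendsto (fun p => Real.exp (-(n₂ * p.1)) * R p - w p.2) lbot (𝓝 0) ∧
    (∀ θ, |Real.sin (θ - θs)| ≤ 1 / 2 → c ≤ σ * w θ * Real.cos (θ - θs)) ∧
    Tendsto (fun p => Real.exp (-(μ * p.1)) * P p - B * Real.cos (p.2 - θs))
      (lbot ⊓ 𝓟 {p | Q p = 0}) (𝓝 0)
  base : ∃ n : ℤ, (2 * Real.pi * n - 3 * Real.pi / 2 < θs ∧ θs < 2 * Real.pi * n + Real.pi / 2 ∧
        0 < hh θs) ∨ (2 * Real.pi * n - Real.pi / 2 < θs ∧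
        θs < 2 * Real.pi * n + 3 * Real.pi / 2 ∧ hh θs < 0)

theorem Asym.signs {P Q R : ℝ × ℝ → ℝ} {θs μ : ℝ} (h : Asym P Q R θs μ) :
    ∃ σ : ℝ, (σ = 1 ∨ σ = -1) ∧ ∃ s₁, ∀ s ≤ s₁, ∀ θ,
      (1 / 2 ≤ |Real.sin (θ - θs)| → 0 < σ * Q (s, θ) * Real.sin (θ - θs)) ∧
      (|Real.sin (θ - θs)| ≤ 1 / 2 → 0 < σ * R (s, θ) * Real.cos (θ - θs)) ∧
      (Q (s, θ) = 0 → |Real.sin (θ - θs)| < 1 / 2 ∧ 0 < P (s, θ) * Real.cos (θ - θs)) := by
  obtain ⟨σ, B, n₁, n₂, A, c, w, hσ, hB, hA, hc, h1, h2, h3, h4⟩ := h.ex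
  have hσ2 : σ * σ = 1 := by rcases hσ with h | h <;> rw [h] <;> norm_num
  have hσa : |σ| = 1 := by rcases hσ with h | h <;> rw [h] <;> norm_num
  have e1 := (tendsto_order.1 (tendsto_zero_iff_norm_tendsto_zero.1 h1)).2 (A / 4) (by positivity)
  have e2 := (tendsto_order.1 (tendsto_zero_iff_norm_tendsto_zero.1 h2)).2 (c / 2) (by positivity)
  have e4 := (tendsto_order.1 (tendsto_zero_iff_norm_tendsto_zero.1 h4)).2 (B / 2) (by positivity)
  rw [eventually_inf_principal] at e4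
  obtain ⟨s₁, hs₁⟩ := eventually_lbot.1 (e1.and (e2.and e4))
  refine ⟨σ, hσ, s₁, fun s hs θ => ?_⟩
  obtain ⟨g1, g2, g4⟩ := hs₁ s hs θ
  simp only [Real.norm_eq_abs, mem_ofPred_eq] at g1 g2 g4
  have k1 := Real.exp_pos (-(n₁ * s))
  have k2 := Real.exp_pos (-(n₂ * s))
  have k4 := Real.exp_pos (-(μ * s))
  have hcos := Real.abs_cos_le_one (θ - θs)
  have hsin := Real.abs_sin_le_one (θ - θs)
  have hsc := Real.sin_sq_add_cos_sq (θ - θs)
  refine ⟨?_, ?_, ?_⟩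
  · intro hu
    have q1 : 0 < Real.exp (-(n₁ * s)) * (σ * Q (s, θ) * Real.sin (θ - θs)) := by
      set u := Real.sin (θ - θs) with hud
      set err := Real.exp (-(n₁ * s)) * Q (s, θ) - σ * A * u with herr
      have e : Real.exp (-(n₁ * s)) * (σ * Q (s, θ) * u) = A * u ^ 2 + σ * err * u := by
        rw [herr]
        linear_combination (A * u ^ 2) * hσ2
      rw [e]
      have : |σ * err * u| = |err| * |u| := by rw [abs_mul, abs_mul, hσa, one_mul]
      have h5 := neg_abs_le (σ * err * u)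
      rw [this] at h5
      have h6 : u ^ 2 = |u| * |u| := by rw [← sq, sq_abs]
      rw [h6]
      have h7 : 0 < |u| * (A * |u| - |err|) := by
        refine mul_pos (by linarith) ?_
        nlinarith
      nlinarith
    exact (pos_iff_pos_of_mul_pos q1).1 k1
  · intro hu
    have q1 : 0 < Real.exp (-(n₂ * s)) * (σ * R (s, θ) * Real.cos (θ - θs)) := by
      have h7 := h3 θ hu
      set u := Real.cos (θ - θs) with hud
      set err := Real.exp (-(n₂ * s)) * R (s, θ) - w θ with herr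
      have e : Real.exp (-(n₂ * s)) * (σ * R (s, θ) * u) = σ * w θ * u + σ * err * u := by
        rw [herr]
        ring
      rw [e]
      have : |σ * err * u| = |err| * |u| := by rw [abs_mul, abs_mul, hσa, one_mul]
      have h5 := neg_abs_le (σ * err * u)
      rw [this] at h5
      nlinarith [abs_nonneg err, abs_nonneg u]
    exact (pos_iff_pos_of_mul_pos q1).1 k2
  · intro hQ
    have g4' := g4 hQ
    rw [hQ, mul_zero, zero_sub, abs_neg, abs_mul, abs_mul, hσa, one_mul, abs_of_pos hA] at g1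
    have hu : |Real.sin (θ - θs)| < 1 / 4 := by
      by_contra hcon
      push Not at hcon
      nlinarith
    refine ⟨by linarith, ?_⟩
    have q1 : 0 < Real.exp (-(μ * s)) * (P (s, θ) * Real.cos (θ - θs)) := by
      set u := Real.cos (θ - θs) with hud
      set err := Real.exp (-(μ * s)) * P (s, θ) - B * u with herr
      have e : Real.exp (-(μ * s)) * (P (s, θ) * u) = B * u ^ 2 + err * u := by
        rw [herr]
        ring
      rw [e]
      have : |err * u| = |err| * |u| := by rw [abs_mul]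
      have h5 := neg_abs_le (err * u)
      rw [this] at h5
      have h6 : 15 / 16 ≤ u ^ 2 := by
        have := sq_abs (Real.sin (θ - θs))
        nlinarith [abs_nonneg (Real.sin (θ - θs))]
      nlinarith [abs_nonneg err, abs_nonneg u]
    exact (pos_iff_pos_of_mul_pos q1).1 k4

theorem Asym.ratio {P Q R : ℝ × ℝ → ℝ} {θs μ : ℝ} (h : Asym P Q R θs μ) {ε : ℝ} (hε : 0 < ε) :
    ∃ s₁, ∀ s ≤ s₁, ∀ s' ≤ s₁, ∀ θ ∈ Icc (θs - Real.pi / 6) (θs + Real.pi / 6),
      ∀ θ' ∈ Icc (θs - Real.pi / 6) (θs + Real.pi / 6), Q (s, θ) = 0 → Q (s', θ') = 0 →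
      MM (s', θ') = MM (s, θ) + 2 * Real.pi →
      |P (s', θ') / P (s, θ) - Real.exp (μ * (Real.pi / 3))| < ε := by
  obtain ⟨σ, B, n₁, n₂, A, c, w, hσ, hB, hA, hc, h1, h2, h3, h4⟩ := h.ex
  obtain ⟨n, hn⟩ := h.base
  have hpi := Real.pi_pos
  have hσ2 : σ * σ = 1 := by rcases hσ with h | h <;> rw [h] <;> norm_num
  set S : Set (ℝ × ℝ) := {p | Q p = 0} with hS
  set I : Set (ℝ × ℝ) := {p | p.2 ∈ Icc (θs - Real.pi / 6) (θs + Real.pi / 6)} with hI
  set l : Filter (ℝ × ℝ) := (lbot ⊓ 𝓟 S) ⊓ 𝓟 I with hl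
  have hl1 : l ≤ lbot := inf_le_left.trans inf_le_left
  have hlS : ∀ᶠ p in l, Q p = 0 := by
    rw [hl, eventually_inf_principal, eventually_inf_principal]
    exact Eventually.of_forall fun p hp _ => hp
  have hlI : ∀ᶠ p in l, p ∈ I := by
    rw [hl, eventually_inf_principal]
    exact Eventually.of_forall fun p hp => hp
  have hsin : Tendsto (fun p : ℝ × ℝ => Real.sin (p.2 - θs)) l (𝓝 0) := by
    have h5 := (h1.mono_left hl1).const_mul (-σ / A)
    rw [mul_zero] at h5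
    refine h5.congr' ?_
    filter_upwards [hlS] with p hp
    rw [hp, mul_zero, zero_sub]
    field_simp
    linear_combination Real.sin (p.2 - θs) * hσ2
  have hsnd : Tendsto Prod.snd l (𝓝 θs) := by
    have h5 := ((Real.continuous_arcsin.tendsto 0).comp hsin).add_const θs
    rw [Real.arcsin_zero, zero_add] at h5
    refine h5.congr' ?_
    filter_upwards [hlI] with p hp
    have hp' : p.2 ∈ Icc (θs - Real.pi / 6) (θs + Real.pi / 6) := hp
    simp only [Function.comp_apply]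
    rw [Real.arcsin_sin (by linarith [hp'.1]) (by linarith [hp'.2])]
    ring
  obtain ⟨κ, hκ⟩ := tendsto_MM (tendsto_fst_lbot.mono_left hl1) hsnd hn
  have hf1 : Tendsto (fun p : ℝ × ℝ => Real.exp (-(μ * p.1)) * P p) l (𝓝 B) := by
    have h5 : Tendsto (fun p : ℝ × ℝ => B * Real.cos (p.2 - θs)) l (𝓝 B) := by
      have h6 : Tendsto (fun p : ℝ × ℝ => p.2 - θs) l (𝓝 0) := by
        have := hsnd.sub_const θs
        rwa [sub_self] at this
      have h7 := ((Real.continuous_cos.tendsto 0).comp h6).const_mul B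
      rwa [Real.cos_zero, mul_one] at h7
    have h6 := (h4.mono_left (inf_le_left : l ≤ lbot ⊓ 𝓟 S)).add h5
    rw [zero_add] at h6
    refine h6.congr fun p => ?_
    ring
  have hG : Tendsto (fun z : (ℝ × ℝ) × (ℝ × ℝ) =>
      Real.exp (μ / 6 * (2 * Real.pi - (MM z.2 - 6 * z.2.1) + (MM z.1 - 6 * z.1.1))) *
        ((Real.exp (-(μ * z.2.1)) * P z.2) / (Real.exp (-(μ * z.1.1)) * P z.1))) (l ×ˢ l)
      (𝓝 (Real.exp (μ * (Real.pi / 3)))) := by
    have a1 := hf1.comp (tendsto_snd (f := l) (g := l))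
    have a2 := hf1.comp (tendsto_fst (f := l) (g := l))
    have a3 := hκ.comp (tendsto_snd (f := l) (g := l))
    have a4 := hκ.comp (tendsto_fst (f := l) (g := l))
    have a5 := (Real.continuous_exp.tendsto _).comp
      (((a3.const_sub (2 * Real.pi)).add a4).const_mul (μ / 6))
    have a6 := a5.mul (a1.div a2 hB.ne')
    rw [div_self hB.ne', mul_one] at a6
    have e : μ / 6 * (2 * Real.pi - κ + κ) = μ * (Real.pi / 3) := by ring
    rw [e] at a6
    exact a6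
  have hev := (tendsto_order.1 ((tendsto_iff_norm_sub_tendsto_zero.1 hG))).2 ε hε
  obtain ⟨t, ht, hev⟩ := mem_prod_self_iff.1 hev
  rw [hl, mem_inf_principal, mem_inf_principal] at ht
  obtain ⟨s₁, hs₁⟩ := eventually_lbot.1 ht
  refine ⟨s₁, fun s hs s' hs' θ hθ θ' hθ' hQ hQ' hMM => ?_⟩
  have m1 : (s, θ) ∈ t := hs₁ s hs θ hQ hθ
  have m2 : (s', θ') ∈ t := hs₁ s' hs' θ' hQ' hθ'
  have h5 := hev (mk_mem_prod m1 m2)
  simp only [mem_ofPred_eq, Real.norm_eq_abs] at h5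
  have e : Real.exp (μ / 6 * (2 * Real.pi - (MM (s', θ') - 6 * s') + (MM (s, θ) - 6 * s))) *
      ((Real.exp (-(μ * s')) * P (s', θ')) / (Real.exp (-(μ * s)) * P (s, θ))) =
      P (s', θ') / P (s, θ) := by
    rw [hMM]
    have e1 : μ / 6 * (2 * Real.pi - (MM (s, θ) + 2 * Real.pi - 6 * s') + (MM (s, θ) - 6 * s)) =
        μ * s' - μ * s := by ring
    rw [e1, Real.exp_sub, Real.exp_neg, Real.exp_neg]
    have k1 := (Real.exp_pos (μ * s')).ne'
    have k2 := (Real.exp_pos (μ * s)).ne'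
    field_simp
  rwa [e] at h5

theorem pol_per (s θ : ℝ) (k : ℤ) : pol (s, θ + k • (2 * Real.pi)) = pol (s, θ) := by
  rw [pol, pol]
  simp only [zsmul_eq_mul]
  rw [Real.cos_add_int_mul_two_pi, Real.sin_add_int_mul_two_pi]

theorem continuous_hh : Continuous hh := by unfold hh; fun_prop
theorem continuous_kk : Continuous kk := by unfold kk; fun_prop

theorem continuous_SS (C : ℝ) : Continuous (SS C) := by
  rw [continuous_iff_continuousAt]
  exact fun θ => (hasDerivAt_SS C θ).continuousAt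

theorem continuous_mm (C : ℝ) : Continuous fun θ => mm (SS C θ) θ := by
  have h1 := continuous_hh
  have h2 := continuous_kk
  have h3 := continuous_SS C
  unfold mm NN KK
  refine Continuous.div (by fun_prop) (by fun_prop) fun θ => ?_
  have := NN_pos (SS C θ) θ
  unfold NN KK at this
  positivity

theorem turn {Φ W : ℝ × ℝ → ℝ × ℝ} {μ θs : ℝ} (hd : ∀ᶠ z in 𝓝 0, DifferentiableAt ℝ Φ z)
    (hc : Tendsto Φ (𝓝 0) (𝓝 0)) (hΦ0 : Φ 0 = 0) (hopen : 𝓝 0 ≤ map Φ (𝓝 0))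
    (hW : IsExpression ZZ Φ W)
    (hA : Asym (fun p => (Φ (pol p)).1) (fun p => (Φ (pol p)).2) (fun p => (W (Φ (pol p))).2) θs μ)
    {U : Set (ℝ × ℝ)} (hU : U ∈ 𝓝 (0 : ℝ × ℝ)) {ε : ℝ} (hε : 0 < ε) :
    ∀ᶠ x in 𝓝[>] (0 : ℝ), ∃ x', MakesTurn W U x x' ∧
      |x' / x - Real.exp (μ * (Real.pi / 3))| < ε := by
  have hpi := Real.pi_pos
  obtain ⟨σ, hσ, s₁, hs₁⟩ := hA.signs
  obtain ⟨sr, hsr⟩ := hA.ratio hε
  have hgood : ∀ᶠ z in 𝓝 (0 : ℝ × ℝ), DifferentiableAt ℝ Φ z ∧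
      W (Φ z) = fderiv ℝ Φ z (ZZ z) ∧ Φ z ∈ U := hd.and (hW.and (hc hU))
  obtain ⟨sg, hsg⟩ := eventually_lbot.1 (tendsto_pol.eventually hgood)
  set s₂ := min s₁ (min sr sg) with hs₂
  obtain ⟨s₃, hs₃, hSS⟩ := SS_small s₂ (θs - Real.pi / 6) (θs + (2 * Real.pi + Real.pi / 6))
    (by linarith)
  have hV := exists_pol s₃
  have himg : ∀ᶠ y in 𝓝 (0 : ℝ × ℝ), y ∈ Φ '' {z | z ≠ 0 → ∃ s θ, s ≤ s₃ ∧ pol (s, θ) = z} :=
    hopen (image_mem_map hV)
  have htx : Tendsto (fun x : ℝ => ((x, 0) : ℝ × ℝ)) (𝓝[>] 0) (𝓝 0) := by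
    have : Continuous fun x : ℝ => ((x, 0) : ℝ × ℝ) := by fun_prop
    exact (this.tendsto 0).mono_left nhdsWithin_le_nhds
  filter_upwards [htx.eventually himg, self_mem_nhdsWithin] with x hx hx0
  have hx0' : 0 < x := hx0
  obtain ⟨z, hz, hΦz⟩ := hx
  have hz0 : z ≠ 0 := by
    rintro rfl
    rw [hΦ0] at hΦz
    have := congrArg Prod.fst hΦz
    simp only [Prod.fst_zero] at this
    linarith
  obtain ⟨s₀, θ₀', hs₀, hpol⟩ := hz hz0
  obtain ⟨k, hk, -⟩ := existsUnique_add_zsmul_mem_Ico (a := 2 * Real.pi) (by positivity) θ₀'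
    (θs - Real.pi)
  set θ₀ := θ₀' + k • (2 * Real.pi) with hθ₀
  have hpol0 : pol (s₀, θ₀) = z := by rw [hθ₀, pol_per, hpol]
  have hs₀₂ : s₀ ≤ s₂ := hs₀.trans hs₃
  have hsg0 := hs₁ s₀ (hs₀₂.trans (min_le_left _ _)) θ₀
  simp only [hpol0, hΦz] at hsg0
  obtain ⟨hu0, hP0⟩ := hsg0.2.2 trivial
  have hcos0 : 0 < Real.cos (θ₀ - θs) := (pos_iff_pos_of_mul_pos hP0).1 hx0'
  -- the initial angle
  have hφ₀ : θ₀ - θs ∈ Ioo (-(Real.pi / 6)) (Real.pi / 6) := by
    set φ := θ₀ - θs with hφ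
    have hb1 : -Real.pi ≤ φ := by rw [hφ]; linarith [hk.1]
    have hb2 : φ < Real.pi := by rw [hφ]; linarith [hk.2]
    have habs := abs_lt.1 hu0
    constructor
    · by_contra hcon
      push Not at hcon
      rcases le_total (-(Real.pi - Real.pi / 6)) φ with h | h
      · have := half_le_sin (φ := -φ) (by linarith) (by linarith)
        rw [Real.sin_neg] at this
        linarith
      · have := Real.cos_neg_of_pi_div_two_lt_of_lt (x := -φ) (by linarith) (by linarith)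
        rw [Real.cos_neg] at this
        linarith
    · by_contra hcon
      push Not at hcon
      rcases le_total φ (Real.pi - Real.pi / 6) with h | h
      · have := half_le_sin (φ := φ) hcon h
        linarith
      · have := Real.cos_neg_of_pi_div_two_lt_of_lt (x := φ) (by linarith) (by linarith)
        linarith
  set C := MM (s₀, θ₀) with hC
  have hθ₀I : θ₀ ∈ Icc (θs - Real.pi / 6) (θs + (2 * Real.pi + Real.pi / 6)) :=
    ⟨by linarith [hφ₀.1], by linarith [hφ₀.2]⟩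
  have hS₀ : SS C θ₀ = s₀ := SS_eq rfl
  have hSle : ∀ φ ∈ Icc (-(Real.pi / 6)) (2 * Real.pi + Real.pi / 6), SS C (θs + φ) ≤ s₂ := by
    intro φ hφ
    exact hSS s₀ hs₀ θ₀ hθ₀I _ ⟨by linarith [hφ.1], by linarith [hφ.2]⟩
  set Γ : ℝ → ℝ × ℝ := fun φ => Φ (cc C (θs + φ)) with hΓ
  have hgd : ∀ φ ∈ Icc (-(Real.pi / 6)) (2 * Real.pi + Real.pi / 6),
      DifferentiableAt ℝ Φ (cc C (θs + φ)) ∧
      W (Γ φ) = fderiv ℝ Φ (cc C (θs + φ)) (ZZ (cc C (θs + φ))) ∧ Γ φ ∈ U := by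
    intro φ hφ
    exact hsg _ ((hSle φ hφ).trans ((min_le_right _ _).trans (min_le_right _ _))) _
  have hΓ' : ∀ φ ∈ Icc (-(Real.pi / 6)) (2 * Real.pi + Real.pi / 6),
      HasDerivAt Γ (mm (SS C (θs + φ)) (θs + φ) • W (Γ φ)) φ := by
    intro φ hφ
    obtain ⟨g1, g2, -⟩ := hgd φ hφ
    have h1 : HasDerivAt (fun φ => θs + φ) 1 φ := (hasDerivAt_id φ).const_add θs
    have h2 := (hasDerivAt_cc C (θs + φ)).scomp φ h1
    have h3 := g1.hasFDerivAt.comp_hasDerivAt φ h2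
    refine h3.congr_deriv ?_
    rw [one_smul, map_smul, g2]
  set q : ℝ → ℝ := fun φ => σ * (Γ φ).2 with hq
  set q' : ℝ → ℝ := fun φ => σ * (mm (SS C (θs + φ)) (θs + φ) * (W (Γ φ)).2) with hq'
  have hqd : ∀ φ ∈ Icc (-(Real.pi / 6)) (2 * Real.pi + Real.pi / 6),
      HasDerivAt q (q' φ) φ := by
    intro φ hφ
    have h1 := hasFDerivAt_snd.comp_hasDerivAt φ (hΓ' φ hφ)
    exact h1.const_mul σ
  have hsgn : ∀ φ ∈ Icc (-(Real.pi / 6)) (2 * Real.pi + Real.pi / 6), _ := fun φ hφ =>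
    hs₁ _ ((hSle φ hφ).trans (min_le_left _ _)) (θs + φ)
  obtain ⟨φ₁, hφ₁, φ₂, hφ₂, hz₁, hz₂, hpos, hneg⟩ := cross (q := q) (q' := q')
    (φ₀ := θ₀ - θs) hqd
    (by
      intro φ hφ hu
      have h1 := (hsgn φ hφ).1
      rw [add_sub_cancel_left] at h1
      exact h1 hu)
    (by
      intro φ hφ hu
      have h1 := (hsgn φ hφ).2.1
      rw [add_sub_cancel_left] at h1
      have h2 := mul_pos (mm_pos (SS C (θs + φ)) (θs + φ)) (h1 hu)
      calc (0 : ℝ) < _ := h2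
        _ = _ := by simp only [hq', hΓ, cc]; ring)
    (by
      simp only [hq, hΓ]
      rw [add_sub_cancel, cc, hS₀, hpol0, hΦz, mul_zero])
    hφ₀
  have hσ0 : σ ≠ 0 := by rcases hσ with h | h <;> rw [h] <;> norm_num
  have hI₁ : φ₁ ∈ Icc (-(Real.pi / 6)) (2 * Real.pi + Real.pi / 6) :=
    ⟨by linarith [hφ₁.1], by linarith [hφ₁.2]⟩
  have hI₂ : φ₂ ∈ Icc (-(Real.pi / 6)) (2 * Real.pi + Real.pi / 6) :=
    ⟨by linarith [hφ₂.1], by linarith [hφ₂.2]⟩
  have hY₁ : (Γ φ₁).2 = 0 := by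
    rcases mul_eq_zero.1 hz₁ with h | h
    · exact absurd h hσ0
    · exact h
  have hY₂ : (Γ φ₂).2 = 0 := by
    rcases mul_eq_zero.1 hz₂ with h | h
    · exact absurd h hσ0
    · exact h
  have hX₁ : (Γ φ₁).1 < 0 := by
    have h1 := ((hsgn φ₁ hI₁).2.2 hY₁).2
    rw [add_sub_cancel_left] at h1
    have h2 : Real.cos φ₁ < 0 := Real.cos_neg_of_pi_div_two_lt_of_lt
      (by linarith [hφ₁.1]) (by linarith [hφ₁.2])
    exact (neg_iff_neg_of_mul_pos h1).2 h2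
  have hX₂ : 0 < (Γ φ₂).1 := by
    have h1 := ((hsgn φ₂ hI₂).2.2 hY₂).2
    rw [add_sub_cancel_left] at h1
    have h2 : 0 < Real.cos φ₂ := by
      rw [← Real.cos_sub_two_pi]
      exact Real.cos_pos_of_mem_Ioo ⟨by linarith [hφ₂.1], by linarith [hφ₂.2]⟩
    exact (pos_iff_pos_of_mul_pos h1).2 h2
  have h01 : θ₀ - θs < φ₁ := by linarith [hφ₀.2, hφ₁.1]
  have h12 : φ₁ < φ₂ := by linarith [hφ₁.2, hφ₂.1]
  have hΓ0 : Γ (θ₀ - θs) = (x, 0) := by
    simp only [hΓ]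
    rw [add_sub_cancel, cc, hS₀, hpol0, hΦz]
  obtain ⟨T, hT0, hT⟩ := exists_reparam (c := Γ) (V := fun φ => W (Γ φ))
    (m := fun φ => mm (SS C (θs + φ)) (θs + φ)) (a := θ₀ - θs) (b := φ₂) (h01.trans h12).le
    ((continuous_mm C).comp (by fun_prop)) (fun φ => mm_pos _ _)
    (fun φ hφ => hΓ' φ ⟨by linarith [hφ.1, hφ₀.1], hφ.2.trans hI₂.2⟩)
  refine ⟨(Γ φ₂).1, ⟨fun t => Γ (T.symm t), T φ₁, T φ₂, σ, ?_, ?_, hσ, ?_, ?_, hx0', ?_, ?_, ?_, ?_,
    ?_, hX₂⟩, ?_⟩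
  · rw [← hT0]; exact T.lt_iff_lt.2 h01
  · exact T.lt_iff_lt.2 h12
  · intro t ht
    have hm : T.symm t ∈ Icc (θ₀ - θs) φ₂ := by
      constructor
      · rw [← T.le_iff_le, hT0, T.apply_symm_apply]; exact ht.1
      · rw [← T.le_iff_le, T.apply_symm_apply]; exact ht.2
    refine ⟨(hgd _ ⟨by linarith [hm.1, hφ₀.1], hm.2.trans hI₂.2⟩).2.2, ?_⟩
    have := hT _ hm
    rwa [T.apply_symm_apply] at this
  · show Γ (T.symm 0) = (x, 0)
    have hT0' : T.symm 0 = θ₀ - θs := by rw [← hT0, T.symm_apply_apply]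
    rw [hT0', hΓ0]
  · intro t ht
    have hm : T.symm t ∈ Ioo (θ₀ - θs) φ₁ := by
      constructor
      · rw [← T.lt_iff_lt, hT0, T.apply_symm_apply]; exact ht.1
      · rw [← T.lt_iff_lt, T.apply_symm_apply]; exact ht.2
    exact hpos _ hm
  · show (Γ (T.symm (T φ₁))).1 < 0
    rw [T.symm_apply_apply]; exact hX₁
  · show (Γ (T.symm (T φ₁))).2 = 0
    rw [T.symm_apply_apply]; exact hY₁
  · intro t ht
    have hm : T.symm t ∈ Ioo φ₁ φ₂ := by
      constructor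
      · rw [← T.lt_iff_lt, T.apply_symm_apply]; exact ht.1
      · rw [← T.lt_iff_lt, T.apply_symm_apply]; exact ht.2
    exact hneg _ hm
  · show Γ (T.symm (T φ₂)) = ((Γ φ₂).1, 0)
    rw [T.symm_apply_apply]
    exact Prod.ext rfl hY₂
  · have hper : pol (SS C (θs + φ₂), θs + (φ₂ - 2 * Real.pi)) = cc C (θs + φ₂) := by
      have := pol_per (SS C (θs + φ₂)) (θs + (φ₂ - 2 * Real.pi)) 1
      rw [one_zsmul] at this
      rw [cc, ← this]
      congr 2
      ring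
    have h1 := hsr s₀ (hs₀₂.trans ((min_le_right _ _).trans (min_le_left _ _)))
      (SS C (θs + φ₂)) ((hSle φ₂ hI₂).trans ((min_le_right _ _).trans (min_le_left _ _)))
      θ₀ ⟨by linarith [hφ₀.1], by linarith [hφ₀.2]⟩
      (θs + (φ₂ - 2 * Real.pi)) ⟨by linarith [hφ₂.1], by linarith [hφ₂.2]⟩
      (by simp only [hpol0, hΦz]) (by simp only [hper]; exact hY₂)
      (by
        have h2 := MM_per (SS C (θs + φ₂)) (θs + (φ₂ - 2 * Real.pi))
        have h3 : θs + (φ₂ - 2 * Real.pi) + 2 * Real.pi = θs + φ₂ := by ring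
        rw [h3, MM_SS] at h2
        rw [← hC]
        linarith)
    simp only [hper, hpol0, hΦz] at h1
    exact h1

end Pool.Agent.Y305.MR
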