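import Pool.Agent.Y305.MR.Defs

/-! The return map is determined by the vector field. -/

set_option autoImplicit false

open Set Filter Topology

noncomputable section

namespace Pool.Agent.Y305.MR

theorem MakesTurn.unique_aux {W : ℝ × ℝ → ℝ × ℝ} {U : Set (ℝ × ℝ)} {K : NNReal}
    (hK : LipschitzOnWith K W U) {x x' x'' : ℝ} {γ γ' : ℝ → ℝ × ℝ} {t₁ t₂ σ t₁' t₂' σ' : ℝ}
    (h : 0 < t₁ ∧ t₁ < t₂ ∧ (σ = 1 ∨ σ = -1) ∧
      (∀ t ∈ Icc 0 t₂, γ t ∈ U ∧ HasDerivAt γ (W (γ t)) t) ∧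
      γ 0 = (x, 0) ∧ 0 < x ∧ (∀ t ∈ Ioo 0 t₁, 0 < σ * (γ t).2) ∧
      (γ t₁).1 < 0 ∧ (γ t₁).2 = 0 ∧ (∀ t ∈ Ioo t₁ t₂, σ * (γ t).2 < 0) ∧
      γ t₂ = (x', 0) ∧ 0 < x')
    (h' : 0 < t₁' ∧ t₁' < t₂' ∧ (σ' = 1 ∨ σ' = -1) ∧
      (∀ t ∈ Icc 0 t₂', γ' t ∈ U ∧ HasDerivAt γ' (W (γ' t)) t) ∧
      γ' 0 = (x, 0) ∧ 0 < x ∧ (∀ t ∈ Ioo 0 t₁', 0 < σ' * (γ' t).2) ∧
      (γ' t₁').1 < 0 ∧ (γ' t₁').2 = 0 ∧ (∀ t ∈ Ioo t₁' t₂', σ' * (γ' t).2 < 0) ∧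
      γ' t₂' = (x'', 0) ∧ 0 < x'') (hle : t₂ ≤ t₂') : x' = x'' := by
  obtain ⟨h1, h2, -, h4, h5, -, -, h8, h9, -, h11, -⟩ := h
  obtain ⟨g1, g2, -, g4, g5, -, g7, -, g9, g10, g11, -⟩ := h'
  have hEq : EqOn γ γ' (Icc 0 t₂) := by
    refine ODE_solution_unique_of_mem_Icc_right (v := fun _ => W) (s := fun _ => U)
      (K := K) (fun _ _ => hK) ?_ ?_ ?_ ?_ ?_ ?_ (h5.trans g5.symm)
    · intro t ht
      exact (h4 t ht).2.continuousAt.continuousWithinAt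
    · intro t ht
      exact (h4 t ⟨ht.1, ht.2.le⟩).2.hasDerivWithinAt
    · intro t ht
      exact (h4 t ⟨ht.1, ht.2.le⟩).1
    · intro t ht
      exact (g4 t ⟨ht.1, ht.2.trans hle⟩).2.continuousAt.continuousWithinAt
    · intro t ht
      exact (g4 t ⟨ht.1, ht.2.le.trans hle⟩).2.hasDerivWithinAt
    · intro t ht
      exact (g4 t ⟨ht.1, ht.2.le.trans hle⟩).1
  have e1 := hEq (⟨h1.le, h2.le⟩ : t₁ ∈ Icc 0 t₂)
  have e2 := hEq (⟨(h1.trans h2).le, le_rfl⟩ : t₂ ∈ Icc 0 t₂)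
  have k1 : t₁ = t₁' := by
    rcases lt_trichotomy t₁ t₁' with h | h | h
    · have := g7 t₁ ⟨h1, h⟩
      rw [← e1, h9, mul_zero] at this
      exact absurd this (lt_irrefl _)
    · exact h
    · have := g10 t₁ ⟨h, h2.trans_le hle⟩
      rw [← e1, h9, mul_zero] at this
      exact absurd this (lt_irrefl _)
  have k2 : t₂ = t₂' := by
    rcases hle.lt_or_eq with h | h
    · have := g10 t₂ ⟨by rw [← k1]; exact h2, h⟩
      rw [← e2, h11, mul_zero] at this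
      exact absurd this (lt_irrefl _)
    · exact h
  rw [h11, k2, g11] at e2
  exact congrArg Prod.fst e2

theorem MakesTurn.unique {W : ℝ × ℝ → ℝ × ℝ} {U : Set (ℝ × ℝ)} {K : NNReal}
    (hK : LipschitzOnWith K W U) {x x' x'' : ℝ} (h : MakesTurn W U x x')
    (h' : MakesTurn W U x x'') : x' = x'' := by
  obtain ⟨γ, t₁, t₂, σ, h⟩ := h
  obtain ⟨γ', t₁', t₂', σ', h'⟩ := h'
  rcases le_total t₂ t₂' with hle | hle
  · exact MakesTurn.unique_aux hK h h' hle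
  · exact (MakesTurn.unique_aux hK h' h hle).symm

theorem MakesTurn.mono {W : ℝ × ℝ → ℝ × ℝ} {U V : Set (ℝ × ℝ)} (hUV : U ⊆ V) {x x' : ℝ}
    (h : MakesTurn W U x x') : MakesTurn W V x x' := by
  obtain ⟨γ, t₁, t₂, σ, h1, h2, h3, h4, h5⟩ := h
  exact ⟨γ, t₁, t₂, σ, h1, h2, h3, fun t ht => ⟨hUV (h4 t ht).1, (h4 t ht).2⟩, h5⟩

theorem returnMap_of {W : ℝ × ℝ → ℝ × ℝ} {η : ℝ} {K : NNReal} {U₀ : Set (ℝ × ℝ)}
    (hU₀ : U₀ ∈ 𝓝 (0 : ℝ × ℝ)) (hK : LipschitzOnWith K W U₀)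
    (h : ∀ U ∈ 𝓝 (0 : ℝ × ℝ), ∀ ε : ℝ, 0 < ε →
      ∀ᶠ x in 𝓝[>] (0 : ℝ), ∃ x', MakesTurn W U x x' ∧ |x' / x - η| < ε) :
    (∃ R, IsReturnMap W R) ∧ ∀ R, IsReturnMap W R → HasLeadingCoeff R η := by
  classical
  constructor
  · refine ⟨fun x => if hx : ∃ x', MakesTurn W U₀ x x' then hx.choose else 0, fun U hU => ?_⟩
    filter_upwards [h (U ∩ U₀) (inter_mem hU hU₀) 1 one_pos] with x hx
    obtain ⟨x', hx', -⟩ := hx
    have h1 : ∃ x', MakesTurn W U₀ x x' := ⟨x', hx'.mono inter_subset_right⟩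
    simp only [dif_pos h1]
    have h2 := MakesTurn.unique hK h1.choose_spec (hx'.mono inter_subset_right)
    rw [h2]
    exact hx'.mono inter_subset_left
  · intro R hR
    rw [HasLeadingCoeff, Metric.tendsto_nhds]
    intro ε hε
    filter_upwards [h U₀ hU₀ ε hε, hR U₀ hU₀] with x hx hRx
    obtain ⟨x', hx', hx''⟩ := hx
    rw [MakesTurn.unique hK hRx hx', Real.dist_eq]
    exact hx''

end Pool.Agent.Y305.MR
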