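import Pool.Agent.Y305.MR.Lead
import Pool.Agent.Y305.MR.Turn
import Pool.Agent.Y305.MR.Uniq

/-! Analytic coordinate systems. -/

set_option autoImplicit false

open Set Filter Topology Asymptotics

noncomputable section

namespace Pool.Agent.Y305.MR

section ZZ

variable {ι : Type*} {l : Filter ι} {ρ : ι → ℝ} {x y x' y' : ι → ℝ}

theorem lead_ZZ (hρ : Tendsto ρ l (𝓝[>] 0)) (hx : Lead l ρ 3 x x') (hy : Lead l ρ 2 y y') :
    Lead l ρ 10 (fun i => (ZZ (x i, y i)).1)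
      (fun i => 3 * y' i ^ 2 * (x' i ^ 2 - y' i ^ 3)) ∧
    Lead l ρ 9 (fun i => (ZZ (x i, y i)).2)
      (fun i => 2 * x' i * (x' i ^ 2 - y' i ^ 3)) := by
  have x2 := hx.pow hρ 2
  have x3 := hx.pow hρ 3
  have x4 := hx.pow hρ 4
  have x5 := hx.pow hρ 5
  have y2 := hy.pow hρ 2
  have y3 := hy.pow hρ 3
  have y5 := hy.pow hρ 5
  constructor
  · have t1 := (x2.mul hρ y2).const_mul 3
    have t2 := Lead.of_ord (m := 10) ((((x3.mul hρ y2).const_mul 3).ord hρ).mono hρ (by norm_num))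
    have t3 := y5.const_mul 3
    refine ((t1.add t2).sub t3).congr (Eventually.of_forall fun i => ?_) fun i => ?_
    · simp only [ZZ]; ring
    · ring
  · have t1 := x3.const_mul 2
    have t2 := Lead.of_ord (m := 9) ((x4.ord hρ).mono hρ (by norm_num))
    have t3 := Lead.of_ord (m := 9) (((x5.const_mul 3).ord hρ).mono hρ (by norm_num))
    have t4 := (hx.mul hρ y3).const_mul 2
    have t5 := Lead.of_ord (m := 9) ((((x2.mul hρ y3).const_mul 3).ord hρ).mono hρ (by norm_num))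
    refine ((((t1.sub t2).add t3).sub t4).add t5).congr (Eventually.of_forall fun i => ?_)
      fun i => ?_
    · simp only [ZZ]; ring
    · ring

theorem lead_ZZ' (hρ : Tendsto ρ l (𝓝[>] 0)) (hx : Lead l ρ 1 x x') (hy : Lead l ρ 1 y y') :
    Ord l ρ 4 (fun i => (ZZ (x i, y i)).1) ∧
    Lead l ρ 3 (fun i => (ZZ (x i, y i)).2) (fun i => 2 * x' i ^ 3) := by
  have x2 := hx.pow hρ 2
  have x3 := hx.pow hρ 3
  have x4 := hx.pow hρ 4
  have x5 := hx.pow hρ 5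
  have y2 := hy.pow hρ 2
  have y3 := hy.pow hρ 3
  have y5 := hy.pow hρ 5
  constructor
  · have t1 := (((x2.mul hρ y2).const_mul 3).ord hρ)
    have t2 := (((x3.mul hρ y2).const_mul 3).ord hρ).mono (m := 4) hρ (by norm_num)
    have t3 := ((y5.const_mul 3).ord hρ).mono (m := 4) hρ (by norm_num)
    refine ((t1.add t2).sub t3).congr (Eventually.of_forall fun i => ?_)
    simp only [ZZ]; ring
  · have t1 := x3.const_mul 2
    have t2 := Lead.of_ord (m := 3) ((x4.ord hρ).mono hρ (by norm_num))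
    have t3 := Lead.of_ord (m := 3) (((x5.const_mul 3).ord hρ).mono hρ (by norm_num))
    have t4 := Lead.of_ord (m := 3) ((((hx.mul hρ y3).const_mul 2).ord hρ).mono hρ (by norm_num))
    have t5 := Lead.of_ord (m := 3) ((((x2.mul hρ y3).const_mul 3).ord hρ).mono hρ (by norm_num))
    refine ((((t1.sub t2).add t3).sub t4).add t5).congr (Eventually.of_forall fun i => ?_)
      fun i => ?_
    · simp only [ZZ]; ring
    · ring

end ZZ

/-- A chart with its linear part. -/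
structure ChartData (Φ : ℝ × ℝ → ℝ × ℝ) (a b d e : ℝ) : Prop where
  det : a * e - b * d ≠ 0
  zero : Φ 0 = 0
  an : AnalyticAt ℝ Φ 0
  lin : ∀ z : ℝ × ℝ, fderiv ℝ Φ 0 z = (a * z.1 + b * z.2, d * z.1 + e * z.2)

theorem exists_chartData {Φ : ℝ × ℝ → ℝ × ℝ} (h : IsChart Φ) :
    ∃ a b d e, ChartData Φ a b d e := by
  obtain ⟨h1, h2, h3⟩ := h
  set L := fderiv ℝ Φ 0 with hL
  have hlin : ∀ z : ℝ × ℝ, L z = ((L (1, 0)).1 * z.1 + (L (0, 1)).1 * z.2,
      (L (1, 0)).2 * z.1 + (L (0, 1)).2 * z.2) := by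
    intro z
    have e : z = z.1 • ((1 : ℝ), (0 : ℝ)) + z.2 • ((0 : ℝ), (1 : ℝ)) := by ext <;> simp
    conv_lhs => rw [e, map_add, map_smul, map_smul]
    ext
    · simp; ring
    · simp; ring
  refine ⟨(L (1, 0)).1, (L (0, 1)).1, (L (1, 0)).2, (L (0, 1)).2, ?_, h2, h1, hlin⟩
  set a := (L (1, 0)).1
  set b := (L (0, 1)).1
  set d := (L (1, 0)).2
  set e := (L (0, 1)).2
  intro hdet
  have k1 : L (e, -d) = L 0 := by
    rw [hlin, map_zero]
    ext
    · simp; linarith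
    · simp; ring
  have k2 : L (b, -a) = L 0 := by
    rw [hlin, map_zero]
    ext
    · simp; ring
    · simp; linarith
  have k1' := h3.1 k1
  have k2' := h3.1 k2
  have hd : d = 0 := by
    have := congrArg Prod.snd k1'
    simpa using this
  have ha : a = 0 := by
    have := congrArg Prod.snd k2'
    simpa using this
  have k3 : L (1, 0) = L 0 := by
    rw [hlin, map_zero]
    ext
    · simp [ha]
    · simp [hd]
  have := congrArg Prod.fst (h3.1 k3)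
  simp at this

theorem ChartData.taylor {Φ : ℝ × ℝ → ℝ × ℝ} {a b d e : ℝ} (h : ChartData Φ a b d e) :
    (fun z => Φ z - fderiv ℝ Φ 0 z) =O[𝓝 0] fun z : ℝ × ℝ => ‖z‖ ^ 2 := by
  obtain ⟨p, hp⟩ := h.an
  have h1 := hp.isBigO_sub_partialSum_pow 2
  refine h1.congr_left fun z => ?_
  rw [zero_add, FormalMultilinearSeries.partialSum, Finset.sum_range_succ, Finset.sum_range_one,
    hp.coeff_zero, h.zero, zero_add, hp.fderiv_eq]
  congr 1

theorem ChartData.deriv {Φ : ℝ × ℝ → ℝ × ℝ} {a b d e : ℝ} (h : ChartData Φ a b d e) :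
    (fun z => fderiv ℝ Φ z - fderiv ℝ Φ 0) =O[𝓝 0] fun z : ℝ × ℝ => z := by
  have := h.an.fderiv.differentiableAt.isBigO_sub
  simpa using this

section

variable {ι : Type*} {l : Filter ι} {ρ : ι → ℝ} {z : ι → ℝ × ℝ} {k : ℕ}

theorem ChartData.ord {Φ : ℝ × ℝ → ℝ × ℝ} {a b d e : ℝ} (h : ChartData Φ a b d e)
    (hz0 : Tendsto z l (𝓝 0)) (hz : z =O[l] fun i => ρ i ^ k) :
    Ord l ρ (2 * k) (fun i => (Φ (z i)).1 - (a * (z i).1 + b * (z i).2)) ∧
    Ord l ρ (2 * k) (fun i => (Φ (z i)).2 - (d * (z i).1 + e * (z i).2)) ∧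
    Ord l ρ k (fun i => (fderiv ℝ Φ (z i) (1, 0)).1 - a) ∧
    Ord l ρ k (fun i => (fderiv ℝ Φ (z i) (0, 1)).1 - b) ∧
    Ord l ρ k (fun i => (fderiv ℝ Φ (z i) (1, 0)).2 - d) ∧
    Ord l ρ k (fun i => (fderiv ℝ Φ (z i) (0, 1)).2 - e) := by
  have h1 : (fun i => Φ (z i) - fderiv ℝ Φ 0 (z i)) =O[l] fun i => ρ i ^ (2 * k) := by
    have h2 := h.taylor.comp_tendsto hz0
    refine h2.trans ?_
    have h3 := hz.norm_left.pow 2
    refine h3.congr_right fun i => ?_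
    rw [← pow_mul, mul_comm]
  have h4 : (fun i => fderiv ℝ Φ (z i) - fderiv ℝ Φ 0) =O[l] fun i => ρ i ^ k :=
    (h.deriv.comp_tendsto hz0).trans hz
  have hfst : ∀ v : ℝ × ℝ, |v.1| ≤ ‖v‖ := fun v => norm_fst_le v
  have hsnd : ∀ v : ℝ × ℝ, |v.2| ≤ ‖v‖ := fun v => norm_snd_le v
  have hD : ∀ v : ℝ × ℝ, ‖v‖ ≤ 1 →
      (fun i => (fderiv ℝ Φ (z i) v - fderiv ℝ Φ 0 v)) =O[l] fun i => ρ i ^ k := by
    intro v hv
    refine IsBigO.trans (IsBigO.of_bound 1 (Eventually.of_forall fun i => ?_)) h4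
    rw [one_mul]
    calc ‖fderiv ℝ Φ (z i) v - fderiv ℝ Φ 0 v‖ = ‖(fderiv ℝ Φ (z i) - fderiv ℝ Φ 0) v‖ := rfl
      _ ≤ ‖fderiv ℝ Φ (z i) - fderiv ℝ Φ 0‖ * ‖v‖ := ContinuousLinearMap.le_opNorm _ _
      _ ≤ ‖fderiv ℝ Φ (z i) - fderiv ℝ Φ 0‖ * 1 := by gcongr
      _ = _ := mul_one _
  have v1 : ‖((1 : ℝ), (0 : ℝ))‖ ≤ 1 := by simp [Prod.norm_def]
  have v2 : ‖((0 : ℝ), (1 : ℝ))‖ ≤ 1 := by simp [Prod.norm_def]
  have l1 : fderiv ℝ Φ 0 (1, 0) = (a, d) := by rw [h.lin]; simp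
  have l2 : fderiv ℝ Φ 0 (0, 1) = (b, e) := by rw [h.lin]; simp
  refine ⟨?_, ?_, ?_, ?_, ?_, ?_⟩
  · refine IsBigO.trans (IsBigO.of_bound 1 (Eventually.of_forall fun i => ?_)) h1
    rw [one_mul]
    refine le_trans (le_of_eq ?_) (hfst _)
    rw [h.lin]; rfl
  · refine IsBigO.trans (IsBigO.of_bound 1 (Eventually.of_forall fun i => ?_)) h1
    rw [one_mul]
    refine le_trans (le_of_eq ?_) (hsnd _)
    rw [h.lin]; rfl
  · refine IsBigO.trans (IsBigO.of_bound 1 (Eventually.of_forall fun i => ?_)) (hD _ v1)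
    rw [one_mul]
    refine le_trans (le_of_eq ?_) (hfst _)
    rw [l1]; rfl
  · refine IsBigO.trans (IsBigO.of_bound 1 (Eventually.of_forall fun i => ?_)) (hD _ v2)
    rw [one_mul]
    refine le_trans (le_of_eq ?_) (hfst _)
    rw [l2]; rfl
  · refine IsBigO.trans (IsBigO.of_bound 1 (Eventually.of_forall fun i => ?_)) (hD _ v1)
    rw [one_mul]
    refine le_trans (le_of_eq ?_) (hsnd _)
    rw [l1]; rfl
  · refine IsBigO.trans (IsBigO.of_bound 1 (Eventually.of_forall fun i => ?_)) (hD _ v2)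
    rw [one_mul]
    refine le_trans (le_of_eq ?_) (hsnd _)
    rw [l2]; rfl

end

theorem apply_fderiv (Φ : ℝ × ℝ → ℝ × ℝ) (z v : ℝ × ℝ) :
    fderiv ℝ Φ z v = ((fderiv ℝ Φ z (1, 0)).1 * v.1 + (fderiv ℝ Φ z (0, 1)).1 * v.2,
      (fderiv ℝ Φ z (1, 0)).2 * v.1 + (fderiv ℝ Φ z (0, 1)).2 * v.2) := by
  have e : v = v.1 • ((1 : ℝ), (0 : ℝ)) + v.2 • ((0 : ℝ), (1 : ℝ)) := by ext <;> simp
  conv_lhs => rw [e, map_add, map_smul, map_smul]
  ext
  · simp; ring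
  · simp; ring

/-- Local inverse of a chart. -/
theorem ChartData.inverse {Φ : ℝ × ℝ → ℝ × ℝ} {a b d e : ℝ} (h : ChartData Φ a b d e) :
    ∃ Θ : ℝ × ℝ → ℝ × ℝ, ContDiffAt ℝ 1 Θ 0 ∧ Θ 0 = 0 ∧ (∀ᶠ u in 𝓝 0, Φ (Θ u) = u) ∧
      (∀ᶠ z in 𝓝 0, Θ (Φ z) = z) ∧ 𝓝 0 ≤ map Φ (𝓝 0) := by
  have hinj : (fderiv ℝ Φ 0).ker = ⊥ := by
    rw [LinearMap.ker_eq_bot']
    intro z hz
    have hz' : fderiv ℝ Φ 0 z = 0 := hz
    rw [h.lin] at hz'
    have e1 : a * z.1 + b * z.2 = 0 := congrArg Prod.fst hz'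
    have e2 : d * z.1 + e * z.2 = 0 := congrArg Prod.snd hz'
    have z1 : z.1 = 0 := by
      have : (a * e - b * d) * z.1 = 0 := by linear_combination e * e1 - b * e2
      exact (mul_eq_zero.1 this).resolve_left h.det
    have z2 : z.2 = 0 := by
      have : (a * e - b * d) * z.2 = 0 := by linear_combination a * e2 - d * e1
      exact (mul_eq_zero.1 this).resolve_left h.det
    exact Prod.ext z1 z2
  have hsurj : (fderiv ℝ Φ 0).range = ⊤ := by
    have h1 : Function.Injective (fderiv ℝ Φ 0).toLinearMap := LinearMap.ker_eq_bot.1 hinj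
    exact LinearMap.range_eq_top.2 (LinearMap.injective_iff_surjective.1 h1)
  set E := ContinuousLinearEquiv.ofBijective (fderiv ℝ Φ 0) hinj hsurj with hE
  have hE' : (E : ℝ × ℝ →L[ℝ] ℝ × ℝ) = fderiv ℝ Φ 0 := by
    rfl
  have hs : HasStrictFDerivAt Φ (E : ℝ × ℝ →L[ℝ] ℝ × ℝ) 0 := by
    rw [hE']; exact h.an.hasStrictFDerivAt
  have hcd : ContDiffAt ℝ 1 Φ 0 := h.an.contDiffAt
  have hfd : HasFDerivAt Φ (E : ℝ × ℝ →L[ℝ] ℝ × ℝ) 0 := hs.hasFDerivAt
  refine ⟨hcd.localInverse hfd one_ne_zero, ?_, ?_, ?_, ?_, ?_⟩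
  · have := hcd.to_localInverse hfd one_ne_zero
    rwa [h.zero] at this
  · have := hcd.localInverse_apply_image hfd one_ne_zero
    rwa [h.zero] at this
  · have := hs.eventually_right_inverse
    rw [h.zero] at this
    exact this
  · exact hs.eventually_left_inverse
  · have := hs.map_nhds_eq_of_equiv
    rw [h.zero] at this
    exact this.ge

end Pool.Agent.Y305.MR
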