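import Mathlib

/-! An elementary implicit function lemma for functions that increase in the first variable. -/

set_option autoImplicit false

open Set Filter Topology Asymptotics

namespace Pool.Agent.Y305.MR

theorem hasDerivAt_implicit {F : ℝ × ℝ → ℝ} {S : ℝ → ℝ} {c m θ₀ : ℝ} {L : ℝ × ℝ →L[ℝ] ℝ}
    (hm : 0 < m) (hF : ∀ s s' θ, s ≤ s' → m * (s' - s) ≤ F (s', θ) - F (s, θ))
    (hS : ∀ θ, F (S θ, θ) = c) (hL : HasFDerivAt F L (S θ₀, θ₀)) (hL0 : L (1, 0) ≠ 0) :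
    HasDerivAt S (-(L (0, 1)) / L (1, 0)) θ₀ := by
  have habs : ∀ θ, m * |S θ - S θ₀| ≤ |F (S θ₀, θ) - F (S θ₀, θ₀)| := by
    intro θ
    have h1 := hS θ
    have h2 := hS θ₀
    rcases le_total (S θ) (S θ₀) with h | h
    · have h3 := hF _ _ θ h
      rw [abs_of_nonpos (by linarith)]
      calc m * (-(S θ - S θ₀)) = m * (S θ₀ - S θ) := by ring
        _ ≤ F (S θ₀, θ) - F (S θ, θ) := h3
        _ = F (S θ₀, θ) - F (S θ₀, θ₀) := by rw [h1, h2]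
        _ ≤ _ := le_abs_self _
    · have h3 := hF _ _ θ h
      rw [abs_of_nonneg (by linarith)]
      calc m * (S θ - S θ₀) ≤ F (S θ, θ) - F (S θ₀, θ) := h3
        _ = -(F (S θ₀, θ) - F (S θ₀, θ₀)) := by rw [h1, h2]; ring
        _ ≤ _ := neg_le_abs _
  have hO1 : (fun θ => F (S θ₀, θ) - F (S θ₀, θ₀)) =O[𝓝 θ₀] fun θ => θ - θ₀ := by
    have h1 : HasDerivAt (fun θ : ℝ => F (S θ₀, θ)) (L (0, 1)) θ₀ := by
      have h2 : HasDerivAt (fun θ : ℝ => (S θ₀, θ)) ((0 : ℝ), (1 : ℝ)) θ₀ :=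
        (hasDerivAt_const θ₀ (S θ₀)).prodMk (hasDerivAt_id θ₀)
      exact hL.comp_hasDerivAt θ₀ h2
    exact h1.isBigO_sub
  have hO2 : (fun θ => S θ - S θ₀) =O[𝓝 θ₀] fun θ => θ - θ₀ := by
    refine IsBigO.trans ?_ hO1
    refine IsBigO.of_bound (1 / m) (Eventually.of_forall fun θ => ?_)
    rw [Real.norm_eq_abs, Real.norm_eq_abs, one_div, inv_mul_eq_div, le_div_iff₀ hm, mul_comm]
    exact habs θ
  have hcont : ContinuousAt S θ₀ := by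
    have h1 : Tendsto (fun θ => S θ - S θ₀) (𝓝 θ₀) (𝓝 0) := by
      refine hO2.trans_tendsto ?_
      have : Tendsto (fun θ : ℝ => θ - θ₀) (𝓝 θ₀) (𝓝 (θ₀ - θ₀)) :=
        (continuous_id.sub continuous_const).tendsto θ₀
      simpa using this
    have h2 := h1.add_const (S θ₀)
    simpa [ContinuousAt] using h2
  have hO3 : (fun θ => ((S θ, θ) : ℝ × ℝ) - (S θ₀, θ₀)) =O[𝓝 θ₀] fun θ => θ - θ₀ := by
    have : (fun θ => ((S θ, θ) : ℝ × ℝ) - (S θ₀, θ₀)) = fun θ => (S θ - S θ₀, θ - θ₀) := by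
      ext θ <;> simp
    rw [this]
    exact hO2.prod_left (isBigO_refl _ _)
  have ht : Tendsto (fun θ => ((S θ, θ) : ℝ × ℝ)) (𝓝 θ₀) (𝓝 (S θ₀, θ₀)) :=
    hcont.prodMk continuousAt_id
  have h4 := (hL.isLittleO.comp_tendsto ht).trans_isBigO hO3
  rw [hasDerivAt_iff_isLittleO]
  have h5 : (fun θ => S θ - S θ₀ - (θ - θ₀) • (-(L (0, 1)) / L (1, 0))) =
      fun θ => (-(L (1, 0))⁻¹) * ((F (S θ, θ) - F (S θ₀, θ₀) -
        L (((S θ, θ) : ℝ × ℝ) - (S θ₀, θ₀)))) := by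
    funext θ
    have h6 : L (((S θ, θ) : ℝ × ℝ) - (S θ₀, θ₀)) =
        (S θ - S θ₀) * L (1, 0) + (θ - θ₀) * L (0, 1) := by
      have : ((S θ, θ) : ℝ × ℝ) - (S θ₀, θ₀) =
          (S θ - S θ₀) • ((1 : ℝ), (0 : ℝ)) + (θ - θ₀) • ((0 : ℝ), (1 : ℝ)) := by
        ext <;> simp
      rw [this, map_add, map_smul, map_smul, smul_eq_mul, smul_eq_mul]
    rw [h6, hS, hS, smul_eq_mul]
    field_simp
    ring
  rw [h5]
  exact IsLittleO.const_mul_left h4 _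

end Pool.Agent.Y305.MR
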