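import Pool.Agent.Y305.MR.Angle

/-! The derivative of the first integral, its level curves, and the vector field. -/

set_option autoImplicit false

open Set Filter Topology Asymptotics

noncomputable section

namespace Pool.Agent.Y305.MR

def KK (s θ : ℝ) : ℝ := Real.exp (3 * s) * kk θ

def nn (s θ : ℝ) : ℝ := hh θ ^ 2 + KK s θ ^ 2

theorem normSq_zt (s θ : ℝ) : Complex.normSq (zt s θ) = nn s θ := by
  rw [Complex.normSq_apply, zt_re, zt_im, nn, KK]; ring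

theorem nn_pos (s θ : ℝ) : 0 < nn s θ := by
  rw [← normSq_zt]; exact Complex.normSq_pos.2 (zt_ne s θ)

def Ms (s θ : ℝ) : ℝ := 6 + 3 * KK s θ * (KK s θ - hh θ) / nn s θ

def Mt (s θ : ℝ) : ℝ :=
  ((hh θ + KK s θ) * dh θ + (KK s θ - hh θ) * (Real.exp (3 * s) * dk θ)) / nn s θ

theorem hasFDerivAt_zt (s θ : ℝ) : ∃ L : ℝ × ℝ →L[ℝ] ℂ,
    HasFDerivAt (fun p : ℝ × ℝ => zt p.1 p.2) L (s, θ) ∧
    L (1, 0) = ⟨0, 3 * KK s θ⟩ ∧ L (0, 1) = ⟨dh θ, Real.exp (3 * s) * dk θ⟩ := by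
  have hp1 : HasFDerivAt (fun p : ℝ × ℝ => p.1) (ContinuousLinearMap.fst ℝ ℝ ℝ) (s, θ) :=
    hasFDerivAt_fst
  have hp2 : HasFDerivAt (fun p : ℝ × ℝ => p.2) (ContinuousLinearMap.snd ℝ ℝ ℝ) (s, θ) :=
    hasFDerivAt_snd
  have h1 := (hasDerivAt_hh θ).comp_hasFDerivAt (s, θ) (f := fun p : ℝ × ℝ => p.2) hp2
  have h2 := (hasDerivAt_kk θ).comp_hasFDerivAt (s, θ) (f := fun p : ℝ × ℝ => p.2) hp2
  have h3 : HasFDerivAt (fun p : ℝ × ℝ => Real.exp (3 * p.1))
      (Real.exp (3 * s) • ((3 : ℝ) • ContinuousLinearMap.fst ℝ ℝ ℝ)) (s, θ) :=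
    (hp1.const_mul 3).exp
  have h4 := h3.mul h2
  have h5 := h1.prodMk h4
  have h6 := Complex.equivRealProdCLM.symm.hasFDerivAt.comp (s, θ) h5
  refine ⟨_, h6.congr_of_eventuallyEq (Eventually.of_forall fun p => ?_), ?_, ?_⟩
  · apply Complex.ext <;> simp [zt]
  · apply Complex.ext <;> simp [KK] <;> ring
  · apply Complex.ext <;> simp

theorem hasFDerivAt_MM (s θ : ℝ) : ∃ L : ℝ × ℝ →L[ℝ] ℝ,
    HasFDerivAt MM L (s, θ) ∧ L (1, 0) = Ms s θ ∧ L (0, 1) = Mt s θ := by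
  obtain ⟨Lz, hz, hz1, hz2⟩ := hasFDerivAt_zt s θ
  have hp1 : HasFDerivAt (fun p : ℝ × ℝ => p.1) (ContinuousLinearMap.fst ℝ ℝ ℝ) (s, θ) :=
    hasFDerivAt_fst
  have hn := nn_pos s θ
  have hinv : (zt s θ)⁻¹ = ⟨hh θ / nn s θ, - KK s θ / nn s θ⟩ := by
    apply Complex.ext
    · rw [Complex.inv_re, normSq_zt, zt_re]
    · rw [Complex.inv_im, normSq_zt, zt_im]; rfl
  -- the derivative of `6 s + re ((1 + i) log ζ) + const`
  have key : ∀ (f : ℝ × ℝ → ℂ) (Lf : ℝ × ℝ →L[ℝ] ℂ) (c : ℝ), HasFDerivAt f Lf (s, θ) →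
      f (s, θ) ∈ Complex.slitPlane →
      HasFDerivAt (fun p : ℝ × ℝ => 6 * p.1 + (Real.log ‖f p‖ - (f p).arg) + c)
        (6 • ContinuousLinearMap.fst ℝ ℝ ℝ +
          Complex.reCLM.comp ((1 + Complex.I) • ((f (s, θ))⁻¹ • Lf))) (s, θ) := by
    intro f Lf c hf hsl
    have h1 : HasFDerivAt (fun p => Complex.log (f p)) ((f (s, θ))⁻¹ • Lf) (s, θ) := by
      have := (Complex.hasDerivAt_log hsl).comp_hasFDerivAt_of_eq (s, θ) hf rfl
      exact this
    have h2 := h1.const_smul (1 + Complex.I)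
    have h3 := Complex.reCLM.hasFDerivAt.comp (s, θ) h2
    have h4 := ((hp1.const_mul 6).add h3).add_const c
    refine (h4.congr_of_eventuallyEq (Eventually.of_forall fun p => ?_)).congr_fderiv ?_
    · simp [Complex.log_re, Complex.log_im]
    · ext <;> simp
  have hval1 : (6 • ContinuousLinearMap.fst ℝ ℝ ℝ +
          Complex.reCLM.comp ((1 + Complex.I) • ((zt s θ)⁻¹ • Lz))) (1, 0) = Ms s θ := by
    simp only [add_apply, smul_apply,
      ContinuousLinearMap.comp_apply, hz1, hinv, ContinuousLinearMap.coe_fst']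
    simp [Ms]
    field_simp
  have hval2 : (6 • ContinuousLinearMap.fst ℝ ℝ ℝ +
          Complex.reCLM.comp ((1 + Complex.I) • ((zt s θ)⁻¹ • Lz))) (0, 1) = Mt s θ := by
    simp only [add_apply, smul_apply,
      ContinuousLinearMap.comp_apply, hz2, hinv, ContinuousLinearMap.coe_fst']
    simp [Mt]
    field_simp
    ring
  obtain ⟨n, hn1, hn2⟩ := exists_int θ
  have hpi := Real.pi_pos
  rcases hn2.lt_or_eq with hlt | heq
  · refine ⟨_, (key _ Lz (-(2 * Real.pi * n)) hz (zt_slit hn1 hlt)).congr_of_eventuallyEq ?_,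
      hval1, hval2⟩
    have hev : ∀ᶠ p : ℝ × ℝ in 𝓝 (s, θ), 2 * Real.pi * n - 3 * Real.pi / 2 < p.2 ∧
        p.2 < 2 * Real.pi * n + Real.pi / 2 := by
      have h1 := (continuous_snd.tendsto (s, θ)).eventually (Ioo_mem_nhds hn1 hlt)
      exact h1
    filter_upwards [hev] with p hp
    rw [MM, al_eq₁ hp.1 hp.2.le]
    ring
  · have hb1 : 2 * Real.pi * n - Real.pi / 2 < θ := by rw [heq]; linarith
    have hb2 : θ < 2 * Real.pi * n + 3 * Real.pi / 2 := by rw [heq]; linarith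
    have hnz : HasFDerivAt (fun p : ℝ × ℝ => -zt p.1 p.2) (-Lz) (s, θ) := hz.neg
    have hLL : ((-zt s θ)⁻¹ • (-Lz)) = ((zt s θ)⁻¹ • Lz) := by
      rw [inv_neg, smul_neg, neg_smul, neg_neg]
    have h1 := key _ (-Lz) (-(2 * Real.pi * n) - Real.pi) hnz (zt_slit' hb1 hb2)
    simp only [hLL] at h1
    refine ⟨_, h1.congr_of_eventuallyEq ?_, hval1, hval2⟩
    have hev : ∀ᶠ p : ℝ × ℝ in 𝓝 (s, θ), 2 * Real.pi * n - Real.pi / 2 < p.2 ∧
        p.2 < 2 * Real.pi * n + 3 * Real.pi / 2 := by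
      have h1 := (continuous_snd.tendsto (s, θ)).eventually (Ioo_mem_nhds hb1 hb2)
      exact h1
    filter_upwards [hev] with p hp
    rw [MM, al_eq₂ hp.1 hp.2, norm_neg]
    ring

theorem continuous_MM : Continuous MM := by
  rw [continuous_iff_continuousAt]
  rintro ⟨s, θ⟩
  obtain ⟨L, hL, -, -⟩ := hasFDerivAt_MM s θ
  exact hL.continuousAt

theorem Ms_ge (s θ : ℝ) : 9 / 2 ≤ Ms s θ := by
  have hn := nn_pos s θ
  rw [Ms]
  have : -(3 / 2) ≤ 3 * KK s θ * (KK s θ - hh θ) / nn s θ := by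
    rw [le_div_iff₀ hn, nn]
    nlinarith [sq_nonneg (KK s θ - hh θ), sq_nonneg (KK s θ)]
  linarith

theorem hasDerivAt_MM (s θ : ℝ) : HasDerivAt (fun s => MM (s, θ)) (Ms s θ) s := by
  obtain ⟨L, hL, hL1, -⟩ := hasFDerivAt_MM s θ
  have h2 : HasDerivAt (fun s : ℝ => (s, θ)) ((1 : ℝ), (0 : ℝ)) s :=
    (hasDerivAt_id s).prodMk (hasDerivAt_const s θ)
  have := hL.comp_hasDerivAt s h2
  rwa [hL1] at this

theorem MM_mono (s s' θ : ℝ) (h : s ≤ s') : 9 / 2 * (s' - s) ≤ MM (s', θ) - MM (s, θ) := by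
  refine mul_sub_le_image_sub_of_le_deriv (f := fun s => MM (s, θ))
    (fun s => (hasDerivAt_MM s θ).differentiableAt) (fun x => ?_) h
  rw [(hasDerivAt_MM x θ).deriv]
  exact Ms_ge x θ

theorem MM_surj (θ c : ℝ) : ∃ s, MM (s, θ) = c := by
  have hc : Continuous fun s => MM (s, θ) := continuous_MM.comp (by fun_prop)
  refine hc.surjective ?_ ?_ c
  · refine tendsto_atTop_mono' atTop (f₁ := fun s => 9 / 2 * s + MM (0, θ)) ?_ ?_
    · filter_upwards [eventually_ge_atTop 0] with s hs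
      have := MM_mono 0 s θ hs
      linarith
    · exact tendsto_atTop_add_const_right _ _ (tendsto_id.const_mul_atTop (by norm_num))
  · refine tendsto_atBot_mono' atBot (f₁ := fun s => 9 / 2 * s + MM (0, θ)) ?_ ?_
    · filter_upwards [eventually_le_atBot 0] with s hs
      have := MM_mono s 0 θ hs
      linarith
    · exact tendsto_atBot_add_const_right _ _ (tendsto_id.const_mul_atBot (by norm_num))

theorem MM_inj {s s' θ : ℝ} (h : MM (s, θ) = MM (s', θ)) : s = s' := by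
  rcases le_total s s' with h1 | h1
  · have := MM_mono s s' θ h1
    linarith
  · have := MM_mono s' s θ h1
    linarith

/-- The level curve of the first integral. -/
def SS (c θ : ℝ) : ℝ := (MM_surj θ c).choose

theorem MM_SS (c θ : ℝ) : MM (SS c θ, θ) = c := (MM_surj θ c).choose_spec

theorem SS_eq {s θ c : ℝ} (h : MM (s, θ) = c) : SS c θ = s := MM_inj ((MM_SS c θ).trans h.symm)

theorem hasDerivAt_SS (c θ : ℝ) : HasDerivAt (SS c) (-(Mt (SS c θ) θ) / Ms (SS c θ) θ) θ := by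
  obtain ⟨L, hL, hL1, hL2⟩ := hasFDerivAt_MM (SS c θ) θ
  rw [← hL1, ← hL2]
  refine hasDerivAt_implicit (m := 9 / 2) (by norm_num) MM_mono (MM_SS c) hL ?_
  rw [hL1]
  have := Ms_ge (SS c θ) θ
  linarith

/-- The vector field. -/
def ZZ (z : ℝ × ℝ) : ℝ × ℝ :=
  (3 * z.1 ^ 2 * z.2 ^ 2 + 3 * z.1 ^ 3 * z.2 ^ 2 - 3 * z.2 ^ 5,
    2 * z.1 ^ 3 - z.1 ^ 4 + 3 * z.1 ^ 5 - 2 * z.1 * z.2 ^ 3 + 3 * z.1 ^ 2 * z.2 ^ 3)

/-- Quasi-polar coordinates. -/
def pol (p : ℝ × ℝ) : ℝ × ℝ := (Real.exp (3 * p.1) * Real.cos p.2, Real.exp (2 * p.1) * Real.sin p.2)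

/-- The denominator. -/
def NN (s θ : ℝ) : ℝ := 6 * hh θ * (hh θ + KK s θ) + 9 * KK s θ * (KK s θ - hh θ)

theorem NN_pos (s θ : ℝ) : 0 < NN s θ := by
  have hn := nn_pos s θ
  rw [nn] at hn
  rw [NN]
  nlinarith [sq_nonneg (KK s θ - hh θ), sq_nonneg (KK s θ)]

/-- The speed of the parametrisation of the orbits by the angle. -/
def mm (s θ : ℝ) : ℝ := (3 * Real.cos θ ^ 2 + 2 * Real.sin θ ^ 2) / (Real.exp (7 * s) * NN s θ)

theorem mm_pos (s θ : ℝ) : 0 < mm s θ := by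
  have h1 := NN_pos s θ
  have h2 : 0 < 3 * Real.cos θ ^ 2 + 2 * Real.sin θ ^ 2 := by
    nlinarith [Real.sin_sq_add_cos_sq θ, sq_nonneg (Real.cos θ)]
  rw [mm]
  positivity

def cc (c θ : ℝ) : ℝ × ℝ := pol (SS c θ, θ)

theorem exp_mul_nat (s : ℝ) (n : ℕ) : Real.exp (n * s) = Real.exp s ^ n := by
  rw [← Real.exp_nat_mul]

theorem hasDerivAt_cc (c θ : ℝ) :
    HasDerivAt (cc c) (mm (SS c θ) θ • ZZ (cc c θ)) θ := by
  have hS := hasDerivAt_SS c θ
  have hn := nn_pos (SS c θ) θ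
  have hN := NN_pos (SS c θ) θ
  have hS' : -(Mt (SS c θ) θ) / Ms (SS c θ) θ =
      -((hh θ + KK (SS c θ) θ) * dh θ +
        (KK (SS c θ) θ - hh θ) * (Real.exp (3 * SS c θ) * dk θ)) / NN (SS c θ) θ := by
    have h1 : Ms (SS c θ) θ = NN (SS c θ) θ / nn (SS c θ) θ := by
      rw [Ms, eq_div_iff hn.ne', add_mul, div_mul_cancel₀ _ hn.ne', NN, nn]
      ring
    rw [h1, Mt]
    field_simp
  rw [hS'] at hS
  have h1 := ((hS.const_mul 3).exp).mul (Real.hasDerivAt_cos θ)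
  have h2 := ((hS.const_mul 2).exp).mul (Real.hasDerivAt_sin θ)
  have h3 := h1.prodMk h2
  refine h3.congr_deriv ?_
  have e3 : Real.exp (3 * SS c θ) = Real.exp (SS c θ) ^ 3 := by
    have := exp_mul_nat (SS c θ) 3; push_cast at this; exact this
  have e2 : Real.exp (2 * SS c θ) = Real.exp (SS c θ) ^ 2 := by
    have := exp_mul_nat (SS c θ) 2; push_cast at this; exact this
  have e7 : Real.exp (7 * SS c θ) = Real.exp (SS c θ) ^ 7 := by
    have := exp_mul_nat (SS c θ) 7; push_cast at this; exact this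
  have hNd : NN (SS c θ) θ = 6 * hh θ * (hh θ + KK (SS c θ) θ) +
    9 * KK (SS c θ) θ * (KK (SS c θ) θ - hh θ) := rfl
  have hKd : KK (SS c θ) θ = Real.exp (SS c θ) ^ 3 * Real.cos θ ^ 3 := by
    rw [KK, e3, kk]
  have hρ : Real.exp (SS c θ) ≠ 0 := Real.exp_ne_zero _
  have hN' := hN.ne'
  have hsc := Real.sin_sq_add_cos_sq θ
  rw [e3, e2]
  ext
  · simp only [mm, e7, ZZ, cc, pol, e3, e2, Prod.smul_fst, smul_eq_mul]
    generalize hNg : NN (SS c θ) θ = N at *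
    generalize Real.exp (SS c θ) = ρ at *
    generalize KK (SS c θ) θ = K at *
    rw [dh, dk, hh] at *
    generalize Real.cos θ = x at *
    generalize Real.sin θ = y at *
    field_simp
    rw [hNd, hKd]
    linear_combination (exp := 1) (0 : ℝ) * hsc
  · simp only [mm, e7, ZZ, cc, pol, e3, e2, Prod.smul_snd, smul_eq_mul]
    generalize hNg : NN (SS c θ) θ = N at *
    generalize Real.exp (SS c θ) = ρ at *
    generalize KK (SS c θ) θ = K at *
    rw [dh, dk, hh] at *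
    generalize Real.cos θ = x at *
    generalize Real.sin θ = y at *
    field_simp
    rw [hNd, hKd]
    ring

end Pool.Agent.Y305.MR
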