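import Mathlib

/-! Leading terms with respect to a small parameter. -/

set_option autoImplicit false

open Set Filter Topology Asymptotics

noncomputable section

namespace Pool.Agent.Y305.MR

variable {ι : Type*} {l : Filter ι} {ρ : ι → ℝ} {m n : ℕ} {f g f' g' : ι → ℝ}

/-- `f = O(ρ ^ m)`. -/
def Ord (l : Filter ι) (ρ : ι → ℝ) (m : ℕ) (f : ι → ℝ) : Prop := f =O[l] fun i => ρ i ^ m

/-- `f = ρ ^ m g + O(ρ ^ (m + 1))` with `g` bounded. -/
def Lead (l : Filter ι) (ρ : ι → ℝ) (m : ℕ) (f g : ι → ℝ) : Prop :=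
  Ord l ρ (m + 1) (fun i => f i - ρ i ^ m * g i) ∧ Ord l ρ 0 g

theorem Ord.mono (hρ : Tendsto ρ l (𝓝[>] 0)) (hf : Ord l ρ n f) (hmn : m ≤ n) : Ord l ρ m f := by
  refine IsBigO.trans hf ?_
  refine IsBigO.of_bound 1 ?_
  have h1 : ∀ᶠ i in l, ρ i ∈ Ioo 0 1 := hρ (Ioo_mem_nhdsGT one_pos)
  filter_upwards [h1] with i hi
  rw [one_mul, norm_pow, norm_pow, Real.norm_eq_abs, abs_of_pos hi.1]
  exact pow_le_pow_of_le_one hi.1.le hi.2.le hmn

theorem Ord.add (hf : Ord l ρ m f) (hg : Ord l ρ m g) : Ord l ρ m (fun i => f i + g i) :=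
  IsBigO.add hf hg

theorem Ord.sub (hf : Ord l ρ m f) (hg : Ord l ρ m g) : Ord l ρ m (fun i => f i - g i) :=
  IsBigO.sub hf hg

theorem Ord.mul (hf : Ord l ρ m f) (hg : Ord l ρ n g) : Ord l ρ (m + n) (fun i => f i * g i) := by
  have := IsBigO.mul hf hg
  refine this.congr_right fun i => ?_
  rw [pow_add]

theorem Ord.const (c : ℝ) : Ord l ρ 0 (fun _ => c) := by
  rw [Ord]
  simp only [pow_zero]
  exact isBigO_const_const _ one_ne_zero _

theorem Ord.pow_self : Ord l ρ m (fun i => ρ i ^ m) := isBigO_refl _ _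

theorem Ord.congr (hf : Ord l ρ m f) (h : ∀ᶠ i in l, f i = g i) : Ord l ρ m g :=
  IsBigO.congr' hf h (EventuallyEq.refl _ _)

theorem Lead.ord (hρ : Tendsto ρ l (𝓝[>] 0)) (hf : Lead l ρ m f g) : Ord l ρ m f := by
  have h1 := hf.1.mono hρ (Nat.le_succ m)
  have h2 : Ord l ρ (m + 0) (fun i => ρ i ^ m * g i) := Ord.mul Ord.pow_self hf.2
  rw [add_zero] at h2
  exact (h1.add h2).congr (Eventually.of_forall fun i => by ring)

theorem Lead.of_ord (hf : Ord l ρ (m + 1) f) : Lead l ρ m f (fun _ => 0) := by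
  refine ⟨hf.congr (Eventually.of_forall fun i => by ring), Ord.const 0⟩

theorem Lead.add (hf : Lead l ρ m f f') (hg : Lead l ρ m g g') :
    Lead l ρ m (fun i => f i + g i) (fun i => f' i + g' i) :=
  ⟨(hf.1.add hg.1).congr (Eventually.of_forall fun i => by ring), hf.2.add hg.2⟩

theorem Lead.sub (hf : Lead l ρ m f f') (hg : Lead l ρ m g g') :
    Lead l ρ m (fun i => f i - g i) (fun i => f' i - g' i) :=
  ⟨(hf.1.sub hg.1).congr (Eventually.of_forall fun i => by ring), hf.2.sub hg.2⟩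

theorem Lead.mul (hρ : Tendsto ρ l (𝓝[>] 0)) (hf : Lead l ρ m f f') (hg : Lead l ρ n g g') :
    Lead l ρ (m + n) (fun i => f i * g i) (fun i => f' i * g' i) := by
  refine ⟨?_, by simpa using hf.2.mul hg.2⟩
  have h1 : Ord l ρ (m + 1 + n) (fun i => (f i - ρ i ^ m * f' i) * g i) := hf.1.mul (hg.ord hρ)
  have h2 : Ord l ρ (m + (n + 1)) (fun i => ρ i ^ m * (g i - ρ i ^ n * g' i)) :=
    Ord.pow_self.mul hg.1
  have h3 : Ord l ρ (0 + (m + (n + 1))) (fun i => f' i * (ρ i ^ m * (g i - ρ i ^ n * g' i))) :=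
    hf.2.mul h2
  have e1 : m + 1 + n = m + n + 1 := by ring
  have e3 : 0 + (m + (n + 1)) = m + n + 1 := by ring
  rw [e1] at h1
  rw [e3] at h3
  exact (h1.add h3).congr (Eventually.of_forall fun i => by rw [pow_add]; ring)

theorem Lead.const (c : ℝ) : Lead l ρ 0 (fun _ => c) (fun _ => c) := by
  refine ⟨?_, Ord.const c⟩
  have : Ord l ρ 1 (fun _ => 0) := isBigO_zero _ _
  exact this.congr (Eventually.of_forall fun i => by simp)

theorem Lead.const_mul (hf : Lead l ρ m f f') (c : ℝ) :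
    Lead l ρ m (fun i => c * f i) (fun i => c * f' i) := by
  refine ⟨?_, ?_⟩
  · have := (Ord.const (l := l) (ρ := ρ) c).mul hf.1
    rw [zero_add] at this
    exact this.congr (Eventually.of_forall fun i => by ring)
  · simpa using (Ord.const (l := l) (ρ := ρ) c).mul hf.2

theorem Lead.congr (hf : Lead l ρ m f f') (h : ∀ᶠ i in l, f i = g i) (h' : ∀ i, f' i = g' i) :
    Lead l ρ m g g' := by
  refine ⟨hf.1.congr ?_, hf.2.congr (Eventually.of_forall h')⟩
  filter_upwards [h] with i hi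
  rw [hi, h']

theorem Lead.tendsto (hρ : Tendsto ρ l (𝓝[>] 0)) (hf : Lead l ρ m f f') :
    Tendsto (fun i => (ρ i ^ m)⁻¹ * f i - f' i) l (𝓝 0) := by
  have hpos : ∀ᶠ i in l, 0 < ρ i := hρ self_mem_nhdsWithin
  have h0 : Tendsto ρ l (𝓝 0) := hρ.mono_right nhdsWithin_le_nhds
  have h1 : (fun i => (ρ i ^ m)⁻¹ * f i - f' i) =O[l] ρ := by
    have h2 : (fun i => (ρ i ^ m)⁻¹ * (f i - ρ i ^ m * f' i)) =O[l]
        fun i => (ρ i ^ m)⁻¹ * ρ i ^ (m + 1) := (isBigO_refl _ _).mul hf.1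
    refine h2.congr' ?_ ?_
    · filter_upwards [hpos] with i hi
      field_simp
    · filter_upwards [hpos] with i hi
      rw [pow_succ]
      field_simp
  exact h1.trans_tendsto h0

theorem Lead.pow (hρ : Tendsto ρ l (𝓝[>] 0)) (hf : Lead l ρ m f f') (k : ℕ) :
    Lead l ρ (m * k) (fun i => f i ^ k) (fun i => f' i ^ k) := by
  induction k with
  | zero => simpa using Lead.const (l := l) (ρ := ρ) 1
  | succ k ih =>
    have := Lead.mul hρ ih hf
    rw [mul_add, mul_one]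
    exact this.congr (Eventually.of_forall fun i => by ring) (fun i => by ring)

theorem Lead.exact (hf : Ord l ρ 0 g) : Lead l ρ m (fun i => ρ i ^ m * g i) g := by
  refine ⟨?_, hf⟩
  have : Ord l ρ (m + 1) (fun _ => 0) := isBigO_zero _ _
  exact this.congr (Eventually.of_forall fun i => by simp)

end Pool.Agent.Y305.MR
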