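import Pool.Agent.Y305.MR.Newton

/-! The counterexample. -/

set_option autoImplicit false

open Set Filter Topology MeasureTheory

noncomputable section

namespace Pool.Agent.Y305.MR

/-- Coefficients of the first component. -/
def aa (i j : ℕ) : ℝ :=
  if (i, j) = (2, 3) then 3 else if (i, j) = (3, 3) then 3 else if (i, j) = (0, 6) then -3 else 0

/-- Coefficients of the second component. -/
def bb (i j : ℕ) : ℝ :=
  if (i, j) = (4, 0) then 2 else if (i, j) = (5, 0) then -1 else if (i, j) = (6, 0) then 3 else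
    if (i, j) = (2, 3) then -2 else if (i, j) = (3, 3) then 3 else 0

theorem isExpansion_ZZ : IsExpansion ZZ aa bb := by
  refine ⟨fun i => ?_, fun j => ?_, ?_, ?_⟩
  · simp [aa]
  · simp [bb]
  · refine ⟨1, one_pos, fun x y _ _ => ?_⟩
    have h := hasSum_sum_of_ne_finset_zero (f := fun n : ℕ × ℕ =>
      aa n.1 (n.2 + 1) * x ^ n.1 * y ^ n.2) (s := {(2, 2), (3, 2), (0, 5)})
      (L := SummationFilter.unconditional _) (by
        rintro ⟨i, j⟩ hn
        simp only [Finset.mem_insert, Finset.mem_singleton, Prod.mk.injEq, not_or, not_and] at hn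
        have : aa i (j + 1) = 0 := by
          simp only [aa, Prod.mk.injEq]
          rw [if_neg (by omega), if_neg (by omega), if_neg (by omega)]
        simp [this])
    have e : ∑ n ∈ ({(2, 2), (3, 2), (0, 5)} : Finset (ℕ × ℕ)),
        aa n.1 (n.2 + 1) * x ^ n.1 * y ^ n.2 = (ZZ (x, y)).1 := by
      rw [Finset.sum_insert (by decide), Finset.sum_insert (by decide), Finset.sum_singleton]
      simp [aa, ZZ]
      ring
    rw [e] at h
    exact h
  · refine ⟨1, one_pos, fun x y _ _ => ?_⟩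
    have h := hasSum_sum_of_ne_finset_zero (f := fun n : ℕ × ℕ =>
      bb (n.1 + 1) n.2 * x ^ n.1 * y ^ n.2) (s := {(3, 0), (4, 0), (5, 0), (1, 3), (2, 3)})
      (L := SummationFilter.unconditional _) (by
        rintro ⟨i, j⟩ hn
        simp only [Finset.mem_insert, Finset.mem_singleton, Prod.mk.injEq, not_or, not_and] at hn
        have : bb (i + 1) j = 0 := by
          simp only [bb, Prod.mk.injEq]
          rw [if_neg (by omega), if_neg (by omega), if_neg (by omega), if_neg (by omega),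
            if_neg (by omega)]
        simp [this])
    have e : ∑ n ∈ ({(3, 0), (4, 0), (5, 0), (1, 3), (2, 3)} : Finset (ℕ × ℕ)),
        bb (n.1 + 1) n.2 * x ^ n.1 * y ^ n.2 = (ZZ (x, y)).2 := by
      rw [Finset.sum_insert (by decide), Finset.sum_insert (by decide),
        Finset.sum_insert (by decide), Finset.sum_insert (by decide), Finset.sum_singleton]
      simp [bb, ZZ]
      ring
    rw [e] at h
    exact h

theorem isExpression_id : IsExpression ZZ id ZZ :=
  Eventually.of_forall fun z => by simp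

theorem chartData_id : ChartData id 1 0 0 1 := by
  refine ⟨by norm_num, rfl, analyticAt_id, fun z => ?_⟩
  simp

theorem isChart_id : IsChart (id : ℝ × ℝ → ℝ × ℝ) := by
  refine ⟨analyticAt_id, rfl, ?_⟩
  rw [fderiv_id]
  exact Function.bijective_id

theorem Shape.isEdge {a b : ℕ → ℕ → ℝ} {p₀ q₀ m u v : ℕ} (h : Shape a b p₀ q₀ m u v)
    (hu0 : 0 < u) : IsEdge a b p₀ q₀ := by
  refine ⟨h.hp, h.hq, h.cop, ?_⟩
  have hu : (p₀ : ℝ) * u = m := by exact_mod_cast h.hu
  have hv : (q₀ : ℝ) * v = m := by exact_mod_cast h.hv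
  refine ⟨((u : ℝ), (0 : ℝ)), ⟨h.mem_right, fun w hw => ?_⟩, ((0 : ℝ), (v : ℝ)),
    ⟨h.mem_left, fun w hw => ?_⟩, ?_⟩
  · have := (h.subset hw).2.2
    simp only [mul_zero, add_zero, hu]
    exact this
  · have := (h.subset hw).2.2
    simp only [mul_zero, zero_add, hv]
    exact this
  · intro heq
    have := congrArg Prod.fst heq
    simp only at this
    have h0 : u = 0 := by exact_mod_cast this
    omega

theorem continuous_radial (a b : ℕ → ℕ → ℝ) (p q : ℕ) : Continuous (radial a b p q) := by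
  unfold radial leadP leadQ
  fun_prop

theorem continuous_angular (a b : ℕ → ℕ → ℝ) (p q : ℕ) : Continuous (angular a b p q) := by
  unfold angular leadP leadQ
  fun_prop

theorem isCompact_cut (G : ℝ → ℝ) (ε : ℝ) : IsCompact (cut G ε) := by
  have hEc : IsClosed {φ : ℝ | ∀ z, G z = 0 → ε ≤ |φ - z|} := by
    have : {φ : ℝ | ∀ z, G z = 0 → ε ≤ |φ - z|} = ⋂ z, ⋂ (_ : G z = 0), {φ | ε ≤ |φ - z|} := by
      ext φ; simp
    rw [this]
    refine isClosed_iInter fun z => isClosed_iInter fun _ => ?_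
    exact isClosed_le continuous_const (by fun_prop)
  exact isCompact_Icc.inter_right hEc

theorem hasPV_of_symm {F G : ℝ → ℝ} {c : ℝ} (hFc : Continuous F) (hGc : Continuous G)
    (hF : ∀ φ, F (φ + 2 * Real.pi) = F φ) (hG : ∀ φ, G (φ + 2 * Real.pi) = G φ)
    (hF' : ∀ φ, F (c - φ) = -F φ) (hG' : ∀ φ, G (c - φ) = G φ) : HasPV F G 0 := by
  constructor
  · intro ε hε
    refine ContinuousOn.integrableOn_compact (isCompact_cut G ε) ?_
    refine hFc.continuousOn.div hGc.continuousOn fun φ hφ h0 => ?_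
    have := hφ.2 φ h0
    rw [sub_self, abs_zero] at this
    linarith
  · have h2 : (fun ε => ∫ φ in cut G ε, F φ / G φ) = fun _ => 0 :=
      funext fun ε => cut_integral_zero (c := c) (fun φ => by rw [hF, hG])
        (fun φ => by rw [hG]) (fun φ => by rw [hF', hG', neg_div]) (fun φ => by rw [hG']) ε
    rw [h2]
    exact tendsto_const_nhds

theorem conditions_ZZ : ∃ (l : ℕ) (p q : ℕ → ℕ) (v : ℕ → ℕ × ℕ) (ξ : ℕ → ℝ),
    0 < l ∧ Conditions aa bb l p q v ξ := by
  obtain ⟨hs, hP, hQ⟩ := newton_main isExpansion_ZZ (p := 3) (q := 2) (m := 12) (u := 4) (v := 6)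
      (by norm_num) (by norm_num) (by norm_num) (by norm_num) (by norm_num) (by norm_num)
      (by norm_num)
      (P := fun X Y => 3 * 1 * (Y / 1) ^ 2 * ((X / 1) ^ 2 - (Y / 1) ^ 3))
      (Q := fun X Y => 2 * 1 * (X / 1) * ((X / 1) ^ 2 - (Y / 1) ^ 3))
      (fun X Y => (case_two chartData_id isExpression_id rfl X Y).1)
      (fun X Y => (case_two chartData_id isExpression_id rfl X Y).2)
      (by norm_num) (by norm_num)
  refine ⟨1, fun _ => 3, fun _ => 2, fun _ => (0, 0), fun _ => 0, one_pos, ?_⟩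
  refine ⟨fun i _ => hs.isEdge (by norm_num), fun p' q' h => ?_, ?_, ?_, ?_, ?_⟩
  · obtain ⟨h1, h2⟩ := hs.edge_eq h
    exact ⟨1, ⟨le_rfl, le_rfl⟩, h1.symm, h2.symm⟩
  · intro i hi j hj hij
    have := hi.1
    have := hj.2
    omega
  · intro i hi
    have := hi.1
    have := hi.2
    omega
  · intro i hi
    have := hi.1
    have := hi.2
    omega
  · intro i _
    refine hasPV_of_symm (c := Real.pi) (continuous_radial _ _ _ _) (continuous_angular _ _ _ _)
      (radial_per _ _ _ _) (angular_per _ _ _ _) ?_ ?_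
    · intro φ
      simp only [radial, hP, hQ, Real.cos_pi_sub, Real.sin_pi_sub]
      ring
    · intro φ
      simp only [angular, hP, hQ, Real.cos_pi_sub, Real.sin_pi_sub]
      ring

theorem return_ZZ : (∃ R, IsReturnMap ZZ R) ∧
    ∀ R, IsReturnMap ZZ R → HasLeadingCoeff R (Real.exp Real.pi) := by
  have hΦ := chartData_id
  have hW := isExpression_id
  obtain ⟨K, U₀, hU₀, hK⟩ := exists_lipschitz hΦ hW
  obtain ⟨Θ, -, -, -, -, hopen⟩ := hΦ.inverse
  have hd : ∀ᶠ z in 𝓝 (0 : ℝ × ℝ), DifferentiableAt ℝ id z :=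
    Eventually.of_forall fun z => differentiableAt_id
  have hpi := Real.pi_pos
  have hA := asym_one hΦ hW one_ne_zero (θs := 0) (τ := 1) (Or.inl rfl)
    (fun θ => by rw [sub_zero]; ring) (fun θ => by rw [sub_zero]; ring) (by norm_num)
    ⟨0, Or.inl ⟨by push_cast; linarith, by push_cast; linarith, by rw [hh]; norm_num⟩⟩
  have h := returnMap_of hU₀ hK fun U hU ε hε =>
    turn hd tendsto_id hΦ.zero hopen hW hA hU hε
  have e : Real.exp (3 * (Real.pi / 3)) = Real.exp Real.pi := by congr 1; ring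
  rw [e] at h
  exact h

theorem HasLeadingCoeff.unique {R : ℝ → ℝ} {η η' : ℝ} (h : HasLeadingCoeff R η)
    (h' : HasLeadingCoeff R η') : η = η' := tendsto_nhds_unique h h'

theorem main : ∃ (Z : ℝ × ℝ → ℝ × ℝ) (a b : ℕ → ℕ → ℝ),
    (∀ x y : ℝ, Z (x, y) = (3 * x ^ 2 * y ^ 2 + 3 * x ^ 3 * y ^ 2 - 3 * y ^ 5,
      2 * x ^ 3 - x ^ 4 + 3 * x ^ 5 - 2 * x * y ^ 3 + 3 * x ^ 2 * y ^ 3)) ∧ IsExpansion Z a b ∧
    (∃ (l : ℕ) (p q : ℕ → ℕ) (v : ℕ → ℕ × ℕ) (ξ : ℕ → ℝ), 0 < l ∧ Conditions a b l p q v ξ) ∧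
    (∃ R, IsReturnMap Z R ∧ HasLeadingCoeff R (Real.exp Real.pi)) ∧
    ∀ Φ W : ℝ × ℝ → ℝ × ℝ, IsChart Φ → IsExpression Z Φ W →
      (∃ R η, IsReturnMap W R ∧ HasLeadingCoeff R η) ∧
      ∀ (R : ℝ → ℝ) (η : ℝ), IsReturnMap W R → HasLeadingCoeff R η →
        (η = Real.exp Real.pi ∨ η = Real.exp (2 * Real.pi / 3)) ∧
        ∀ (a' b' : ℕ → ℕ → ℝ) (l : ℕ) (p q : ℕ → ℕ) (v : ℕ → ℕ × ℕ) (ξ : ℕ → ℝ),
          IsExpansion W a' b' → Conditions a' b' l p q v ξ →
          exponent a' b' l p q v ξ = 0 ∧ ∀ σ : ℝ, σ = 1 ∨ σ = -1 →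
            η ≠ Real.exp (σ * exponent a' b' l p q v ξ) := by
  have hpi := Real.pi_pos
  refine ⟨ZZ, aa, bb, fun _ _ => rfl, isExpansion_ZZ, conditions_ZZ, ?_, ?_⟩
  · obtain ⟨⟨R, hR⟩, h⟩ := return_ZZ
    exact ⟨R, hR, h R hR⟩
  · intro Φ W hΦ hW
    obtain ⟨η₀, hη₀, ⟨R₀, hR₀⟩, h⟩ := chart_return hΦ hW
    refine ⟨⟨R₀, η₀, hR₀, h R₀ hR₀⟩, fun R η hR hη => ?_⟩
    have e : η = η₀ := hη.unique (h R hR)
    rw [e]
    refine ⟨hη₀, fun a' b' l p q v ξ hE hC => ?_⟩
    have hexp : exponent a' b' l p q v ξ = 0 := by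
      rw [exponent]
      refine Finset.sum_eq_zero fun i hi => ?_
      have hi' : i ∈ Icc 1 l := Finset.mem_Icc.1 hi
      rw [pv_zero hΦ hW hE (hC.edge i hi') (hC.pv i hi'), mul_zero]
    refine ⟨hexp, fun σ _ => ?_⟩
    rw [hexp, mul_zero, Real.exp_zero]
    rcases hη₀ with h1 | h1
    · rw [h1]
      exact (Real.one_lt_exp_iff.2 hpi).ne'
    · rw [h1]
      exact (Real.one_lt_exp_iff.2 (by positivity)).ne'

end Pool.Agent.Y305.MR
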