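import Pool.Agent.Y305.MR.Defs

/-! Principal values of odd functions vanish. -/

set_option autoImplicit false

open Set Filter Topology MeasureTheory

noncomputable section

namespace Pool.Agent.Y305.MR

theorem cut_integral_zero {F G : ℝ → ℝ} {c : ℝ}
    (hper : ∀ φ, F (φ + 2 * Real.pi) / G (φ + 2 * Real.pi) = F φ / G φ)
    (hperz : ∀ φ, G (φ + 2 * Real.pi) = 0 ↔ G φ = 0)
    (hodd : ∀ φ, F (c - φ) / G (c - φ) = -(F φ / G φ))
    (hsymz : ∀ φ, G (c - φ) = 0 ↔ G φ = 0) (ε : ℝ) :
    ∫ φ in cut G ε, F φ / G φ = 0 := by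
  have hpi := Real.pi_pos
  set E : Set ℝ := {φ | ∀ z, G z = 0 → ε ≤ |φ - z|} with hE
  have hcut : cut G ε = Icc 0 (2 * Real.pi) ∩ E := rfl
  have hEc : IsClosed E := by
    have : E = ⋂ z, ⋂ (_ : G z = 0), {φ | ε ≤ |φ - z|} := by
      ext φ; simp [hE]
    rw [this]
    refine isClosed_iInter fun z => isClosed_iInter fun _ => ?_
    exact isClosed_le continuous_const (by fun_prop)
  set f : ℝ → ℝ := fun φ => F φ / G φ with hf
  set g : ℝ → ℝ := E.indicator f with hg
  have hEper : ∀ φ, φ + 2 * Real.pi ∈ E ↔ φ ∈ E := by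
    intro φ
    constructor
    · intro h z hz
      have := h (z + 2 * Real.pi) ((hperz z).2 hz)
      rwa [add_sub_add_right_eq_sub] at this
    · intro h z hz
      have h1 : G (z - 2 * Real.pi) = 0 := by
        rw [← hperz, sub_add_cancel]; exact hz
      have := h _ h1
      rwa [sub_sub_eq_add_sub] at this
  have hEsym : ∀ φ, c - φ ∈ E ↔ φ ∈ E := by
    intro φ
    constructor
    · intro h z hz
      have := h (c - z) ((hsymz z).2 hz)
      rwa [sub_sub_sub_cancel_left, abs_sub_comm] at this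
    · intro h z hz
      have h1 : G (c - z) = 0 := (hsymz z).2 hz
      have := h _ h1
      rw [abs_sub_comm] at this
      rwa [show c - z - φ = c - φ - z by ring] at this
  have hgper : Function.Periodic g (2 * Real.pi) := by
    intro φ
    simp only [hg, indicator]
    by_cases h : φ ∈ E
    · rw [if_pos h, if_pos ((hEper φ).2 h)]; exact hper φ
    · rw [if_neg h, if_neg (fun h' => h ((hEper φ).1 h'))]
  have hgodd : ∀ φ, g (c - φ) = -g φ := by
    intro φ
    simp only [hg, indicator]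
    by_cases h : φ ∈ E
    · rw [if_pos h, if_pos ((hEsym φ).2 h)]; exact hodd φ
    · rw [if_neg h, if_neg (fun h' => h ((hEsym φ).1 h')), neg_zero]
  rw [hcut, ← setIntegral_indicator hEc.measurableSet, integral_Icc_eq_integral_Ioc,
    ← intervalIntegral.integral_of_le (by positivity)]
  have h1 : ∫ φ in (0 : ℝ)..2 * Real.pi, g (c - φ) = ∫ φ in (c - 2 * Real.pi)..(c - 0), g φ :=
    intervalIntegral.integral_comp_sub_left _ _
  have h2 : ∫ φ in (c - 2 * Real.pi)..(c - 0), g φ = ∫ φ in (0 : ℝ)..2 * Real.pi, g φ := by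
    have := hgper.intervalIntegral_add_eq (c - 2 * Real.pi) 0
    rw [zero_add] at this
    rw [← this]
    congr 1
    ring
  have h3 : ∫ φ in (0 : ℝ)..2 * Real.pi, g (c - φ) = -∫ φ in (0 : ℝ)..2 * Real.pi, g φ := by
    rw [← intervalIntegral.integral_neg]
    exact intervalIntegral.integral_congr fun φ _ => hgodd φ
  have h4 : ∫ φ in (0 : ℝ)..2 * Real.pi, g φ = 0 := by linarith
  exact h4

theorem HasPV.eq_zero {F G : ℝ → ℝ} {c ξ : ℝ} (h : HasPV F G ξ)
    (hper : ∀ φ, F (φ + 2 * Real.pi) / G (φ + 2 * Real.pi) = F φ / G φ)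
    (hperz : ∀ φ, G (φ + 2 * Real.pi) = 0 ↔ G φ = 0)
    (hodd : ∀ φ, F (c - φ) / G (c - φ) = -(F φ / G φ))
    (hsymz : ∀ φ, G (c - φ) = 0 ↔ G φ = 0) : ξ = 0 := by
  have h1 := h.2
  have h2 : (fun ε => ∫ φ in cut G ε, F φ / G φ) = fun _ => 0 :=
    funext fun ε => cut_integral_zero hper hperz hodd hsymz ε
  rw [h2] at h1
  exact (tendsto_nhds_unique h1 tendsto_const_nhds)

end Pool.Agent.Y305.MR
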