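import Pool.Agent.Y305.MR.Defs

/-! Quasihomogeneous leading terms of convergent series. -/

set_option autoImplicit false

open Set Filter Topology

noncomputable section

namespace Pool.Agent.Y305.MR

theorem mul_pred {q n : ℕ} (h : 0 < n) : q * n = q * (n - 1) + q := by
  obtain ⟨k, rfl⟩ : ∃ k, n = k + 1 := ⟨n - 1, by omega⟩
  rw [Nat.add_sub_cancel, mul_add, mul_one]

theorem mem_line {p q m : ℕ} (hp : 0 < p) (hq : 0 < q) {n : ℕ × ℕ} :
    n ∈ line p q m ↔ p * n.1 + q * n.2 = m := by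
  rw [line, Finset.mem_filter, Finset.mem_product, Finset.mem_range, Finset.mem_range]
  constructor
  · exact fun h => h.2
  · intro h
    refine ⟨⟨?_, ?_⟩, h⟩
    · have : n.1 ≤ p * n.1 := Nat.le_mul_of_pos_left _ hp
      omega
    · have : n.2 ≤ q * n.2 := Nat.le_mul_of_pos_left _ hq
      omega

theorem IsSeries.limit {g : ℝ × ℝ → ℝ} {c : ℕ → ℕ → ℝ} (h : IsSeries g c) {p q k : ℕ}
    (hp : 0 < p) (hq : 0 < q) (hk : ∀ i j, p * i + q * j < k → c i j = 0) (X Y : ℝ) :
    Tendsto (fun t : ℝ => (t ^ k)⁻¹ * g (t ^ p * X, t ^ q * Y)) (𝓝[>] 0)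
      (𝓝 (∑ n ∈ line p q k, c n.1 n.2 * X ^ n.1 * Y ^ n.2)) := by
  obtain ⟨r, hr, hsum⟩ := h
  -- choose `t₀`
  have hex : ∀ᶠ t : ℝ in 𝓝[>] 0, |t ^ p * X| < r ∧ |t ^ q * Y| < r := by
    have c1 : Tendsto (fun t : ℝ => |t ^ p * X|) (𝓝[>] 0) (𝓝 0) := by
      have : Continuous fun t : ℝ => |t ^ p * X| := by fun_prop
      have h1 := (this.tendsto 0).mono_left (nhdsWithin_le_nhds (s := Ioi 0))
      simpa [hp.ne'] using h1
    have c2 : Tendsto (fun t : ℝ => |t ^ q * Y|) (𝓝[>] 0) (𝓝 0) := by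
      have : Continuous fun t : ℝ => |t ^ q * Y| := by fun_prop
      have h1 := (this.tendsto 0).mono_left (nhdsWithin_le_nhds (s := Ioi 0))
      simpa [hq.ne'] using h1
    exact (c1.eventually (gt_mem_nhds hr)).and (c2.eventually (gt_mem_nhds hr))
  obtain ⟨t₀, ⟨hX₀, hY₀⟩, ht₀⟩ := (hex.and self_mem_nhdsWithin).exists
  have ht₀' : 0 < t₀ := ht₀
  have hs₀ := (hsum _ _ hX₀ hY₀).summable
  set term : ℝ → ℕ × ℕ → ℝ := fun t n =>
    (t ^ k)⁻¹ * (c n.1 n.2 * (t ^ p * X) ^ n.1 * (t ^ q * Y) ^ n.2) with hterm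
  have hterm' : ∀ t : ℝ, 0 < t → ∀ n : ℕ × ℕ, p * n.1 + q * n.2 ≥ k →
      term t n = c n.1 n.2 * X ^ n.1 * Y ^ n.2 * t ^ (p * n.1 + q * n.2 - k) := by
    intro t ht n hn
    simp only [hterm]
    have : t ^ (p * n.1 + q * n.2) = t ^ (p * n.1 + q * n.2 - k) * t ^ k := by
      rw [← pow_add, Nat.sub_add_cancel hn]
    have htk : t ^ k ≠ 0 := by positivity
    rw [mul_pow, mul_pow, ← pow_mul, ← pow_mul]
    calc (t ^ k)⁻¹ * (c n.1 n.2 * (t ^ (p * n.1) * X ^ n.1) * (t ^ (q * n.2) * Y ^ n.2)) =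
        (t ^ k)⁻¹ * (c n.1 n.2 * X ^ n.1 * Y ^ n.2 * t ^ (p * n.1 + q * n.2)) := by
          rw [pow_add]; ring
      _ = _ := by rw [this]; field_simp
  have hterm0 : ∀ t : ℝ, ∀ n : ℕ × ℕ, p * n.1 + q * n.2 < k → term t n = 0 := by
    intro t n hn
    simp only [hterm]
    rw [hk _ _ hn]; ring
  have hlim : Tendsto (fun t => ∑' n, term t n) (𝓝[>] 0)
      (𝓝 (∑' n : ℕ × ℕ, if p * n.1 + q * n.2 = k then c n.1 n.2 * X ^ n.1 * Y ^ n.2 else 0)) := by
    refine tendsto_tsum_of_dominated_convergence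
      (bound := fun n => ‖term t₀ n‖) ?_ ?_ ?_
    · exact (hs₀.mul_left _).norm
    · intro n
      rcases lt_trichotomy (p * n.1 + q * n.2) k with hn | hn | hn
      · rw [if_neg hn.ne]
        refine tendsto_const_nhds.congr fun t => (hterm0 t n hn).symm
      · rw [if_pos hn]
        refine tendsto_const_nhds.congr' ?_
        filter_upwards [self_mem_nhdsWithin] with t ht
        rw [hterm' t ht n hn.ge, hn, Nat.sub_self, pow_zero, mul_one]
      · rw [if_neg hn.ne']
        have h1 : Tendsto (fun t : ℝ => c n.1 n.2 * X ^ n.1 * Y ^ n.2 *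
            t ^ (p * n.1 + q * n.2 - k)) (𝓝[>] 0) (𝓝 0) := by
          have : Continuous fun t : ℝ => c n.1 n.2 * X ^ n.1 * Y ^ n.2 *
            t ^ (p * n.1 + q * n.2 - k) := by fun_prop
          have h2 := (this.tendsto 0).mono_left (nhdsWithin_le_nhds (s := Ioi 0))
          have h3 : p * n.1 + q * n.2 - k ≠ 0 := by omega
          rwa [zero_pow h3, mul_zero] at h2
        refine h1.congr' ?_
        filter_upwards [self_mem_nhdsWithin] with t ht
        rw [hterm' t ht n hn.le]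
    · have : ∀ᶠ t : ℝ in 𝓝[>] 0, t ∈ Ioo 0 t₀ := Ioo_mem_nhdsGT ht₀'
      filter_upwards [this] with t ht n
      rcases lt_or_ge (p * n.1 + q * n.2) k with hn | hn
      · rw [hterm0 t n hn, hterm0 t₀ n hn]
      · rw [hterm' t ht.1 n hn, hterm' t₀ ht₀' n hn, norm_mul,
          norm_mul (c n.1 n.2 * X ^ n.1 * Y ^ n.2) (t₀ ^ _)]
        refine mul_le_mul_of_nonneg_left ?_ (norm_nonneg _)
        rw [norm_pow, norm_pow, Real.norm_eq_abs, Real.norm_eq_abs, abs_of_pos ht.1,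
          abs_of_pos ht₀']
        exact pow_le_pow_left₀ ht.1.le ht.2.le _
  have hval : (∑' n : ℕ × ℕ, if p * n.1 + q * n.2 = k then c n.1 n.2 * X ^ n.1 * Y ^ n.2 else 0) =
      ∑ n ∈ line p q k, c n.1 n.2 * X ^ n.1 * Y ^ n.2 := by
    rw [tsum_eq_sum (s := line p q k)]
    · refine Finset.sum_congr rfl fun n hn => ?_
      rw [if_pos ((mem_line hp hq).1 hn)]
    · intro n hn
      rw [if_neg fun h => hn ((mem_line hp hq).2 h)]
  rw [hval] at hlim
  refine hlim.congr' ?_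
  filter_upwards [hex] with t ht
  rw [← (hsum _ _ ht.1 ht.2).tsum_eq, tsum_mul_left]

theorem line_coeff {p q k : ℕ} (hp : 0 < p) (hq : 0 < q) {c : ℕ → ℕ → ℝ}
    (h : ∀ X Y : ℝ, ∑ n ∈ line p q k, c n.1 n.2 * X ^ n.1 * Y ^ n.2 = 0) {i j : ℕ}
    (hij : p * i + q * j = k) : c i j = 0 := by
  set P : Polynomial ℝ := ∑ n ∈ line p q k, Polynomial.C (c n.1 n.2) * Polynomial.X ^ n.1 with hP
  have hP0 : P = 0 := by
    refine Polynomial.funext fun X => ?_
    rw [hP, Polynomial.eval_finsetSum, Polynomial.eval_zero, ← h X 1]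
    refine Finset.sum_congr rfl fun n _ => ?_
    simp
  have h1 : P.coeff i = c i j := by
    rw [hP, Polynomial.finsetSum_coeff, Finset.sum_eq_single (i, j)]
    · simp
    · rintro ⟨i', j'⟩ hn hne
      rw [mem_line hp hq] at hn
      simp only at hn
      rw [Polynomial.coeff_C_mul, Polynomial.coeff_X_pow, if_neg, mul_zero]
      rintro rfl
      apply hne
      have : q * j' = q * j := by omega
      rw [Nat.eq_of_mul_eq_mul_left hq this]
    · intro hn
      exact absurd ((mem_line hp hq).2 hij) hn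
  rw [← h1, hP0, Polynomial.coeff_zero]

theorem IsSeries.unique {g : ℝ × ℝ → ℝ} {c : ℕ → ℕ → ℝ} (h : IsSeries g c) {p q N : ℕ}
    (hp : 0 < p) (hq : 0 < q) {P : ℝ → ℝ → ℝ}
    (hP : ∀ X Y : ℝ, Tendsto (fun t : ℝ => (t ^ N)⁻¹ * g (t ^ p * X, t ^ q * Y)) (𝓝[>] 0)
      (𝓝 (P X Y))) :
    (∀ i j, p * i + q * j < N → c i j = 0) ∧
      ∀ X Y, ∑ n ∈ line p q N, c n.1 n.2 * X ^ n.1 * Y ^ n.2 = P X Y := by
  have key : ∀ k ≤ N, ∀ i j, p * i + q * j < k → c i j = 0 := by
    intro k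
    induction k with
    | zero => intro _ i j h; omega
    | succ k ih =>
      intro hk i j hij
      have ih' := ih (by omega)
      rcases Nat.lt_succ_iff_lt_or_eq.1 hij with h1 | h1
      · exact ih' i j h1
      · refine line_coeff hp hq (k := k) (fun X Y => ?_) h1
        have l1 := h.limit hp hq ih' X Y
        have l2 : Tendsto (fun t : ℝ => t ^ (N - k) *
            ((t ^ N)⁻¹ * g (t ^ p * X, t ^ q * Y))) (𝓝[>] 0) (𝓝 0) := by
          have c1 : Tendsto (fun t : ℝ => t ^ (N - k)) (𝓝[>] 0) (𝓝 0) := by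
            have : Continuous fun t : ℝ => t ^ (N - k) := by fun_prop
            have h2 := (this.tendsto 0).mono_left (nhdsWithin_le_nhds (s := Ioi 0))
            rwa [zero_pow (by omega)] at h2
          have := c1.mul (hP X Y)
          rwa [zero_mul] at this
        have l3 : Tendsto (fun t : ℝ => (t ^ k)⁻¹ * g (t ^ p * X, t ^ q * Y)) (𝓝[>] 0) (𝓝 0) := by
          refine l2.congr' ?_
          filter_upwards [self_mem_nhdsWithin] with t ht
          have ht' : (t : ℝ) ≠ 0 := (show (0 : ℝ) < t from ht).ne'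
          have : t ^ N = t ^ (N - k) * t ^ k := by
            rw [← pow_add, Nat.sub_add_cancel (by omega)]
          rw [this]
          field_simp
        exact tendsto_nhds_unique l1 l3
  refine ⟨key N le_rfl, fun X Y => ?_⟩
  exact tendsto_nhds_unique (h.limit hp hq (key N le_rfl) X Y) (hP X Y)

theorem sum_line_zero_one {p q N w : ℕ} (hp : 0 < p) (hq : 0 < q) (c : ℕ → ℕ → ℝ)
    (hw : q * w = N) : ∑ n ∈ line p q N, c n.1 n.2 * (0 : ℝ) ^ n.1 * 1 ^ n.2 = c 0 w := by
  rw [Finset.sum_eq_single (0, w)]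
  · simp
  · rintro ⟨i, j⟩ hn hne
    rw [mem_line hp hq] at hn
    simp only at hn
    have hi : i ≠ 0 := by
      rintro rfl
      apply hne
      have : q * j = q * w := by omega
      rw [Nat.eq_of_mul_eq_mul_left hq this]
    simp [hi]
  · intro hn
    exact absurd ((mem_line hp hq).2 (by simp [hw])) hn

theorem sum_line_one_zero {p q N w : ℕ} (hp : 0 < p) (hq : 0 < q) (c : ℕ → ℕ → ℝ)
    (hw : p * w = N) : ∑ n ∈ line p q N, c n.1 n.2 * (1 : ℝ) ^ n.1 * 0 ^ n.2 = c w 0 := by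
  rw [Finset.sum_eq_single (w, 0)]
  · simp
  · rintro ⟨i, j⟩ hn hne
    rw [mem_line hp hq] at hn
    simp only at hn
    have hj : j ≠ 0 := by
      rintro rfl
      apply hne
      have : p * i = p * w := by omega
      rw [Nat.eq_of_mul_eq_mul_left hp this]
    simp [hj]
  · intro hn
    exact absurd ((mem_line hp hq).2 (by simp [hw])) hn

/-- The Newton diagram is a single edge with weights `(p₀, q₀)`. -/
structure Shape (a b : ℕ → ℕ → ℝ) (p₀ q₀ m u v : ℕ) : Prop where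
  hp : 0 < p₀
  hq : 0 < q₀
  cop : p₀.Coprime q₀
  low : ∀ n ∈ supp a b, m ≤ p₀ * n.1 + q₀ * n.2
  left : (0, v) ∈ supp a b
  right : (u, 0) ∈ supp a b
  hu : p₀ * u = m
  hv : q₀ * v = m

theorem Shape.level_eq {a b : ℕ → ℕ → ℝ} {p₀ q₀ m u v : ℕ} (h : Shape a b p₀ q₀ m u v) :
    level a b p₀ q₀ = m := by
  have hne : {k | ∃ n ∈ supp a b, p₀ * n.1 + q₀ * n.2 = k}.Nonempty :=
    ⟨m, (u, 0), h.right, by simp [h.hu]⟩
  apply le_antisymm
  · exact Nat.sInf_le ⟨(u, 0), h.right, by simp [h.hu]⟩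
  · obtain ⟨n, hn, hn'⟩ := Nat.sInf_mem hne
    rw [level, ← hn']
    exact h.low n hn

theorem Shape.subset {a b : ℕ → ℕ → ℝ} {p₀ q₀ m u v : ℕ} (h : Shape a b p₀ q₀ m u v) :
    newtonPolygon a b ⊆ {w | 0 ≤ w.1 ∧ 0 ≤ w.2 ∧ (m : ℝ) ≤ p₀ * w.1 + q₀ * w.2} := by
  refine convexHull_min ?_ ?_
  · rintro w ⟨n, hn, h1, h2⟩
    have h3 : (m : ℝ) ≤ p₀ * n.1 + q₀ * n.2 := by exact_mod_cast h.low n hn
    refine ⟨(Nat.cast_nonneg _).trans h1, (Nat.cast_nonneg _).trans h2, h3.trans ?_⟩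
    gcongr
  · intro x hx y hy s t hs ht hst
    obtain ⟨x1, x2, x3⟩ := hx
    obtain ⟨y1, y2, y3⟩ := hy
    refine ⟨?_, ?_, ?_⟩
    · show 0 ≤ s * x.1 + t * y.1
      positivity
    · show 0 ≤ s * x.2 + t * y.2
      positivity
    · show (m : ℝ) ≤ p₀ * (s * x.1 + t * y.1) + q₀ * (s * x.2 + t * y.2)
      have e : (m : ℝ) = s * m + t * m := by rw [← add_mul, hst, one_mul]
      rw [e]
      have h1 := mul_le_mul_of_nonneg_left x3 hs
      have h2 := mul_le_mul_of_nonneg_left y3 ht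
      linarith

theorem Shape.mem_left {a b : ℕ → ℕ → ℝ} {p₀ q₀ m u v : ℕ} (h : Shape a b p₀ q₀ m u v) :
    ((0 : ℝ), (v : ℝ)) ∈ newtonPolygon a b :=
  subset_convexHull ℝ _ ⟨(0, v), h.left, by simp, by simp⟩

theorem Shape.mem_right {a b : ℕ → ℕ → ℝ} {p₀ q₀ m u v : ℕ} (h : Shape a b p₀ q₀ m u v) :
    ((u : ℝ), (0 : ℝ)) ∈ newtonPolygon a b :=
  subset_convexHull ℝ _ ⟨(u, 0), h.right, by simp, by simp⟩

theorem Shape.edge_eq {a b : ℕ → ℕ → ℝ} {p₀ q₀ m u v : ℕ} (h : Shape a b p₀ q₀ m u v) {p q : ℕ}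
    (he : IsEdge a b p q) : p = p₀ ∧ q = q₀ := by
  obtain ⟨hp, hq, hcop, hnt⟩ := he
  have hp0 : (0 : ℝ) < p₀ := by exact_mod_cast h.hp
  have hq0 : (0 : ℝ) < q₀ := by exact_mod_cast h.hq
  have hp' : (0 : ℝ) < p := by exact_mod_cast hp
  have hq' : (0 : ℝ) < q := by exact_mod_cast hq
  have hu : (p₀ : ℝ) * u = m := by exact_mod_cast h.hu
  have hv : (q₀ : ℝ) * v = m := by exact_mod_cast h.hv
  have heq : p * q₀ = q * p₀ := by
    rcases lt_trichotomy (p * q₀) (q * p₀) with hlt | heq | hgt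
    · exfalso
      have hlt' : (p : ℝ) * q₀ < q * p₀ := by exact_mod_cast hlt
      refine hnt.not_subsingleton ?_
      have key : ∀ w ∈ face a b p q, w = ((u : ℝ), (0 : ℝ)) := by
        intro w hw
        obtain ⟨w1, w2, w3⟩ := h.subset hw.1
        have h1 := hw.2 _ h.mem_right
        simp only [mul_zero, add_zero] at h1
        have hw2 : w.2 = 0 := by
          have h2 := mul_le_mul_of_nonneg_left h1 hp0.le
          have h3 := mul_le_mul_of_nonneg_left w3 hp'.le
          have h4 : ((q : ℝ) * p₀ - p * q₀) * w.2 ≤ 0 := by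
            have : (p₀ : ℝ) * (p * u) = p * m := by rw [← hu]; ring
            rw [this] at h2
            nlinarith
          have h5 : 0 < (q : ℝ) * p₀ - p * q₀ := by linarith
          nlinarith
        rw [hw2, mul_zero, add_zero] at w3 h1
        have hw1 : w.1 = u := by
          apply le_antisymm
          · exact le_of_mul_le_mul_left h1 hp'
          · rw [← hu] at w3
            exact le_of_mul_le_mul_left w3 hp0
        exact Prod.ext hw1 hw2
      intro x hx y hy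
      rw [key x hx, key y hy]
    · exact heq
    · exfalso
      have hgt' : (q : ℝ) * p₀ < p * q₀ := by exact_mod_cast hgt
      refine hnt.not_subsingleton ?_
      have key : ∀ w ∈ face a b p q, w = ((0 : ℝ), (v : ℝ)) := by
        intro w hw
        obtain ⟨w1, w2, w3⟩ := h.subset hw.1
        have h1 := hw.2 _ h.mem_left
        simp only [mul_zero, zero_add] at h1
        have hw2 : w.1 = 0 := by
          have h2 := mul_le_mul_of_nonneg_left h1 hq0.le
          have h3 := mul_le_mul_of_nonneg_left w3 hq'.le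
          have h4 : ((p : ℝ) * q₀ - q * p₀) * w.1 ≤ 0 := by
            have : (q₀ : ℝ) * (q * v) = q * m := by rw [← hv]; ring
            rw [this] at h2
            nlinarith
          have h5 : 0 < (p : ℝ) * q₀ - q * p₀ := by linarith
          nlinarith
        rw [hw2, mul_zero, zero_add] at w3 h1
        have hw1 : w.2 = v := by
          apply le_antisymm
          · exact le_of_mul_le_mul_left h1 hq'
          · rw [← hv] at w3
            exact le_of_mul_le_mul_left w3 hq0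
        exact Prod.ext hw2 hw1
      intro x hx y hy
      rw [key x hx, key y hy]
  have d1 : p ∣ p₀ := by
    have : p ∣ q * p₀ := ⟨q₀, heq.symm⟩
    exact hcop.dvd_of_dvd_mul_left this
  have d2 : p₀ ∣ p := by
    have : p₀ ∣ p * q₀ := ⟨q, by rw [heq, mul_comm]⟩
    exact h.cop.dvd_of_dvd_mul_right this
  have e1 : p = p₀ := Nat.dvd_antisymm d1 d2
  refine ⟨e1, ?_⟩
  rw [e1] at heq
  have : p₀ * q₀ = p₀ * q := by rw [heq, mul_comm]
  exact (Nat.eq_of_mul_eq_mul_left h.hp this).symm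

theorem leadP_eq {a b : ℕ → ℕ → ℝ} {p q m : ℕ} (hp : 0 < p) (hq : 0 < q) (hqm : q ≤ m)
    (hl : level a b p q = m) (ha : ∀ i, a i 0 = 0) (X Y : ℝ) :
    leadP a b p q X Y = ∑ n ∈ line p q (m - q), a n.1 (n.2 + 1) * X ^ n.1 * Y ^ n.2 := by
  rw [leadP, hl]
  symm
  refine Finset.sum_of_injOn (fun n => (n.1, n.2 + 1)) ?_ ?_ ?_ ?_
  · intro x _ y _ hxy
    have h1 := congrArg Prod.fst hxy
    have h2 := congrArg Prod.snd hxy
    simp only at h1 h2
    exact Prod.ext h1 (by omega)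
  · intro n hn
    have hn' := (mem_line hp hq).1 (Finset.mem_coe.1 hn)
    refine Finset.mem_coe.2 ((mem_line hp hq).2 ?_)
    simp only
    rw [mul_add, mul_one]
    omega
  · intro n hn hn2
    rcases Nat.eq_zero_or_pos n.2 with h0 | h0
    · rw [h0, ha]; ring
    · exfalso
      apply hn2
      refine ⟨(n.1, n.2 - 1), Finset.mem_coe.2 ((mem_line hp hq).2 ?_), ?_⟩
      · have := (mem_line hp hq).1 hn
        simp only
        have e : q * n.2 = q * (n.2 - 1) + q := mul_pred h0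
        omega
      · exact Prod.ext rfl (Nat.sub_add_cancel h0)
  · intro n _
    simp

theorem leadQ_eq {a b : ℕ → ℕ → ℝ} {p q m : ℕ} (hp : 0 < p) (hq : 0 < q) (hpm : p ≤ m)
    (hl : level a b p q = m) (hb : ∀ j, b 0 j = 0) (X Y : ℝ) :
    leadQ a b p q X Y = ∑ n ∈ line p q (m - p), b (n.1 + 1) n.2 * X ^ n.1 * Y ^ n.2 := by
  rw [leadQ, hl]
  symm
  refine Finset.sum_of_injOn (fun n => (n.1 + 1, n.2)) ?_ ?_ ?_ ?_
  · intro x _ y _ hxy
    have h1 := congrArg Prod.fst hxy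
    have h2 := congrArg Prod.snd hxy
    simp only at h1 h2
    exact Prod.ext (by omega) h2
  · intro n hn
    have hn' := (mem_line hp hq).1 (Finset.mem_coe.1 hn)
    refine Finset.mem_coe.2 ((mem_line hp hq).2 ?_)
    simp only
    rw [mul_add, mul_one]
    omega
  · intro n hn hn2
    rcases Nat.eq_zero_or_pos n.1 with h0 | h0
    · rw [h0, hb]; ring
    · exfalso
      apply hn2
      refine ⟨(n.1 - 1, n.2), Finset.mem_coe.2 ((mem_line hp hq).2 ?_), ?_⟩
      · have := (mem_line hp hq).1 hn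
        simp only
        have e : p * n.1 = p * (n.1 - 1) + p := mul_pred h0
        omega
      · exact Prod.ext (Nat.sub_add_cancel h0) rfl
  · intro n _
    simp

/-- Reading off the Newton diagram and the leading terms from the asymptotics of the field. -/
theorem newton_main {W : ℝ × ℝ → ℝ × ℝ} {a b : ℕ → ℕ → ℝ} (hW : IsExpansion W a b)
    {p q m u v : ℕ} (hp : 0 < p) (hq : 0 < q) (hcop : p.Coprime q) (hu : p * u = m)
    (hv : q * v = m) (hu0 : 0 < u) (hv0 : 0 < v) {P Q : ℝ → ℝ → ℝ}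
    (hP : ∀ X Y : ℝ, Tendsto (fun t : ℝ => (t ^ (m - q))⁻¹ * (W (t ^ p * X, t ^ q * Y)).1)
      (𝓝[>] 0) (𝓝 (P X Y)))
    (hQ : ∀ X Y : ℝ, Tendsto (fun t : ℝ => (t ^ (m - p))⁻¹ * (W (t ^ p * X, t ^ q * Y)).2)
      (𝓝[>] 0) (𝓝 (Q X Y))) (hP0 : P 0 1 ≠ 0) (hQ0 : Q 1 0 ≠ 0) :
    Shape a b p q m u v ∧ (∀ X Y, leadP a b p q X Y = P X Y) ∧
      ∀ X Y, leadQ a b p q X Y = Q X Y := by
  obtain ⟨p1, p2⟩ := hW.fst.unique hp hq hP
  obtain ⟨q1, q2⟩ := hW.snd.unique hp hq hQ
  have hqm : q ≤ m := by rw [← hv]; exact Nat.le_mul_of_pos_right _ hv0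
  have hpm : p ≤ m := by rw [← hu]; exact Nat.le_mul_of_pos_right _ hu0
  have eu : p * (u - 1) = m - p := by rw [Nat.mul_sub, mul_one, hu]
  have ev : q * (v - 1) = m - q := by rw [Nat.mul_sub, mul_one, hv]
  have hs : Shape a b p q m u v := by
    refine ⟨hp, hq, hcop, ?_, ?_, ?_, hu, hv⟩
    · rintro n (hn | hn)
      · have h0 : 0 < n.2 := by
          rcases Nat.eq_zero_or_pos n.2 with h0 | h0
          · exact absurd (by rw [h0, hW.a_zero]) hn
          · exact h0
        by_contra hlt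
        push Not at hlt
        apply hn
        have e : q * n.2 = q * (n.2 - 1) + q := mul_pred h0
        have := p1 n.1 (n.2 - 1) (by omega)
        rwa [Nat.sub_add_cancel h0] at this
      · have h0 : 0 < n.1 := by
          rcases Nat.eq_zero_or_pos n.1 with h0 | h0
          · exact absurd (by rw [h0, hW.b_zero]) hn
          · exact h0
        by_contra hlt
        push Not at hlt
        apply hn
        have e : p * n.1 = p * (n.1 - 1) + p := mul_pred h0
        have := q1 (n.1 - 1) n.2 (by omega)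
        rwa [Nat.sub_add_cancel h0] at this
    · left
      have := p2 0 1
      rw [sum_line_zero_one hp hq (fun i j => a i (j + 1)) ev, Nat.sub_add_cancel hv0] at this
      show a 0 v ≠ 0
      rw [this]; exact hP0
    · right
      have := q2 1 0
      rw [sum_line_one_zero hp hq (fun i j => b (i + 1) j) eu, Nat.sub_add_cancel hu0] at this
      show b u 0 ≠ 0
      rw [this]; exact hQ0
  refine ⟨hs, fun X Y => ?_, fun X Y => ?_⟩
  · rw [leadP_eq hp hq hqm hs.level_eq hW.a_zero, p2]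
  · rw [leadQ_eq hp hq hpm hs.level_eq hW.b_zero, q2]

end Pool.Agent.Y305.MR
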