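import Pool.Agent.Y305.MR.ReturnMap
import Pool.Agent.Y305.MR.Series
import Pool.Agent.Y305.MR.PV

/-! The Newton diagram and the principal values in every analytic coordinate system. -/

set_option autoImplicit false

open Set Filter Topology Asymptotics

noncomputable section

namespace Pool.Agent.Y305.MR

variable {Φ W : ℝ × ℝ → ℝ × ℝ} {a b d e : ℝ}

theorem tendsto_id_right : Tendsto (fun t : ℝ => t) (𝓝[>] 0) (𝓝[>] 0) := tendsto_id

theorem inv_ord (h : ChartData Φ a b d e) {Θ : ℝ × ℝ → ℝ × ℝ} (hΘd : ContDiffAt ℝ 1 Θ 0)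
    (hΘ0 : Θ 0 = 0) (hΘ : ∀ᶠ u in 𝓝 0, Φ (Θ u) = u) {k : ℕ} {u : ℝ → ℝ × ℝ}
    (hu0 : Tendsto u (𝓝[>] 0) (𝓝 0)) (hu : u =O[𝓝[>] 0] fun t : ℝ => t ^ k) :
    Tendsto (fun t => Θ (u t)) (𝓝[>] 0) (𝓝 0) ∧
    ((fun t => Θ (u t)) =O[𝓝[>] 0] fun t : ℝ => t ^ k) ∧
    Ord (𝓝[>] 0) (fun t => t) (2 * k)
      (fun t => (Θ (u t)).1 - (e * (u t).1 - b * (u t).2) / (a * e - b * d)) ∧
    Ord (𝓝[>] 0) (fun t => t) (2 * k)
      (fun t => (Θ (u t)).2 - (a * (u t).2 - d * (u t).1) / (a * e - b * d)) := by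
  have h1 : Tendsto (fun t => Θ (u t)) (𝓝[>] 0) (𝓝 0) := by
    have := hΘd.continuousAt.tendsto.comp hu0
    rwa [hΘ0] at this
  have h2 : (fun t => Θ (u t)) =O[𝓝[>] 0] fun t : ℝ => t ^ k := by
    have g1 := (hΘd.differentiableAt one_ne_zero).isBigO_sub
    simp only [hΘ0, sub_zero] at g1
    exact (g1.comp_tendsto hu0).trans hu
  obtain ⟨o1, o2, -⟩ := h.ord (ρ := fun t : ℝ => t) h1 h2
  have hdet := h.det
  have hev : ∀ᶠ t in 𝓝[>] (0 : ℝ), Φ (Θ (u t)) = u t := hu0.eventually hΘ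
  refine ⟨h1, h2, ?_, ?_⟩
  · have t1 := (Ord.const (l := 𝓝[>] (0 : ℝ)) (ρ := fun t : ℝ => t)
      (-e / (a * e - b * d))).mul o1
    have t2 := (Ord.const (l := 𝓝[>] (0 : ℝ)) (ρ := fun t : ℝ => t)
      (b / (a * e - b * d))).mul o2
    rw [zero_add] at t1 t2
    refine (t1.add t2).congr ?_
    filter_upwards [hev] with t ht
    rw [ht]
    linear_combination (Θ (u t)).1 * mul_inv_cancel₀ hdet
  · have t1 := (Ord.const (l := 𝓝[>] (0 : ℝ)) (ρ := fun t : ℝ => t)
      (d / (a * e - b * d))).mul o1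
    have t2 := (Ord.const (l := 𝓝[>] (0 : ℝ)) (ρ := fun t : ℝ => t)
      (-a / (a * e - b * d))).mul o2
    rw [zero_add] at t1 t2
    refine (t1.add t2).congr ?_
    filter_upwards [hev] with t ht
    rw [ht]
    linear_combination (Θ (u t)).2 * mul_inv_cancel₀ hdet

/-- The curves along which the leading terms are computed. -/
theorem curve_props {p q k : ℕ} (hk : 0 < k) (hkp : k ≤ p) (hkq : k ≤ q) (X Y : ℝ) :
    Tendsto (fun t : ℝ => ((t ^ p * X, t ^ q * Y) : ℝ × ℝ)) (𝓝[>] 0) (𝓝 0) ∧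
    (fun t : ℝ => ((t ^ p * X, t ^ q * Y) : ℝ × ℝ)) =O[𝓝[>] 0] fun t : ℝ => t ^ k := by
  have hp : p ≠ 0 := by omega
  have hq : q ≠ 0 := by omega
  constructor
  · have : Continuous fun t : ℝ => ((t ^ p * X, t ^ q * Y) : ℝ × ℝ) := by fun_prop
    have h1 := (this.tendsto 0).mono_left (nhdsWithin_le_nhds (s := Ioi 0))
    simp only [zero_pow hp, zero_pow hq, zero_mul] at h1
    exact h1
  · have o1 : Ord (𝓝[>] (0 : ℝ)) (fun t => t) p (fun t => t ^ p * X) := by
      have := (Ord.pow_self (l := 𝓝[>] (0 : ℝ)) (ρ := fun t : ℝ => t) (m := p)).mul (Ord.const X)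
      rwa [add_zero] at this
    have o2 : Ord (𝓝[>] (0 : ℝ)) (fun t => t) q (fun t => t ^ q * Y) := by
      have := (Ord.pow_self (l := 𝓝[>] (0 : ℝ)) (ρ := fun t : ℝ => t) (m := q)).mul (Ord.const Y)
      rwa [add_zero] at this
    have o1' := o1.mono tendsto_id_right hkp
    have o2' := o2.mono tendsto_id_right hkq
    exact IsBigO.prod_left o1' o2'

theorem lead_tendsto {N : ℕ} {f : ℝ → ℝ} {c : ℝ}
    (h : Lead (𝓝[>] (0 : ℝ)) (fun t => t) N f (fun _ => c)) :
    Tendsto (fun t => (t ^ N)⁻¹ * f t) (𝓝[>] 0) (𝓝 c) := by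
  have := (h.tendsto tendsto_id_right).add_const c
  simpa using this

theorem case_one (h : ChartData Φ a b d e) (hW : IsExpression ZZ Φ W) (X Y : ℝ) :
    Tendsto (fun t : ℝ => (t ^ (4 - 1))⁻¹ * (W (t ^ 1 * X, t ^ 1 * Y)).1) (𝓝[>] 0)
      (𝓝 (2 * b * ((e * X - b * Y) / (a * e - b * d)) ^ 3)) ∧
    Tendsto (fun t : ℝ => (t ^ (4 - 1))⁻¹ * (W (t ^ 1 * X, t ^ 1 * Y)).2) (𝓝[>] 0)
      (𝓝 (2 * e * ((e * X - b * Y) / (a * e - b * d)) ^ 3)) := by
  obtain ⟨Θ, i1, i2, i3, -, -⟩ := h.inverse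
  obtain ⟨hu0, hu⟩ := curve_props (p := 1) (q := 1) (k := 1) one_pos le_rfl le_rfl X Y
  obtain ⟨hz0, hz, z1, z2⟩ := inv_ord h i1 i2 i3 hu0 hu
  obtain ⟨-, -, o3, o4, o5, o6⟩ := h.ord (ρ := fun t : ℝ => t) hz0 hz
  have hρ := tendsto_id_right
  have L1 : Lead (𝓝[>] (0 : ℝ)) (fun t => t) 1 (fun t => (Θ (t ^ 1 * X, t ^ 1 * Y)).1)
      (fun _ => (e * X - b * Y) / (a * e - b * d)) := by
    have t1 := Lead.exact (l := 𝓝[>] (0 : ℝ)) (ρ := fun t : ℝ => t) (m := 1)
      (Ord.const ((e * X - b * Y) / (a * e - b * d)))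
    have t2 := Lead.of_ord (m := 1) z1
    refine (t1.add t2).congr (Eventually.of_forall fun t => ?_) fun t => by ring
    simp only
    ring
  have L2 : Lead (𝓝[>] (0 : ℝ)) (fun t => t) 1 (fun t => (Θ (t ^ 1 * X, t ^ 1 * Y)).2)
      (fun _ => (a * Y - d * X) / (a * e - b * d)) := by
    have t1 := Lead.exact (l := 𝓝[>] (0 : ℝ)) (ρ := fun t : ℝ => t) (m := 1)
      (Ord.const ((a * Y - d * X) / (a * e - b * d)))
    have t2 := Lead.of_ord (m := 1) z2
    refine (t1.add t2).congr (Eventually.of_forall fun t => ?_) fun t => by ring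
    simp only
    ring
  obtain ⟨Z1, Z2⟩ := lead_ZZ' hρ L1 L2
  have hWev := hu0.eventually (W_eventually hW i2 i1.continuousAt i3)
  have l3 := (Lead.of_ord (m := 0) (o3.mono hρ (by norm_num))).add (Lead.const a)
  have l4 := (Lead.of_ord (m := 0) (o4.mono hρ (by norm_num))).add (Lead.const b)
  have l5 := (Lead.of_ord (m := 0) (o5.mono hρ (by norm_num))).add (Lead.const d)
  have l6 := (Lead.of_ord (m := 0) (o6.mono hρ (by norm_num))).add (Lead.const e)
  constructor
  · refine lead_tendsto ?_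
    have t1 := Lead.of_ord (m := 3) (((l3.ord hρ).mul Z1).mono hρ (by norm_num))
    have t2 := l4.mul hρ Z2
    rw [zero_add] at t2
    refine (t1.add t2).congr ?_ fun t => by ring
    filter_upwards [hWev] with t ht
    rw [ht, apply_fderiv Φ _ (ZZ _)]
    ring
  · refine lead_tendsto ?_
    have t1 := Lead.of_ord (m := 3) (((l5.ord hρ).mul Z1).mono hρ (by norm_num))
    have t2 := l6.mul hρ Z2
    rw [zero_add] at t2
    refine (t1.add t2).congr ?_ fun t => by ring
    filter_upwards [hWev] with t ht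
    rw [ht, apply_fderiv Φ _ (ZZ _)]
    ring

theorem case_two (h : ChartData Φ a b d e) (hW : IsExpression ZZ Φ W) (hb : b = 0) (X Y : ℝ) :
    Tendsto (fun t : ℝ => (t ^ (12 - 2))⁻¹ * (W (t ^ 3 * X, t ^ 2 * Y)).1) (𝓝[>] 0)
      (𝓝 (3 * a * (Y / e) ^ 2 * ((X / a) ^ 2 - (Y / e) ^ 3))) ∧
    Tendsto (fun t : ℝ => (t ^ (12 - 3))⁻¹ * (W (t ^ 3 * X, t ^ 2 * Y)).2) (𝓝[>] 0)
      (𝓝 (2 * e * (X / a) * ((X / a) ^ 2 - (Y / e) ^ 3))) := by
  have hae : a * e ≠ 0 := by
    intro h0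
    exact h.det (by rw [h0, hb]; ring)
  have ha : a ≠ 0 := left_ne_zero_of_mul hae
  have he : e ≠ 0 := right_ne_zero_of_mul hae
  obtain ⟨Θ, i1, i2, i3, -, -⟩ := h.inverse
  obtain ⟨hu0, hu⟩ := curve_props (p := 3) (q := 2) (k := 2) two_pos (by norm_num) le_rfl X Y
  obtain ⟨hz0, hz, z1, z2⟩ := inv_ord h i1 i2 i3 hu0 hu
  obtain ⟨-, -, o3, o4, o5, o6⟩ := h.ord (ρ := fun t : ℝ => t) hz0 hz
  have hρ := tendsto_id_right
  have L1 : Lead (𝓝[>] (0 : ℝ)) (fun t => t) 3 (fun t => (Θ (t ^ 3 * X, t ^ 2 * Y)).1)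
      (fun _ => X / a) := by
    have t1 := Lead.exact (l := 𝓝[>] (0 : ℝ)) (ρ := fun t : ℝ => t) (m := 3)
      (Ord.const (X / a))
    have t2 := Lead.of_ord (m := 3) (z1.mono hρ (by norm_num))
    refine (t1.add t2).congr (Eventually.of_forall fun t => ?_) fun t => by ring
    simp only
    rw [hb]
    field_simp
    ring
  have L2 : Lead (𝓝[>] (0 : ℝ)) (fun t => t) 2 (fun t => (Θ (t ^ 3 * X, t ^ 2 * Y)).2)
      (fun _ => Y / e) := by
    have t1 := Lead.exact (l := 𝓝[>] (0 : ℝ)) (ρ := fun t : ℝ => t) (m := 2)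
      (Ord.const (Y / e))
    have t2 := Lead.of_ord (m := 2) (z2.mono hρ (by norm_num))
    have t3 := Lead.of_ord (m := 2) (Lead.exact (l := 𝓝[>] (0 : ℝ)) (ρ := fun t : ℝ => t)
      (m := 3) (Ord.const (-(d * X / (a * e))))|>.ord hρ)
    refine ((t1.add t2).add t3).congr (Eventually.of_forall fun t => ?_) fun t => by ring
    simp only
    rw [hb]
    field_simp
    ring
  obtain ⟨Z1, Z2⟩ := lead_ZZ hρ L1 L2
  have hWev := hu0.eventually (W_eventually hW i2 i1.continuousAt i3)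
  have l3 := (Lead.of_ord (m := 0) (o3.mono hρ (by norm_num))).add (Lead.const a)
  have l5 := (Lead.of_ord (m := 0) (o5.mono hρ (by norm_num))).add (Lead.const d)
  have l6 := (Lead.of_ord (m := 0) (o6.mono hρ (by norm_num))).add (Lead.const e)
  constructor
  · refine lead_tendsto ?_
    have t1 := Lead.of_ord (m := 10) ((o4.mul (Z2.ord hρ)).mono hρ (by norm_num))
    have t2 := l3.mul hρ Z1
    rw [zero_add] at t2
    refine (t1.add t2).congr ?_ fun t => by ring
    filter_upwards [hWev] with t ht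
    rw [ht, apply_fderiv Φ _ (ZZ _), hb]
    ring
  · refine lead_tendsto ?_
    have t1 := Lead.of_ord (m := 9) (((l5.ord hρ).mul (Z1.ord hρ)).mono hρ (by norm_num))
    have t2 := l6.mul hρ Z2
    rw [zero_add] at t2
    refine (t1.add t2).congr ?_ fun t => by ring
    filter_upwards [hWev] with t ht
    rw [ht, apply_fderiv Φ _ (ZZ _)]
    ring

theorem case_three (h : ChartData Φ a b d e) (hW : IsExpression ZZ Φ W) (he : e = 0) (X Y : ℝ) :
    Tendsto (fun t : ℝ => (t ^ (12 - 3))⁻¹ * (W (t ^ 2 * X, t ^ 3 * Y)).1) (𝓝[>] 0)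
      (𝓝 (2 * b * (Y / d) * ((Y / d) ^ 2 - (X / b) ^ 3))) ∧
    Tendsto (fun t : ℝ => (t ^ (12 - 2))⁻¹ * (W (t ^ 2 * X, t ^ 3 * Y)).2) (𝓝[>] 0)
      (𝓝 (3 * d * (X / b) ^ 2 * ((Y / d) ^ 2 - (X / b) ^ 3))) := by
  have hbd : b * d ≠ 0 := by
    intro h0
    exact h.det (by rw [h0, he]; ring)
  have hb : b ≠ 0 := left_ne_zero_of_mul hbd
  have hd : d ≠ 0 := right_ne_zero_of_mul hbd
  obtain ⟨Θ, i1, i2, i3, -, -⟩ := h.inverse
  obtain ⟨hu0, hu⟩ := curve_props (p := 2) (q := 3) (k := 2) two_pos le_rfl (by norm_num) X Y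
  obtain ⟨hz0, hz, z1, z2⟩ := inv_ord h i1 i2 i3 hu0 hu
  obtain ⟨-, -, o3, o4, o5, o6⟩ := h.ord (ρ := fun t : ℝ => t) hz0 hz
  have hρ := tendsto_id_right
  have L1 : Lead (𝓝[>] (0 : ℝ)) (fun t => t) 3 (fun t => (Θ (t ^ 2 * X, t ^ 3 * Y)).1)
      (fun _ => Y / d) := by
    have t1 := Lead.exact (l := 𝓝[>] (0 : ℝ)) (ρ := fun t : ℝ => t) (m := 3)
      (Ord.const (Y / d))
    have t2 := Lead.of_ord (m := 3) (z1.mono hρ (by norm_num))
    refine (t1.add t2).congr (Eventually.of_forall fun t => ?_) fun t => by ring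
    simp only
    rw [he]
    have : a * 0 - b * d ≠ 0 := by rw [mul_zero, zero_sub]; exact neg_ne_zero.2 hbd
    field_simp
    ring
  have L2 : Lead (𝓝[>] (0 : ℝ)) (fun t => t) 2 (fun t => (Θ (t ^ 2 * X, t ^ 3 * Y)).2)
      (fun _ => X / b) := by
    have t1 := Lead.exact (l := 𝓝[>] (0 : ℝ)) (ρ := fun t : ℝ => t) (m := 2)
      (Ord.const (X / b))
    have t2 := Lead.of_ord (m := 2) (z2.mono hρ (by norm_num))
    have t3 := Lead.of_ord (m := 2) (Lead.exact (l := 𝓝[>] (0 : ℝ)) (ρ := fun t : ℝ => t)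
      (m := 3) (Ord.const (-(a * Y / (b * d))))|>.ord hρ)
    refine ((t1.add t2).add t3).congr (Eventually.of_forall fun t => ?_) fun t => by ring
    simp only
    rw [he]
    have : a * 0 - b * d ≠ 0 := by rw [mul_zero, zero_sub]; exact neg_ne_zero.2 hbd
    field_simp
    ring
  obtain ⟨Z1, Z2⟩ := lead_ZZ hρ L1 L2
  have hWev := hu0.eventually (W_eventually hW i2 i1.continuousAt i3)
  have l3 := (Lead.of_ord (m := 0) (o3.mono hρ (by norm_num))).add (Lead.const a)
  have l4 := (Lead.of_ord (m := 0) (o4.mono hρ (by norm_num))).add (Lead.const b)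
  have l5 := (Lead.of_ord (m := 0) (o5.mono hρ (by norm_num))).add (Lead.const d)
  constructor
  · refine lead_tendsto ?_
    have t1 := Lead.of_ord (m := 9) (((l3.ord hρ).mul (Z1.ord hρ)).mono hρ (by norm_num))
    have t2 := l4.mul hρ Z2
    rw [zero_add] at t2
    refine (t1.add t2).congr ?_ fun t => by ring
    filter_upwards [hWev] with t ht
    rw [ht, apply_fderiv Φ _ (ZZ _)]
    ring
  · refine lead_tendsto ?_
    have t1 := Lead.of_ord (m := 10) ((o6.mul (Z2.ord hρ)).mono hρ (by norm_num))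
    have t2 := l5.mul hρ Z1
    rw [zero_add] at t2
    refine (t1.add t2).congr ?_ fun t => by ring
    filter_upwards [hWev] with t ht
    rw [ht, apply_fderiv Φ _ (ZZ _), he]
    ring

theorem HasPV.eq_zero' {F G : ℝ → ℝ} {c ξ : ℝ} (h : HasPV F G ξ)
    (hF : ∀ φ, F (φ + 2 * Real.pi) = F φ) (hG : ∀ φ, G (φ + 2 * Real.pi) = G φ)
    (hF' : ∀ φ, F (c - φ) = -F φ) (hG' : ∀ φ, G (c - φ) = G φ) : ξ = 0 := by
  refine h.eq_zero (c := c) (fun φ => ?_) (fun φ => ?_) (fun φ => ?_) (fun φ => ?_)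
  · rw [hF, hG]
  · rw [hG]
  · rw [hF', hG', neg_div]
  · rw [hG']

theorem radial_per (a b : ℕ → ℕ → ℝ) (p q : ℕ) (φ : ℝ) :
    radial a b p q (φ + 2 * Real.pi) = radial a b p q φ := by
  simp only [radial, Real.cos_add_two_pi, Real.sin_add_two_pi]

theorem angular_per (a b : ℕ → ℕ → ℝ) (p q : ℕ) (φ : ℝ) :
    angular a b p q (φ + 2 * Real.pi) = angular a b p q φ := by
  simp only [angular, Real.cos_add_two_pi, Real.sin_add_two_pi]

theorem pv_zero (h : IsChart Φ) (hW : IsExpression ZZ Φ W) {a' b' : ℕ → ℕ → ℝ}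
    (hE : IsExpansion W a' b') {p q : ℕ} {ξ : ℝ} (he : IsEdge a' b' p q)
    (hpv : HasPV (radial a' b' p q) (angular a' b' p q) ξ) : ξ = 0 := by
  obtain ⟨a, b, d, e, hΦ⟩ := exists_chartData h
  have hdet := hΦ.det
  by_cases hb : b = 0
  · have hae : a * e ≠ 0 := by
      intro h0
      exact hdet (by rw [h0, hb]; ring)
    have ha : a ≠ 0 := left_ne_zero_of_mul hae
    have he0 : e ≠ 0 := right_ne_zero_of_mul hae
    obtain ⟨hs, hP, hQ⟩ := newton_main hE (p := 3) (q := 2) (m := 12) (u := 4) (v := 6)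
      (by norm_num) (by norm_num) (by norm_num) (by norm_num) (by norm_num) (by norm_num)
      (by norm_num)
      (P := fun X Y => 3 * a * (Y / e) ^ 2 * ((X / a) ^ 2 - (Y / e) ^ 3))
      (Q := fun X Y => 2 * e * (X / a) * ((X / a) ^ 2 - (Y / e) ^ 3))
      (fun X Y => (case_two hΦ hW hb X Y).1) (fun X Y => (case_two hΦ hW hb X Y).2)
      (by
        have : 3 * a * (1 / e) ^ 2 * ((0 / a) ^ 2 - (1 / e) ^ 3) = -(3 * a / e ^ 5) := by
          field_simp; ring
        rw [this]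
        exact neg_ne_zero.2 (by positivity))
      (by
        have : 2 * e * (1 / a) * ((1 / a) ^ 2 - (0 / e) ^ 3) = 2 * e / a ^ 3 := by
          field_simp; ring
        rw [this]
        positivity)
    obtain ⟨rfl, rfl⟩ := hs.edge_eq he
    refine hpv.eq_zero' (c := Real.pi) (radial_per _ _ _ _) (angular_per _ _ _ _) ?_ ?_
    · intro φ
      simp only [radial, hP, hQ, Real.cos_pi_sub, Real.sin_pi_sub]
      ring
    · intro φ
      simp only [angular, hP, hQ, Real.cos_pi_sub, Real.sin_pi_sub]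
      ring
  · by_cases he0 : e = 0
    · have hbd : b * d ≠ 0 := by
        intro h0
        exact hdet (by rw [h0, he0]; ring)
      have hd : d ≠ 0 := right_ne_zero_of_mul hbd
      obtain ⟨hs, hP, hQ⟩ := newton_main hE (p := 2) (q := 3) (m := 12) (u := 6) (v := 4)
        (by norm_num) (by norm_num) (by norm_num) (by norm_num) (by norm_num) (by norm_num)
        (by norm_num)
        (P := fun X Y => 2 * b * (Y / d) * ((Y / d) ^ 2 - (X / b) ^ 3))
        (Q := fun X Y => 3 * d * (X / b) ^ 2 * ((Y / d) ^ 2 - (X / b) ^ 3))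
        (fun X Y => (case_three hΦ hW he0 X Y).1) (fun X Y => (case_three hΦ hW he0 X Y).2)
        (by
          have : 2 * b * (1 / d) * ((1 / d) ^ 2 - (0 / b) ^ 3) = 2 * b / d ^ 3 := by
            field_simp; ring
          rw [this]
          positivity)
        (by
          have : 3 * d * (1 / b) ^ 2 * ((0 / d) ^ 2 - (1 / b) ^ 3) = -(3 * d / b ^ 5) := by
            field_simp; ring
          rw [this]
          exact neg_ne_zero.2 (by positivity))
      obtain ⟨rfl, rfl⟩ := hs.edge_eq he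
      refine hpv.eq_zero' (c := 0) (radial_per _ _ _ _) (angular_per _ _ _ _) ?_ ?_
      · intro φ
        simp only [radial, hP, hQ, zero_sub, Real.cos_neg, Real.sin_neg]
        ring
      · intro φ
        simp only [angular, hP, hQ, zero_sub, Real.cos_neg, Real.sin_neg]
        ring
    · obtain ⟨hs, hP, hQ⟩ := newton_main hE (p := 1) (q := 1) (m := 4) (u := 4) (v := 4)
        (by norm_num) (by norm_num) (by norm_num) (by norm_num) (by norm_num) (by norm_num)
        (by norm_num)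
        (P := fun X Y => 2 * b * ((e * X - b * Y) / (a * e - b * d)) ^ 3)
        (Q := fun X Y => 2 * e * ((e * X - b * Y) / (a * e - b * d)) ^ 3)
        (fun X Y => (case_one hΦ hW X Y).1) (fun X Y => (case_one hΦ hW X Y).2)
        (by
          have : (e * 0 - b * 1) / (a * e - b * d) ≠ 0 := by
            rw [mul_zero, mul_one, zero_sub]
            exact div_ne_zero (neg_ne_zero.2 hb) hdet
          positivity)
        (by
          have : (e * 1 - b * 0) / (a * e - b * d) ≠ 0 := by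
            rw [mul_zero, mul_one, sub_zero]
            exact div_ne_zero he0 hdet
          positivity)
      obtain ⟨rfl, rfl⟩ := hs.edge_eq he
      -- polar form of `(b, e)`
      obtain ⟨r, α, hbr, her⟩ : ∃ r α : ℝ, b = r * Real.cos α ∧ e = r * Real.sin α := by
        refine ⟨‖(⟨b, e⟩ : ℂ)‖, (⟨b, e⟩ : ℂ).arg, ?_, ?_⟩
        · exact (Complex.norm_mul_cos_arg ⟨b, e⟩).symm
        · exact (Complex.norm_mul_sin_arg ⟨b, e⟩).symm
      have hc : ∀ φ, Real.cos (2 * α - φ) = Real.cos (2 * α) * Real.cos φ +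
          Real.sin (2 * α) * Real.sin φ := fun φ => Real.cos_sub _ _
      have hsn : ∀ φ, Real.sin (2 * α - φ) = Real.sin (2 * α) * Real.cos φ -
          Real.cos (2 * α) * Real.sin φ := fun φ => Real.sin_sub _ _
      have hsc := Real.sin_sq_add_cos_sq α
      have hl : ∀ φ, e * Real.cos (2 * α - φ) - b * Real.sin (2 * α - φ) =
          -(e * Real.cos φ - b * Real.sin φ) := by
        intro φ
        have h1 : e * Real.cos (2 * α - φ) - b * Real.sin (2 * α - φ) =
            r * Real.sin (α - (2 * α - φ)) := by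
          rw [hbr, her, Real.sin_sub α]; ring
        have h2 : e * Real.cos φ - b * Real.sin φ = r * Real.sin (α - φ) := by
          rw [hbr, her, Real.sin_sub α]; ring
        rw [h1, h2, show α - (2 * α - φ) = -(α - φ) by ring, Real.sin_neg]
        ring
      have hm : ∀ φ, b * Real.cos (2 * α - φ) + e * Real.sin (2 * α - φ) =
          b * Real.cos φ + e * Real.sin φ := by
        intro φ
        have h1 : b * Real.cos (2 * α - φ) + e * Real.sin (2 * α - φ) =
            r * Real.cos (α - (2 * α - φ)) := by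
          rw [hbr, her, Real.cos_sub α]; ring
        have h2 : b * Real.cos φ + e * Real.sin φ = r * Real.cos (α - φ) := by
          rw [hbr, her, Real.cos_sub α]; ring
        rw [h1, h2, show α - (2 * α - φ) = -(α - φ) by ring, Real.cos_neg]
      refine hpv.eq_zero' (c := 2 * α) (radial_per _ _ _ _) (angular_per _ _ _ _) ?_ ?_
      · intro φ
        simp only [radial, hP, hQ]
        have e1 : ∀ ψ : ℝ, 2 * b * ((e * Real.cos ψ - b * Real.sin ψ) / (a * e - b * d)) ^ 3 *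
            Real.cos ψ + 2 * e * ((e * Real.cos ψ - b * Real.sin ψ) / (a * e - b * d)) ^ 3 *
            Real.sin ψ = 2 * ((e * Real.cos ψ - b * Real.sin ψ) / (a * e - b * d)) ^ 3 *
            (b * Real.cos ψ + e * Real.sin ψ) := fun ψ => by ring
        rw [e1, e1, hl, hm]
        ring
      · intro φ
        simp only [angular, hP, hQ]
        have e1 : ∀ ψ : ℝ, ((1 : ℕ) : ℝ) *
            (2 * e * ((e * Real.cos ψ - b * Real.sin ψ) / (a * e - b * d)) ^ 3) *
            Real.cos ψ - ((1 : ℕ) : ℝ) *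
            (2 * b * ((e * Real.cos ψ - b * Real.sin ψ) / (a * e - b * d)) ^ 3) *
            Real.sin ψ = 2 * ((e * Real.cos ψ - b * Real.sin ψ) / (a * e - b * d)) ^ 3 *
            (e * Real.cos ψ - b * Real.sin ψ) := fun ψ => by push_cast; ring
        rw [e1, e1, hl]
        ring

end Pool.Agent.Y305.MR
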