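import Pool.Agent.Y305.MR.Integral

/-! Quasi-polar coordinates near the origin. -/

set_option autoImplicit false

open Set Filter Topology

noncomputable section

namespace Pool.Agent.Y305.MR

/-- The filter of points with `s → -∞`. -/
def lbot : Filter (ℝ × ℝ) := comap Prod.fst atBot

theorem eventually_lbot {P : ℝ × ℝ → Prop} :
    (∀ᶠ p in lbot, P p) ↔ ∃ s₁, ∀ s ≤ s₁, ∀ θ, P (s, θ) := by
  rw [lbot, eventually_comap, eventually_atBot]
  constructor
  · rintro ⟨s₁, h⟩
    exact ⟨s₁, fun s hs θ => h s hs (s, θ) rfl⟩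
  · rintro ⟨s₁, h⟩
    refine ⟨s₁, fun s hs p hp => ?_⟩
    have := h s hs p.2
    rwa [← hp] at this

theorem tendsto_fst_lbot : Tendsto Prod.fst lbot atBot := tendsto_comap

theorem tendsto_exp_lbot {c : ℝ} (hc : 0 < c) :
    Tendsto (fun p : ℝ × ℝ => Real.exp (c * p.1)) lbot (𝓝 0) := by
  refine Real.tendsto_exp_atBot.comp ?_
  exact (tendsto_fst_lbot.const_mul_atBot hc)

theorem tendsto_pol : Tendsto pol lbot (𝓝 0) := by
  have h1 : Tendsto (fun p : ℝ × ℝ => Real.exp (3 * p.1) * Real.cos p.2) lbot (𝓝 0) := by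
    refine squeeze_zero_norm (fun p => ?_) (tendsto_exp_lbot (c := 3) (by norm_num))
    rw [norm_mul, Real.norm_eq_abs, Real.norm_eq_abs, Real.abs_exp]
    exact mul_le_of_le_one_right (Real.exp_pos _).le (Real.abs_cos_le_one _)
  have h2 : Tendsto (fun p : ℝ × ℝ => Real.exp (2 * p.1) * Real.sin p.2) lbot (𝓝 0) := by
    refine squeeze_zero_norm (fun p => ?_) (tendsto_exp_lbot (c := 2) (by norm_num))
    rw [norm_mul, Real.norm_eq_abs, Real.norm_eq_abs, Real.abs_exp]
    exact mul_le_of_le_one_right (Real.exp_pos _).le (Real.abs_sin_le_one _)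
  exact h1.prodMk_nhds h2

theorem exists_pol (s₂ : ℝ) : ∀ᶠ z : ℝ × ℝ in 𝓝 0, z ≠ 0 → ∃ s θ, s ≤ s₂ ∧ pol (s, θ) = z := by
  have hcont : Continuous fun z : ℝ × ℝ =>
      z.1 ^ 2 * Real.exp (-(6 * s₂)) + z.2 ^ 2 * Real.exp (-(4 * s₂)) := by fun_prop
  have h0 := hcont.tendsto 0
  simp only [Prod.fst_zero, Prod.snd_zero, ne_eq, OfNat.ofNat_ne_zero, not_false_eq_true,
    zero_pow, zero_mul, add_zero] at h0
  filter_upwards [h0.eventually (gt_mem_nhds one_pos)] with z hz hz0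
  set f : ℝ → ℝ := fun s => z.1 ^ 2 * Real.exp (-(6 * s)) + z.2 ^ 2 * Real.exp (-(4 * s)) with hf
  have hfc : Continuous f := by fun_prop
  have hz' : z.1 ≠ 0 ∨ z.2 ≠ 0 := by
    by_contra h
    push Not at h
    exact hz0 (Prod.ext h.1 h.2)
  have htop : Tendsto f atBot atTop := by
    have e1 : Tendsto (fun s : ℝ => Real.exp (-(6 * s))) atBot atTop := by
      refine Real.tendsto_exp_atTop.comp ?_
      exact tendsto_neg_atBot_atTop.comp (tendsto_id.const_mul_atBot (by norm_num))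
    have e2 : Tendsto (fun s : ℝ => Real.exp (-(4 * s))) atBot atTop := by
      refine Real.tendsto_exp_atTop.comp ?_
      exact tendsto_neg_atBot_atTop.comp (tendsto_id.const_mul_atBot (by norm_num))
    rcases hz' with h | h
    · have h2 : 0 < z.1 ^ 2 := by positivity
      refine tendsto_atTop_mono (fun s => ?_) (e1.const_mul_atTop h2)
      have : 0 ≤ z.2 ^ 2 * Real.exp (-(4 * s)) := by positivity
      simp only [hf]
      linarith
    · have h2 : 0 < z.2 ^ 2 := by positivity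
      refine tendsto_atTop_mono (fun s => ?_) (e2.const_mul_atTop h2)
      have : 0 ≤ z.1 ^ 2 * Real.exp (-(6 * s)) := by positivity
      simp only [hf]
      linarith
  obtain ⟨s₀, hs₀⟩ := (htop.eventually_ge_atTop 1).and (eventually_le_atBot s₂) |>.exists
  obtain ⟨s, hs, hs1⟩ := intermediate_value_Icc' (f := f) hs₀.2 hfc.continuousOn
    (⟨hz.le, hs₀.1⟩ : (1 : ℝ) ∈ Icc (f s₂) (f s₀))
  set w : ℂ := ⟨z.1 * Real.exp (-(3 * s)), z.2 * Real.exp (-(2 * s))⟩ with hw
  have hnw : ‖w‖ = 1 := by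
    have h1 : Complex.normSq w = 1 := by
      rw [Complex.normSq_apply, hw]
      simp only
      have e6 : Real.exp (-(6 * s)) = Real.exp (-(3 * s)) * Real.exp (-(3 * s)) := by
        rw [← Real.exp_add]; ring_nf
      have e4 : Real.exp (-(4 * s)) = Real.exp (-(2 * s)) * Real.exp (-(2 * s)) := by
        rw [← Real.exp_add]; ring_nf
      simp only [hf, e6, e4] at hs1
      linarith
    rw [Complex.normSq_eq_norm_sq] at h1
    nlinarith [norm_nonneg w]
  have hw0 : w ≠ 0 := by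
    intro h
    rw [h, norm_zero] at hnw
    exact zero_ne_one hnw
  refine ⟨s, w.arg, hs.2, ?_⟩
  rw [pol]
  simp only
  rw [Complex.cos_arg hw0, Complex.sin_arg, hnw, div_one, div_one, hw]
  simp only
  have e3 : Real.exp (3 * s) * Real.exp (-(3 * s)) = 1 := by rw [← Real.exp_add]; simp
  have e2 : Real.exp (2 * s) * Real.exp (-(2 * s)) = 1 := by rw [← Real.exp_add]; simp
  ext
  · linear_combination z.1 * e3
  · linear_combination z.2 * e2

/-- Level curves through points with very negative `s` stay in the region `s ≤ s₂`. -/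
theorem SS_small (s₂ a b : ℝ) (hab : a ≤ b) : ∃ s₃ ≤ s₂, ∀ s₀ ≤ s₃, ∀ θ₀ ∈ Icc a b, ∀ θ ∈ Icc a b,
    SS (MM (s₀, θ₀)) θ ≤ s₂ := by
  have hc2 : ContinuousOn (fun θ => MM (s₂, θ)) (Icc a b) :=
    (continuous_MM.comp (by fun_prop)).continuousOn
  have hc0 : ContinuousOn (fun θ => MM (0, θ)) (Icc a b) :=
    (continuous_MM.comp (by fun_prop)).continuousOn
  obtain ⟨θm, -, hmin⟩ := (isCompact_Icc (a := a) (b := b)).exists_isMinOn
    (nonempty_Icc.2 hab) hc2
  obtain ⟨θM, -, hmax⟩ := (isCompact_Icc (a := a) (b := b)).exists_isMaxOn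
    (nonempty_Icc.2 hab) hc0
  refine ⟨min (min 0 s₂) ((MM (s₂, θm) - MM (0, θM)) / (9 / 2)),
    (min_le_left _ _).trans (min_le_right _ _), ?_⟩
  intro s₀ hs₀ θ₀ hθ₀ θ hθ
  have h1 : s₀ ≤ 0 := hs₀.trans ((min_le_left _ _).trans (min_le_left _ _))
  have h2 : s₀ ≤ (MM (s₂, θm) - MM (0, θM)) / (9 / 2) := hs₀.trans (min_le_right _ _)
  have h3 := MM_mono s₀ 0 θ₀ h1
  have h4 : MM (0, θ₀) ≤ MM (0, θM) := hmax hθ₀
  have h5 : MM (s₂, θm) ≤ MM (s₂, θ) := hmin hθ
  by_contra hlt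
  push Not at hlt
  have h6 := MM_mono s₂ _ θ hlt.le
  rw [MM_SS] at h6
  rw [le_div_iff₀ (by norm_num)] at h2
  linarith

/-- The first integral near the axis on which a coordinate vanishes. -/
theorem tendsto_MM {l : Filter (ℝ × ℝ)} {θs : ℝ} {n : ℤ} (h1 : Tendsto Prod.fst l atBot)
    (h2 : Tendsto Prod.snd l (𝓝 θs))
    (h : (2 * Real.pi * n - 3 * Real.pi / 2 < θs ∧ θs < 2 * Real.pi * n + Real.pi / 2 ∧
        0 < hh θs) ∨ (2 * Real.pi * n - Real.pi / 2 < θs ∧
        θs < 2 * Real.pi * n + 3 * Real.pi / 2 ∧ hh θs < 0)) :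
    ∃ κ, Tendsto (fun p : ℝ × ℝ => MM p - 6 * p.1) l (𝓝 κ) := by
  have hexp : Tendsto (fun p : ℝ × ℝ => Real.exp (3 * p.1)) l (𝓝 0) :=
    Real.tendsto_exp_atBot.comp (h1.const_mul_atBot (by norm_num))
  have hhh : Tendsto (fun p : ℝ × ℝ => hh p.2) l (𝓝 (hh θs)) :=
    (hasDerivAt_hh θs).continuousAt.tendsto.comp h2
  have hkk : Tendsto (fun p : ℝ × ℝ => Real.exp (3 * p.1) * kk p.2) l (𝓝 0) := by
    have := hexp.mul ((hasDerivAt_kk θs).continuousAt.tendsto.comp h2)
    rwa [zero_mul] at this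
  have hz : Tendsto (fun p : ℝ × ℝ => zt p.1 p.2) l (𝓝 (hh θs : ℂ)) := by
    have h3 := (Complex.continuous_ofReal.tendsto _).comp hhh
    have h4 := ((Complex.continuous_ofReal.tendsto _).comp hkk).mul_const Complex.I
    have h5 := h3.add h4
    simp only [Complex.ofReal_zero, zero_mul, add_zero] at h5
    refine h5.congr fun p => ?_
    apply Complex.ext
    · simp only [Function.comp_apply]
      rw [Complex.add_re, Complex.mul_re, Complex.ofReal_re, Complex.ofReal_re,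
        Complex.ofReal_im, Complex.I_re, Complex.I_im, zt_re]
      ring
    · simp only [Function.comp_apply]
      rw [Complex.add_im, Complex.mul_im, Complex.ofReal_re, Complex.ofReal_im,
        Complex.ofReal_im, Complex.I_re, Complex.I_im, zt_im]
      ring
  rcases h with ⟨ha, hb, hpos⟩ | ⟨ha, hb, hneg⟩
  · have hsl : (hh θs : ℂ) ∈ Complex.slitPlane := by
      left; simpa using hpos
    have hlog : Tendsto (fun p : ℝ × ℝ => Real.log ‖zt p.1 p.2‖) l (𝓝 (Real.log ‖(hh θs : ℂ)‖)) :=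
      (Real.continuousAt_log (by simpa using hpos.ne')).tendsto.comp hz.norm
    have harg : Tendsto (fun p : ℝ × ℝ => (zt p.1 p.2).arg) l (𝓝 (hh θs : ℂ).arg) :=
      (Complex.continuousAt_arg hsl).tendsto.comp hz
    refine ⟨_, ((hlog.sub harg).sub_const (2 * Real.pi * n)).congr' ?_⟩
    filter_upwards [h2.eventually (Ioo_mem_nhds ha hb)] with p hp
    rw [show p = (p.1, p.2) from rfl, MM]
    simp only
    rw [al_eq₁ (n := n) hp.1 hp.2.le]
    ring
  · have hsl : (-(hh θs : ℂ)) ∈ Complex.slitPlane := by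
      left; simpa using hneg
    have hlog : Tendsto (fun p : ℝ × ℝ => Real.log ‖zt p.1 p.2‖) l (𝓝 (Real.log ‖(hh θs : ℂ)‖)) :=
      (Real.continuousAt_log (by simpa using hneg.ne)).tendsto.comp hz.norm
    have harg : Tendsto (fun p : ℝ × ℝ => (-zt p.1 p.2).arg) l (𝓝 (-(hh θs : ℂ)).arg) :=
      (Complex.continuousAt_arg hsl).tendsto.comp hz.neg
    refine ⟨_, ((hlog.sub harg).sub_const (2 * Real.pi * n + Real.pi)).congr' ?_⟩
    filter_upwards [h2.eventually (Ioo_mem_nhds ha hb)] with p hp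
    rw [show p = (p.1, p.2) from rfl, MM]
    simp only
    rw [al_eq₂ (n := n) hp.1 hp.2]
    ring

end Pool.Agent.Y305.MR
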