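import Pool.Agent.Y305.MR.Chart

/-! The leading coefficient of the return map in every analytic coordinate system. -/

set_option autoImplicit false

open Set Filter Topology Asymptotics

noncomputable section

namespace Pool.Agent.Y305.MR

/-- The radial scale in quasi-polar coordinates. -/
def rad (p : ℝ × ℝ) : ℝ := Real.exp p.1

theorem tendsto_rad : Tendsto rad lbot (𝓝[>] 0) := by
  rw [tendsto_nhdsWithin_iff]
  refine ⟨?_, Eventually.of_forall fun p => Real.exp_pos _⟩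
  exact Real.tendsto_exp_atBot.comp tendsto_fst_lbot

theorem rad_pow (p : ℝ × ℝ) (n : ℕ) : (rad p ^ n)⁻¹ = Real.exp (-((n : ℝ) * p.1)) := by
  rw [rad, ← Real.exp_nat_mul, Real.exp_neg]

theorem ord_cos : Ord lbot rad 0 (fun p => Real.cos p.2) := by
  refine IsBigO.of_bound 1 (Eventually.of_forall fun p => ?_)
  simpa using Real.abs_cos_le_one p.2

theorem ord_sin : Ord lbot rad 0 (fun p => Real.sin p.2) := by
  refine IsBigO.of_bound 1 (Eventually.of_forall fun p => ?_)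
  simpa using Real.abs_sin_le_one p.2

theorem lead_pol_fst : Lead lbot rad 3 (fun p => (pol p).1) (fun p => Real.cos p.2) := by
  refine (Lead.exact ord_cos).congr (Eventually.of_forall fun p => ?_) fun _ => rfl
  simp only [pol, rad]
  rw [← Real.exp_nat_mul]
  push_cast
  rfl

theorem lead_pol_snd : Lead lbot rad 2 (fun p => (pol p).2) (fun p => Real.sin p.2) := by
  refine (Lead.exact ord_sin).congr (Eventually.of_forall fun p => ?_) fun _ => rfl
  simp only [pol, rad]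
  rw [← Real.exp_nat_mul]
  push_cast
  rfl

theorem pol_isBigO : pol =O[lbot] fun p => rad p ^ 2 := by
  have h1 : (fun p => (pol p).1) =O[lbot] fun p => rad p ^ 2 :=
    (lead_pol_fst.ord tendsto_rad).mono tendsto_rad (by norm_num)
  have h2 : (fun p => (pol p).2) =O[lbot] fun p => rad p ^ 2 := lead_pol_snd.ord tendsto_rad
  exact h1.prod_left h2

variable {Φ W : ℝ × ℝ → ℝ × ℝ} {a b d e : ℝ}

theorem W_apply (hW : IsExpression ZZ Φ W) : ∀ᶠ z in 𝓝 (0 : ℝ × ℝ),
    W (Φ z) = ((fderiv ℝ Φ z (1, 0)).1 * (ZZ z).1 + (fderiv ℝ Φ z (0, 1)).1 * (ZZ z).2,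
      (fderiv ℝ Φ z (1, 0)).2 * (ZZ z).1 + (fderiv ℝ Φ z (0, 1)).2 * (ZZ z).2) := by
  filter_upwards [hW] with z hz
  rw [hz, apply_fderiv]

theorem asym_one (h : ChartData Φ a b d e) (hW : IsExpression ZZ Φ W) (he : e ≠ 0) {θs τ : ℝ}
    (hτ : τ = 1 ∨ τ = -1) (hcos : ∀ θ, Real.cos (θ - θs) = τ * Real.cos θ)
    (hsin : ∀ θ, Real.sin (θ - θs) = τ * Real.sin θ) (hB : 0 < τ * (a - b * d / e))
    (base : ∃ n : ℤ, (2 * Real.pi * n - 3 * Real.pi / 2 < θs ∧
        θs < 2 * Real.pi * n + Real.pi / 2 ∧ 0 < hh θs) ∨ (2 * Real.pi * n - Real.pi / 2 < θs ∧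
        θs < 2 * Real.pi * n + 3 * Real.pi / 2 ∧ hh θs < 0)) :
    Asym (fun p => (Φ (pol p)).1) (fun p => (Φ (pol p)).2) (fun p => (W (Φ (pol p))).2) θs 3 := by
  obtain ⟨o1, o2, o3, o4, o5, o6⟩ := h.ord tendsto_pol pol_isBigO
  have hρ := tendsto_rad
  have hX := lead_pol_fst
  have hY := lead_pol_snd
  have hτ2 : τ * τ = 1 := by rcases hτ with h | h <;> rw [h] <;> norm_num
  obtain ⟨Z1, Z2⟩ := lead_ZZ hρ hX hY
  have hQ : Lead lbot rad 2 (fun p => (Φ (pol p)).2) (fun p => e * Real.sin p.2) := by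
    have t1 := Lead.of_ord (m := 2) ((hX.const_mul d).ord hρ)
    have t2 := hY.const_mul e
    have t3 := Lead.of_ord (m := 2) (o2.mono hρ (by norm_num))
    refine ((t1.add t2).add t3).congr (Eventually.of_forall fun p => by ring) fun p => by ring
  have hR : Lead lbot rad 9 (fun p => (W (Φ (pol p))).2)
      (fun p => e * (2 * Real.cos p.2 * hh p.2)) := by
    have l5 : Lead lbot rad 0 (fun p => (fderiv ℝ Φ (pol p) (1, 0)).2) (fun _ => d) := by
      have := (Lead.of_ord (m := 0) (o5.mono hρ (by norm_num))).add (Lead.const d)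
      refine this.congr (Eventually.of_forall fun p => by ring) fun p => by ring
    have l6 : Lead lbot rad 0 (fun p => (fderiv ℝ Φ (pol p) (0, 1)).2) (fun _ => e) := by
      have := (Lead.of_ord (m := 0) (o6.mono hρ (by norm_num))).add (Lead.const e)
      refine this.congr (Eventually.of_forall fun p => by ring) fun p => by ring
    have t1 := Lead.of_ord (m := 9) (((l5.mul hρ Z1).ord hρ).mono hρ (by norm_num))
    have t2 := l6.mul hρ Z2
    rw [zero_add] at t2
    refine (t1.add t2).congr ?_ fun p => ?_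
    · filter_upwards [tendsto_pol.eventually (W_apply hW)] with p hp
      rw [hp]
    · rw [hh]; ring
  have hP : Lead lbot rad 3 (fun p => (Φ (pol p)).1 - b / e * (Φ (pol p)).2)
      (fun p => (a - b * d / e) * Real.cos p.2) := by
    have t1 := hX.const_mul (a - b * d / e)
    have t2 := Lead.of_ord (m := 3) (o1.mono hρ (by norm_num))
    have t3 := (Lead.of_ord (m := 3) (o2.mono hρ (by norm_num))).const_mul (b / e)
    refine ((t1.add t2).sub t3).congr (Eventually.of_forall fun p => ?_) fun p => by ring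
    field_simp
    ring
  obtain ⟨σe, hσe, hσe2⟩ : ∃ σe : ℝ, (σe = 1 ∨ σe = -1) ∧ σe * |e| = e := by
    rcases lt_or_gt_of_ne he with h | h
    · exact ⟨-1, Or.inr rfl, by rw [abs_of_neg h]; ring⟩
    · exact ⟨1, Or.inl rfl, by rw [abs_of_pos h]; ring⟩
  have hσe3 : σe * σe = 1 := by rcases hσe with h | h <;> rw [h] <;> norm_num
  refine ⟨⟨τ * σe, τ * (a - b * d / e), 2, 9, |e|, |e| / 2,
    fun θ => e * (2 * Real.cos θ * hh θ), ?_, hB, abs_pos.2 he, by positivity, ?_, ?_, ?_, ?_⟩,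
    base⟩
  · rcases hτ with h | h <;> rcases hσe with h' | h' <;> rw [h, h'] <;> norm_num
  · refine (hQ.tendsto hρ).congr fun p => ?_
    rw [rad_pow, hsin]
    push_cast
    linear_combination Real.sin p.2 * hσe2 + σe * |e| * Real.sin p.2 * hτ2
  · refine (hR.tendsto hρ).congr fun p => ?_
    rw [rad_pow]
    push_cast
    rfl
  · intro θ hθ
    rw [hsin, abs_mul] at hθ
    have hτa : |τ| = 1 := by rcases hτ with h | h <;> rw [h] <;> norm_num
    rw [hτa, one_mul] at hθ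
    rw [hcos]
    have e1 : τ * σe * (e * (2 * Real.cos θ * hh θ)) * (τ * Real.cos θ) =
        |e| * (2 * Real.cos θ ^ 2 * hh θ) := by
      have : e * σe = |e| := by linear_combination (-σe) * hσe2 + |e| * hσe3
      linear_combination (2 * Real.cos θ ^ 2 * hh θ) * (σe * e * hτ2 + this)
    rw [e1, hh]
    have hsc := Real.sin_sq_add_cos_sq θ
    have hab := abs_le.1 hθ
    have h1 : Real.sin θ ^ 2 ≤ 1 / 4 := by nlinarith
    have h2 : Real.sin θ ^ 3 ≤ 1 / 8 := by nlinarith [sq_nonneg (Real.sin θ)]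
    have h3 : 3 / 4 ≤ Real.cos θ ^ 2 := by linarith
    have h4 : 5 / 8 ≤ Real.cos θ ^ 2 - Real.sin θ ^ 3 := by linarith
    have h5 : 1 / 2 ≤ 2 * Real.cos θ ^ 2 * (Real.cos θ ^ 2 - Real.sin θ ^ 3) := by nlinarith
    have := mul_le_mul_of_nonneg_left h5 (abs_nonneg e)
    linarith
  · have h1 := (hP.tendsto hρ).mono_left (inf_le_left : lbot ⊓ 𝓟 {p | (Φ (pol p)).2 = 0} ≤ lbot)
    refine h1.congr' ?_
    rw [EventuallyEq, eventually_inf_principal]
    refine Eventually.of_forall fun p hp => ?_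
    have hp' : (Φ (pol p)).2 = 0 := hp
    rw [rad_pow, hcos, hp']
    push_cast
    linear_combination ((a - b * d / e) * Real.cos p.2) * hτ2

theorem asym_two (h : ChartData Φ a b d e) (hW : IsExpression ZZ Φ W) (he : e = 0) {θs τ : ℝ}
    (hτ : τ = 1 ∨ τ = -1) (hcos : ∀ θ, Real.cos (θ - θs) = τ * Real.sin θ)
    (hsin : ∀ θ, Real.sin (θ - θs) = -(τ * Real.cos θ)) (hB : 0 < τ * b)
    (base : ∃ n : ℤ, (2 * Real.pi * n - 3 * Real.pi / 2 < θs ∧
        θs < 2 * Real.pi * n + Real.pi / 2 ∧ 0 < hh θs) ∨ (2 * Real.pi * n - Real.pi / 2 < θs ∧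
        θs < 2 * Real.pi * n + 3 * Real.pi / 2 ∧ hh θs < 0)) :
    Asym (fun p => (Φ (pol p)).1) (fun p => (Φ (pol p)).2) (fun p => (W (Φ (pol p))).2) θs 2 := by
  obtain ⟨o1, o2, o3, o4, o5, o6⟩ := h.ord tendsto_pol pol_isBigO
  have hρ := tendsto_rad
  have hX := lead_pol_fst
  have hY := lead_pol_snd
  have hτ2 : τ * τ = 1 := by rcases hτ with h | h <;> rw [h] <;> norm_num
  have hd : d ≠ 0 := by
    rintro rfl
    exact h.det (by rw [he]; ring)
  obtain ⟨Z1, Z2⟩ := lead_ZZ hρ hX hY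
  have hQ : Lead lbot rad 3 (fun p => (Φ (pol p)).2) (fun p => d * Real.cos p.2) := by
    have t1 := hX.const_mul d
    have t3 := Lead.of_ord (m := 3) (o2.mono hρ (by norm_num))
    refine (t1.add t3).congr (Eventually.of_forall fun p => by rw [he]; ring) fun p => by ring
  have hR : Lead lbot rad 10 (fun p => (W (Φ (pol p))).2)
      (fun p => d * (3 * Real.sin p.2 ^ 2 * hh p.2)) := by
    have l5 : Lead lbot rad 0 (fun p => (fderiv ℝ Φ (pol p) (1, 0)).2) (fun _ => d) := by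
      have := (Lead.of_ord (m := 0) (o5.mono hρ (by norm_num))).add (Lead.const d)
      refine this.congr (Eventually.of_forall fun p => by ring) fun p => by ring
    have t1 := l5.mul hρ Z1
    rw [zero_add] at t1
    have t2 := Lead.of_ord (m := 10) ((o6.mul (Z2.ord hρ)).mono hρ (by norm_num))
    refine (t1.add t2).congr ?_ fun p => ?_
    · filter_upwards [tendsto_pol.eventually (W_apply hW)] with p hp
      rw [hp, he]
      ring
    · rw [hh]; ring
  have hP : Lead lbot rad 2 (fun p => (Φ (pol p)).1) (fun p => b * Real.sin p.2) := by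
    have t1 := Lead.of_ord (m := 2) ((hX.const_mul a).ord hρ)
    have t2 := hY.const_mul b
    have t3 := Lead.of_ord (m := 2) (o1.mono hρ (by norm_num))
    refine ((t1.add t2).add t3).congr (Eventually.of_forall fun p => by ring) fun p => by ring
  obtain ⟨σe, hσe, hσe2⟩ : ∃ σe : ℝ, (σe = 1 ∨ σe = -1) ∧ σe * |d| = d := by
    rcases lt_or_gt_of_ne hd with h | h
    · exact ⟨-1, Or.inr rfl, by rw [abs_of_neg h]; ring⟩
    · exact ⟨1, Or.inl rfl, by rw [abs_of_pos h]; ring⟩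
  have hσe3 : σe * σe = 1 := by rcases hσe with h | h <;> rw [h] <;> norm_num
  refine ⟨⟨-(τ * σe), τ * b, 3, 10, |d|, |d| / 2,
    fun θ => d * (3 * Real.sin θ ^ 2 * hh θ), ?_, hB, abs_pos.2 hd, by positivity, ?_, ?_, ?_, ?_⟩,
    base⟩
  · rcases hτ with h | h <;> rcases hσe with h' | h' <;> rw [h, h'] <;> norm_num
  · refine (hQ.tendsto hρ).congr fun p => ?_
    rw [rad_pow, hsin]
    push_cast
    linear_combination Real.cos p.2 * hσe2 + σe * |d| * Real.cos p.2 * hτ2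
  · refine (hR.tendsto hρ).congr fun p => ?_
    rw [rad_pow]
    push_cast
    rfl
  · intro θ hθ
    rw [hsin, abs_neg, abs_mul] at hθ
    have hτa : |τ| = 1 := by rcases hτ with h | h <;> rw [h] <;> norm_num
    rw [hτa, one_mul] at hθ
    rw [hcos]
    have e1 : -(τ * σe) * (d * (3 * Real.sin θ ^ 2 * hh θ)) * (τ * Real.sin θ) =
        |d| * (3 * (-(Real.sin θ ^ 3 * hh θ))) := by
      have : d * σe = |d| := by linear_combination (-σe) * hσe2 + |d| * hσe3
      linear_combination (-(3 * Real.sin θ ^ 3 * hh θ)) * (σe * d * hτ2 + this)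
    rw [e1, hh]
    have hsc := Real.sin_sq_add_cos_sq θ
    have hab := abs_le.1 hθ
    have h1 : Real.cos θ ^ 2 ≤ 1 / 4 := by nlinarith
    have h3 : 3 / 4 ≤ Real.sin θ ^ 2 := by linarith
    have h4 : 27 / 64 ≤ Real.sin θ ^ 6 := by
      have : (3 / 4 : ℝ) ^ 3 ≤ (Real.sin θ ^ 2) ^ 3 := pow_le_pow_left₀ (by norm_num) h3 3
      calc (27 / 64 : ℝ) = (3 / 4) ^ 3 := by norm_num
        _ ≤ _ := this
        _ = _ := by ring
    have h6 : Real.sin θ ^ 3 ≤ 1 := by
      have h7 := Real.abs_sin_le_one θ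
      calc Real.sin θ ^ 3 ≤ |Real.sin θ ^ 3| := le_abs_self _
        _ = |Real.sin θ| ^ 3 := abs_pow _ _
        _ ≤ 1 := pow_le_one₀ (abs_nonneg _) h7
    have h7 : Real.cos θ ^ 2 * Real.sin θ ^ 3 ≤ 1 / 4 := by
      nlinarith [sq_nonneg (Real.cos θ)]
    have h5 : 1 / 2 ≤ 3 * (-(Real.sin θ ^ 3 * (Real.cos θ ^ 2 - Real.sin θ ^ 3))) := by
      have e2 : Real.sin θ ^ 3 * (Real.cos θ ^ 2 - Real.sin θ ^ 3) =
        Real.cos θ ^ 2 * Real.sin θ ^ 3 - Real.sin θ ^ 6 := by ring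
      rw [e2]
      linarith
    have := mul_le_mul_of_nonneg_left h5 (abs_nonneg d)
    linarith
  · have h1 := (hP.tendsto hρ).mono_left (inf_le_left : lbot ⊓ 𝓟 {p | (Φ (pol p)).2 = 0} ≤ lbot)
    refine h1.congr fun p => ?_
    rw [rad_pow, hcos]
    push_cast
    linear_combination (b * Real.sin p.2) * hτ2

theorem exists_asym (h : ChartData Φ a b d e) (hW : IsExpression ZZ Φ W) :
    ∃ θs μ : ℝ, (μ = 3 ∨ μ = 2) ∧
    Asym (fun p => (Φ (pol p)).1) (fun p => (Φ (pol p)).2) (fun p => (W (Φ (pol p))).2) θs μ := by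
  have hpi := Real.pi_pos
  by_cases he : e = 0
  · have hb : b ≠ 0 := by
      rintro rfl
      exact h.det (by rw [he]; ring)
    rcases lt_or_gt_of_ne hb with hb | hb
    · refine ⟨-(Real.pi / 2), 2, Or.inr rfl, asym_two h hW he (τ := -1) (Or.inr rfl) ?_ ?_ ?_ ?_⟩
      · intro θ
        rw [sub_neg_eq_add, Real.cos_add_pi_div_two]; ring
      · intro θ
        rw [sub_neg_eq_add, Real.sin_add_pi_div_two]; ring
      · linarith
      · refine ⟨0, Or.inl ⟨?_, ?_, ?_⟩⟩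
        · push_cast; linarith
        · push_cast; linarith
        · rw [hh]; norm_num
    · refine ⟨Real.pi / 2, 2, Or.inr rfl, asym_two h hW he (τ := 1) (Or.inl rfl) ?_ ?_ ?_ ?_⟩
      · intro θ
        rw [Real.cos_sub_pi_div_two]; ring
      · intro θ
        rw [Real.sin_sub_pi_div_two]; ring
      · linarith
      · refine ⟨0, Or.inr ⟨?_, ?_, ?_⟩⟩
        · push_cast; linarith
        · push_cast; linarith
        · rw [hh]; norm_num
  · have hne : a - b * d / e ≠ 0 := by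
      intro h0
      apply h.det
      field_simp at h0
      linarith
    rcases lt_or_gt_of_ne hne with hb | hb
    · refine ⟨Real.pi, 3, Or.inl rfl, asym_one h hW he (τ := -1) (Or.inr rfl) ?_ ?_ ?_ ?_⟩
      · intro θ
        rw [Real.cos_sub_pi]; ring
      · intro θ
        rw [Real.sin_sub_pi]; ring
      · linarith
      · refine ⟨1, Or.inl ⟨?_, ?_, ?_⟩⟩
        · push_cast; linarith
        · push_cast; linarith
        · rw [hh]; norm_num
    · refine ⟨0, 3, Or.inl rfl, asym_one h hW he (τ := 1) (Or.inl rfl) ?_ ?_ ?_ ?_⟩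
      · intro θ
        rw [sub_zero]; ring
      · intro θ
        rw [sub_zero]; ring
      · linarith
      · refine ⟨0, Or.inl ⟨?_, ?_, ?_⟩⟩
        · push_cast; linarith
        · push_cast; linarith
        · rw [hh]; norm_num

theorem W_eventually {Θ : ℝ × ℝ → ℝ × ℝ} (hW : IsExpression ZZ Φ W) (hΘ0 : Θ 0 = 0)
    (hΘc : ContinuousAt Θ 0) (hΘ : ∀ᶠ u in 𝓝 0, Φ (Θ u) = u) :
    ∀ᶠ u in 𝓝 0, W u = fderiv ℝ Φ (Θ u) (ZZ (Θ u)) := by
  have ht : Tendsto Θ (𝓝 0) (𝓝 0) := by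
    have := hΘc.tendsto
    rwa [hΘ0] at this
  filter_upwards [hΘ, ht.eventually hW] with u h1 h2
  rw [← h2, h1]

theorem contDiff_ZZ : ContDiff ℝ 1 ZZ := by unfold ZZ; fun_prop

theorem exists_lipschitz (h : ChartData Φ a b d e) (hW : IsExpression ZZ Φ W) :
    ∃ K : NNReal, ∃ U ∈ 𝓝 (0 : ℝ × ℝ), LipschitzOnWith K W U := by
  obtain ⟨Θ, h1, h2, h3, -, -⟩ := h.inverse
  have hcd : ContDiffAt ℝ 1 (fun u => fderiv ℝ Φ (Θ u) (ZZ (Θ u))) 0 := by
    have g1 : ContDiffAt ℝ 1 (fderiv ℝ Φ) (Θ 0) := by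
      rw [h2]; exact h.an.fderiv.contDiffAt
    have g2 : ContDiffAt ℝ 1 (fun u => fderiv ℝ Φ (Θ u)) 0 := g1.comp 0 h1
    have g3 : ContDiffAt ℝ 1 (fun u => ZZ (Θ u)) 0 := contDiff_ZZ.contDiffAt.comp 0 h1
    exact g2.clm_apply g3
  have hcd' : ContDiffAt ℝ 1 W 0 :=
    hcd.congr_of_eventuallyEq (W_eventually hW h2 h1.continuousAt h3)
  exact hcd'.exists_lipschitzOnWith

theorem chart_return (h : IsChart Φ) (hW : IsExpression ZZ Φ W) :
    ∃ η, (η = Real.exp Real.pi ∨ η = Real.exp (2 * Real.pi / 3)) ∧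
      (∃ R, IsReturnMap W R) ∧ ∀ R, IsReturnMap W R → HasLeadingCoeff R η := by
  obtain ⟨a, b, d, e, hΦ⟩ := exists_chartData h
  obtain ⟨θs, μ, hμ, hA⟩ := exists_asym hΦ hW
  obtain ⟨K, U₀, hU₀, hK⟩ := exists_lipschitz hΦ hW
  obtain ⟨Θ, -, -, -, -, hopen⟩ := hΦ.inverse
  have hd : ∀ᶠ z in 𝓝 (0 : ℝ × ℝ), DifferentiableAt ℝ Φ z :=
    hΦ.an.eventually_analyticAt.mono fun z hz => hz.differentiableAt
  have hc : Tendsto Φ (𝓝 0) (𝓝 0) := by
    have := hΦ.an.continuousAt.tendsto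
    rwa [hΦ.zero] at this
  refine ⟨Real.exp (μ * (Real.pi / 3)), ?_, returnMap_of hU₀ hK fun U hU ε hε =>
    turn hd hc hΦ.zero hopen hW hA hU hε⟩
  rcases hμ with rfl | rfl
  · left; congr 1; ring
  · right; congr 1; ring

end Pool.Agent.Y305.MR
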